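import Pool.Agent.Work.MP_d3ab46_al.Hedge.Up

/-!
The automorphisms induced on a section of order nine with nontrivial central commutators.
-/

namespace Pool.Agent.Work.MP_d3ab46_al

open Subgroup Module Pool.Agent.Work.MP_36bee3_al

lemma sl_four : ∀ a b c d : ZMod 3, a * d - b * c = 1 →
    (!![a, b; c, d] ^ 4 = 1 ↔ a + d = 0 ∨ b = 0 ∧ c = 0) ∧ (!![a, b; c, d] ^ 3) ^ 4 = 1 := by
  decide +kernel

lemma sl_mul : ∀ a b c d : ZMod 3, a * d - b * c = 1 → (a + d = 0 ∨ b = 0 ∧ c = 0) →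
    ∀ a' b' c' d' : ZMod 3, a' * d' - b' * c' = 1 → (a' + d' = 0 ∨ b' = 0 ∧ c' = 0) →
    (a * a' + b * c' + (c * b' + d * d') = 0 ∨ a * b' + b * d' = 0 ∧ c * a' + d * c' = 0) := by
  decide +kernel

lemma sl_add {Q : Type*} [Group Q] {t : Q} (h : t ^ 3 = 1) (a b : ZMod 3) :
    t ^ (a + b).val = t ^ a.val * t ^ b.val := by
  rw [ZMod.val_add, ← pow_eq_pow_mod _ h, pow_add]

lemma sl_pow {Q : Type*} [Group Q] {t : Q} (h : t ^ 3 = 1) (a b : ZMod 3) :
    t ^ (a * b).val = (t ^ a.val) ^ b.val := by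
  rw [ZMod.val_mul, ← pow_eq_pow_mod _ h, pow_mul]

theorem sl_step {G : Type} [Group G] [Finite G] {A E : Subgroup G} [A.Normal] [E.Normal]
    (hA : A ≤ center G) (hAE : A ≤ E) (hc : ∀ a ∈ E, ∀ b ∈ E, a * b * a⁻¹ * b⁻¹ ∈ A)
    (h3 : ∀ e ∈ E, e ^ 3 ∈ A) (h9 : A.relIndex E ≤ 9) (hne : ∃ x ∈ E, ∃ y ∈ E, x * y ≠ y * x) :
    L {2} (cen A E) 1 := by
  obtain ⟨x, hx, y, hy, hxy⟩ := hne
  have cz : ∀ u ∈ A, ∀ g, g * u = u * g := fun u hu g => mem_center_iff.1 (hA hu) g
  let B : E → E →* G := fun f => MonoidHom.mk' (fun e => e.1 * f * e.1⁻¹ * f.1⁻¹) fun e e' => by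
    have := cz _ (hc _ e'.2 _ f.2)
    calc _ = e.1 * (e'.1 * f * e'.1⁻¹ * f.1⁻¹) * f * e.1⁻¹ * f.1⁻¹ := by
          push_cast
          group
      _ = _ := by
          rw [this, this (e.1 * f * e.1⁻¹ * f.1⁻¹)]
          group
  have hB : ∀ e f : E, B f e = e.1 * f * e.1⁻¹ * f.1⁻¹ := fun _ _ => rfl
  have sw : ∀ e f : E, B f e = (B e f)⁻¹ := fun e f => by
    simp only [hB]
    group
  have B0 : ∀ f e : E, e.1 ∈ A → B f e = 1 := fun f e he => by
    rw [hB, ← cz _ he]
    group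
  have Bs : ∀ f : E, B f f = 1 := fun f => by simp [hB]
  set x' : E := ⟨x, hx⟩
  set y' : E := ⟨y, hy⟩
  set z := B y' x' with hz
  have oz : orderOf z = 3 := by
    have : Fact (Nat.Prime 3) := ⟨by norm_num⟩
    refine orderOf_eq_prime (by rw [hz, ← map_pow, B0 _ _ (h3 x hx)]) fun h => hxy ?_
    rwa [hz, hB, mul_inv_eq_one, mul_inv_eq_iff_eq_mul] at h
  let w : ZMod 3 → ZMod 3 → E := fun a c => x' ^ a.val * y' ^ c.val
  have K : ∀ (a b c d : ZMod 3) (e f : E), ((w a c)⁻¹ * e).1 ∈ A → ((w b d)⁻¹ * f).1 ∈ A →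
      ∀ n : ℤ, B f e = z ^ n → a * d - b * c = n := fun a b c d e f he hf n h => by
    have h1 : ∀ (g : E) (p q) (e : E), ((w p q)⁻¹ * e).1 ∈ A →
        B g e = B g x' ^ p.val * B g y' ^ q.val := fun g p q e he => by
      rw [← mul_inv_cancel_left (w p q) e, map_mul, B0 _ _ he, mul_one, map_mul, map_pow, map_pow]
    rw [h1 f a c e he, sw x', sw y', h1 x' b d f hf, h1 y' b d f hf, Bs, Bs, sw y' x', ← hz] at h
    simp only [one_zpow, one_mul, mul_one, ← zpow_natCast, ← zpow_mul, inv_zpow', ← zpow_add] at h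
    rw [zpow_eq_zpow_iff_modEq, oz, ← ZMod.intCast_eq_intCast_iff] at h
    push_cast at h
    simp only [ZMod.natCast_val, ZMod.cast_id', id] at h
    linear_combination h
  have w1 : w 1 0 = x' := by simp [w, ZMod.val_one]
  have w2 : w 0 1 = y' := by simp [w, ZMod.val_one]
  have inj : ∀ a c a' c', ((w a c)⁻¹ * w a' c').1 ∈ A → a = a' ∧ c = c' := by
    intro a c a' c' h
    have e1 : B y' (w a' c') = z ^ (a'.val : ℤ) := by simp [w, Bs, ← hz, -ZMod.natCast_val]
    have e2 : B (w a' c') x' = z ^ (c'.val : ℤ) := by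
      rw [sw]
      simp [w, Bs, sw y' x', ← hz, -ZMod.natCast_val]
    constructor
    · simpa using K a 0 c 1 _ y' h (by simp [w2]) _ e1
    · simpa using K 1 a 0 c x' _ (by simp [w1]) h _ e2
  have sur : ∀ e : E, ∃ a c, ((w a c)⁻¹ * e).1 ∈ A := fun e => by
    have h1 : Function.Injective fun p : ZMod 3 × ZMod 3 =>
        (QuotientGroup.mk (w p.1 p.2) : E ⧸ A.subgroupOf E) := fun p q h =>
      have := inj _ _ _ _ ((QuotientGroup.eq (s := A.subgroupOf E)).1 h)
      Prod.ext this.1 this.2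
    obtain ⟨p, hp⟩ := (h1.bijective_of_nat_card_le (h9.trans (by simp))).2 (QuotientGroup.mk e)
    exact ⟨p.1, p.2, (QuotientGroup.eq (s := A.subgroupOf E)).1 hp⟩
  let π := QuotientGroup.mk' A
  have eq : ∀ s t : G, s⁻¹ * t ∈ A ↔ π s = π t := fun s t => QuotientGroup.eq.symm
  have X3 : π x ^ 3 = 1 := (QuotientGroup.eq_one_iff _).2 (h3 x hx)
  have Y3 : π y ^ 3 = 1 := (QuotientGroup.eq_one_iff _).2 (h3 y hy)
  have XY : Commute (π x) (π y) := commutatorElement_eq_one_iff_commute.1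
    ((QuotientGroup.eq_one_iff _).2 (hc x hx y hy))
  have πw : ∀ a c, π (w a c) = π x ^ a.val * π y ^ c.val := fun a c => by simp [w, x', y']
  choose a c hac using fun g : G => sur (MulAut.conjNormal g x')
  choose b d hbd using fun g : G => sur (MulAut.conjNormal g y')
  have act : ∀ g p q, π (w (a g * p + b g * q) (c g * p + d g * q)) =
      π g * π (w p q) * (π g)⁻¹ := fun g p q => by
    have h1 : π (w (a g) (c g)) = π g * π x * (π g)⁻¹ := (eq _ _).1 (hac g)
    have h2 : π (w (b g) (d g)) = π g * π y * (π g)⁻¹ := (eq _ _).1 (hbd g)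
    rw [πw p q, ← conj_mul, ← conj_pow, ← conj_pow, ← h1, ← h2]
    simp only [πw, sl_add X3, sl_add Y3, sl_pow X3, sl_pow Y3, (XY.pow_pow _ _).mul_pow,
      ← pow_mul, mul_assoc]
    rw [(XY.pow_pow _ _).left_comm]
  have inj' : ∀ p q p' q', π (w p q) = π (w p' q') → p = p' ∧ q = q' := fun p q p' q' h =>
    inj _ _ _ _ ((eq _ _).2 h)
  have ext : ∀ (g) (N : Matrix (Fin 2) (Fin 2) (ZMod 3)), (∀ p q, π (w (N 0 0 * p + N 0 1 * q)
      (N 1 0 * p + N 1 1 * q)) = π g * π (w p q) * (π g)⁻¹) → !![a g, b g; c g, d g] = N := by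
    intro g N h
    have h1 := inj' _ _ _ _ ((act g 1 0).trans (h 1 0).symm)
    have h2 := inj' _ _ _ _ ((act g 0 1).trans (h 0 1).symm)
    simp only [mul_one, mul_zero, add_zero, zero_add] at h1 h2
    rw [h1.1, h1.2, h2.1, h2.2, ← Matrix.eta_fin_two]
  let M : G →* Matrix (Fin 2) (Fin 2) (ZMod 3) :=
    { toFun := fun g => !![a g, b g; c g, d g]
      map_one' := ext _ _ fun p q => by simp
      map_mul' := fun g h => ext _ _ fun p q => by
        rw [map_mul, mul_inv_rev, mul_assoc (π g), mul_assoc (π g), ← mul_assoc _ (π h)⁻¹,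
          ← mul_assoc (π g), ← act, ← act]
        simp only [Matrix.mul_fin_two, Matrix.of_apply, Matrix.cons_val', Matrix.cons_val_zero,
          Matrix.cons_val_one, Matrix.cons_val_fin_one]
        congr 3 <;> ring }
  have hM : ∀ g, M g = !![a g, b g; c g, d g] := fun _ => rfl
  have ker : ∀ g, g ∈ cen A E ↔ M g = 1 := fun g => by
    rw [mem_cen]
    refine ⟨fun h => ext _ _ fun p q => ?_, fun h e he => ?_⟩
    · have : π (g * w p q * g⁻¹ * (w p q : G)⁻¹) = 1 :=
        (QuotientGroup.eq_one_iff _).2 (h _ (w p q).2)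
      rw [map_mul, map_inv, mul_inv_eq_one] at this
      simpa using this.symm
    · obtain ⟨p, q, h1⟩ := sur ⟨e, he⟩
      have h2 : π (w p q) = π e := (eq _ _).1 h1
      have h3 := act g p q
      rw [show a g = 1 from congrFun (congrFun h 0) 0, show b g = 0 from congrFun (congrFun h 0) 1,
        show c g = 0 from congrFun (congrFun h 1) 0, show d g = 1 from congrFun (congrFun h 1) 1]
        at h3
      rw [← QuotientGroup.eq_one_iff]
      change π _ = 1
      simp only [one_mul, zero_mul, add_zero, zero_add, h2] at h3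
      simp [← h3]
  have det : ∀ g, a g * d g - b g * c g = 1 := fun g => by
    have := K _ _ _ _ _ _ (hac g) (hbd g) 1 (by
      rw [zpow_one, ← mul_inv_cancel_right z g, ← cz z (hc x hx y hy), hz, hB, hB]
      simp only [MulAut.conjNormal_apply]
      group)
    simpa using this
  have four : ∀ g, g ^ 4 ∈ cen A E ↔ a g + d g = 0 ∨ b g = 0 ∧ c g = 0 := fun g => by
    rw [ker, map_pow, hM, (sl_four _ _ _ _ (det g)).1]
  let T : Subgroup G :=
    { carrier := {g | g ^ 4 ∈ cen A E}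
      one_mem' := by simp
      inv_mem' := fun {g} hg => by simpa using hg
      mul_mem' := fun {g h} hg hh => by
        have e := M.map_mul g h
        rw [hM, hM, hM, Matrix.mul_fin_two] at e
        refine (four _).2 ?_
        rw [show a (g * h) = _ from congrFun (congrFun e 0) 0,
          show b (g * h) = _ from congrFun (congrFun e 0) 1,
          show c (g * h) = _ from congrFun (congrFun e 1) 0,
          show d (g * h) = _ from congrFun (congrFun e 1) 1]
        exact sl_mul _ _ _ _ (det g) ((four g).1 hg) _ _ _ _ (det h) ((four h).1 hh) }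
  have nT : T.Normal := ⟨fun g hg h => by
    change (h * g * h⁻¹) ^ 4 ∈ cen A E
    rw [conj_pow]
    exact (inferInstance : (cen A E).Normal).conj_mem _ hg h⟩
  have h1 : T ≤ rel (piN {2}) (rel (piN {2}ᶜ) (cen A E)) :=
    (le_rel nT fun g hg => ⟨2 * 2, mul_mem two_mem_piN two_mem_piN, hg⟩).trans
      (rel_mono _ (self_le_rel _ _))
  refine top_unique (le_rel inferInstance fun g _ =>
    ⟨3, prime_mem_piN (by norm_num) (by simp), h1 ?_⟩)
  change (g ^ 3) ^ 4 ∈ cen A E
  rw [ker, map_pow, map_pow, hM, (sl_four _ _ _ _ (det g)).2]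

end Pool.Agent.Work.MP_d3ab46_al
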