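import Pool.Agent.Work.MP_36bee3_al.Fischer
import Mathlib
import Pool.Agent.Work.MP_d3ab46_al.Defs

-- merged part: Pool.Agent.Work.MP_d3ab46_al.Bridge
section
-- merged part: Pool.Agent.Work.MP_d3ab46_al.Length
section
/-!
The upper `π`-series above a normal subgroup and the predicate that bounds the `π`-length.
-/

namespace Pool.Agent.Work.MP_d3ab46_al

open Subgroup Pool.Agent.Work.MP_36bee3_al

/-- The positive integers all of whose prime divisors lie in `π`. -/
def piN (π : Set ℕ) : Submonoid ℕ where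
  carrier := {n | n ≠ 0 ∧ ∀ t : ℕ, t.Prime → t ∣ n → t ∈ π}
  mul_mem' := by
    rintro a b ⟨ha, ha'⟩ ⟨hb, hb'⟩
    exact ⟨mul_ne_zero ha hb, fun t ht h => (ht.dvd_mul.mp h).elim (ha' t ht) (hb' t ht)⟩
  one_mem' := ⟨one_ne_zero, fun t ht h => absurd (Nat.dvd_one.mp h) ht.ne_one⟩

lemma mem_piN {π : Set ℕ} {n : ℕ} :
    n ∈ piN π ↔ n ≠ 0 ∧ ∀ t : ℕ, t.Prime → t ∣ n → t ∈ π := Iff.rfl

lemma prime_mem_piN {π : Set ℕ} {r : ℕ} (hr : r.Prime) (h : r ∈ π) : r ∈ piN π :=
  ⟨hr.ne_zero, fun t ht h' => by rwa [(Nat.prime_dvd_prime_iff_eq ht hr).mp h']⟩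

lemma powers_le_piN {π : Set ℕ} {r : ℕ} (hr : r.Prime) (h : r ∈ π) :
    Submonoid.powers r ≤ piN π := Submonoid.powers_le.mpr (prime_mem_piN hr h)

lemma piN_of_dvd {π : Set ℕ} {a b : ℕ} (h : a ∣ b) (hb : b ∈ piN π) : a ∈ piN π :=
  ⟨ne_zero_of_dvd_ne_zero hb.1 h, fun t ht h' => hb.2 t ht (h'.trans h)⟩

lemma coprime_of_piN {π : Set ℕ} {a b : ℕ} (ha : a ∈ piN π) (hb : b ∈ piN πᶜ) :
    a.Coprime b :=
  Nat.Coprime.symm <| (Nat.coprime_of_dvd fun t ht h1 h2 => hb.2 t ht h1 (ha.2 t ht h2))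

lemma exists_mul_piN (π : Set ℕ) : ∀ n : ℕ, n ≠ 0 → ∃ a ∈ piN π, ∃ b ∈ piN πᶜ, n = a * b := by
  intro n
  induction n using induction_on_primes with
  | zero => intro h; exact absurd rfl h
  | one => intro _; exact ⟨1, one_mem _, 1, one_mem _, rfl⟩
  | prime_mul p a hp ih =>
    intro h
    obtain ⟨x, hx, y, hy, rfl⟩ := ih (right_ne_zero_of_mul h)
    by_cases hπ : p ∈ π
    · exact ⟨p * x, mul_mem (prime_mem_piN hp hπ) hx, y, hy, by ring⟩
    · exact ⟨x, hx, p * y, mul_mem (prime_mem_piN hp hπ) hy, by ring⟩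

variable {G : Type*} [Group G] {H : Type*} [Group H]

lemma card_mem_piN {π : Set ℕ} [Finite G] (h : ∀ g : G, ∃ m ∈ piN π, g ^ m = 1) :
    Nat.card G ∈ piN π := by
  refine ⟨Nat.card_pos.ne', fun t ht hd => ?_⟩
  have : Fact t.Prime := ⟨ht⟩
  obtain ⟨g, hg⟩ := exists_prime_orderOf_dvd_card' t hd
  obtain ⟨m, hm, h1⟩ := h g
  exact hm.2 t ht (hg ▸ orderOf_dvd_of_pow_eq_one h1)

lemma exists_pow_piN (π : Set ℕ) [Finite G] (g : G) :
    ∃ a ∈ piN π, ∃ b ∈ piN πᶜ, (g ^ a) ^ b = 1 := by
  obtain ⟨a, ha, b, hb, h⟩ := exists_mul_piN π (orderOf g) (orderOf_pos g).ne'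
  exact ⟨a, ha, b, hb, by rw [← pow_mul, ← h, pow_orderOf_eq_one]⟩

lemma rel_mono (S : Submonoid ℕ) {D D' : Subgroup G} (h : D ≤ D') : rel S D ≤ rel S D' :=
  sSup_le_sSup fun _ hE => ⟨hE.1, fun e he => by
    obtain ⟨n, hn, h'⟩ := hE.2 e he
    exact ⟨n, hn, h h'⟩⟩

lemma rel_mono_left {S S' : Submonoid ℕ} (h : S ≤ S') (D : Subgroup G) : rel S D ≤ rel S' D :=
  sSup_le_sSup fun _ hE => ⟨hE.1, hE.2.mono h⟩

lemma rel_idem (S : Submonoid ℕ) (D : Subgroup G) [D.Normal] : rel S (rel S D) = rel S D :=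
  le_antisymm (rel_le_rel (pw_rel S D)) (self_le_rel _ _)

lemma comap_rel_le (S : Submonoid ℕ) (f : H →* G) (D : Subgroup G) [D.Normal] :
    (rel S D).comap f ≤ rel S (D.comap f) :=
  le_rel inferInstance fun e he => by
    obtain ⟨n, hn, h1⟩ := pw_rel S D _ he
    exact ⟨n, hn, by rwa [mem_comap, map_pow]⟩

lemma map_rel_le (S : Submonoid ℕ) (f : G →* H) (hf : Function.Surjective f) (D : Subgroup G)
    [D.Normal] : (rel S D).map f ≤ rel S (D.map f) :=
  le_rel ((rel_normal S D).map f hf) (by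
    rintro _ ⟨e, he, rfl⟩
    obtain ⟨n, hn, h1⟩ := pw_rel S D _ he
    exact ⟨n, hn, _, h1, map_pow f e n⟩)

lemma iInf_rel_le [Finite G] (S : Submonoid ℕ) {ι : Sort*} (D : ι → Subgroup G)
    (hD : ∀ i, (D i).Normal) : ⨅ i, rel S (D i) ≤ rel S (⨅ i, D i) := by
  classical
  refine le_rel (normal_iInf_normal fun i => rel_normal S (D i)) fun e he => ?_
  have h1 : ∀ X : Subgroup G, ∃ n ∈ S, X ∈ Set.range D → e ^ n ∈ X := by
    intro X
    by_cases hX : X ∈ Set.range D
    · obtain ⟨i, rfl⟩ := hX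
      obtain ⟨n, hn, h2⟩ := pw_rel S (D i) e (mem_iInf.mp he i)
      exact ⟨n, hn, fun _ => h2⟩
    · exact ⟨1, one_mem _, fun h => absurd h hX⟩
  choose n hn hn' using h1
  have := Fintype.ofFinite (Subgroup G)
  refine ⟨∏ X, n X, S.prod_mem fun X _ => hn X, mem_iInf.mpr fun i => ?_⟩
  obtain ⟨k, hk⟩ := Finset.dvd_prod_of_mem n (Finset.mem_univ (D i))
  rw [hk, pow_mul]
  exact pow_mem (hn' _ ⟨i, rfl⟩) k

/-- The upper `π`-series above `D`. -/
def U (π : Set ℕ) : ℕ → Subgroup G → Subgroup G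
  | 0, D => rel (piN πᶜ) D
  | n + 1, D => rel (piN πᶜ) (rel (piN π) (U π n D))

/-- The `π`-length of `G / D` is at most `n`. -/
def L (π : Set ℕ) (D : Subgroup G) (n : ℕ) : Prop := U π n D = ⊤

variable {π : Set ℕ}

instance U_normal (n : ℕ) (D : Subgroup G) [D.Normal] : (U π n D).Normal := by
  induction n with
  | zero => exact rel_normal _ _
  | succ n ih => exact rel_normal _ _

lemma U_mono (n : ℕ) {D D' : Subgroup G} (h : D ≤ D') : U π n D ≤ U π n D' := by
  induction n with
  | zero => exact rel_mono _ h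
  | succ n ih => exact rel_mono _ (rel_mono _ ih)

lemma U_le_succ (n : ℕ) (D : Subgroup G) [D.Normal] : U π n D ≤ U π (n + 1) D :=
  (self_le_rel _ _).trans (self_le_rel _ _)

lemma U_mono_left {m n : ℕ} (h : m ≤ n) (D : Subgroup G) [D.Normal] : U π m D ≤ U π n D := by
  induction h with
  | refl => exact le_rfl
  | step _ ih => exact ih.trans (U_le_succ _ _)

lemma rel_U (n : ℕ) (D : Subgroup G) [D.Normal] : rel (piN πᶜ) (U π n D) = U π n D := by
  cases n with
  | zero => exact rel_idem _ _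
  | succ n => exact rel_idem _ _

lemma U_add (a b : ℕ) (D : Subgroup G) [D.Normal] : U π b (U π a D) = U π (a + b) D := by
  induction b with
  | zero => exact rel_U a D
  | succ b ih => rw [← add_assoc, U, ih, U]

lemma U_rel (n : ℕ) (D : Subgroup G) [D.Normal] : U π n (rel (piN πᶜ) D) = U π n D := by
  have := U_add (π := π) 0 n D
  rwa [zero_add] at this

lemma U_succ' (n : ℕ) (D : Subgroup G) [D.Normal] :
    U π (n + 1) D = U π n (rel (piN π) (rel (piN πᶜ) D)) := by
  rw [add_comm, ← U_add, ← U_rel n (rel (piN π) (rel (piN πᶜ) D))]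
  rfl

lemma comap_U_le (n : ℕ) (f : H →* G) (D : Subgroup G) [D.Normal] :
    (U π n D).comap f ≤ U π n (D.comap f) := by
  induction n with
  | zero => exact comap_rel_le _ f D
  | succ n ih =>
    exact (comap_rel_le _ f _).trans (rel_mono _ ((comap_rel_le _ f _).trans (rel_mono _ ih)))

lemma map_U_le (n : ℕ) (f : G →* H) (hf : Function.Surjective f) (D : Subgroup G) [D.Normal] :
    (U π n D).map f ≤ U π n (D.map f) := by
  induction n with
  | zero => exact map_rel_le _ f hf D
  | succ n ih =>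
    exact (map_rel_le _ f hf _).trans
      (rel_mono _ ((map_rel_le _ f hf _).trans (rel_mono _ ih)))

lemma U_comap (n : ℕ) (f : H →* G) (hf : Function.Injective f) (hn : f.range.Normal)
    (D : Subgroup G) [D.Normal] : U π n (D.comap f) = (U π n D).comap f := by
  induction n with
  | zero => exact rel_comap _ f hf hn D
  | succ n ih => rw [U, ih, rel_comap _ f hf hn, rel_comap _ f hf hn, U]

lemma iInf_U_le [Finite G] (n : ℕ) {ι : Sort*} (D : ι → Subgroup G) (hD : ∀ i, (D i).Normal) :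
    ⨅ i, U π n (D i) ≤ U π n (⨅ i, D i) := by
  induction n with
  | zero => exact iInf_rel_le _ D hD
  | succ n ih =>
    exact (iInf_rel_le _ _ fun i => rel_normal _ _).trans
      (rel_mono _ ((iInf_rel_le _ _ fun i => U_normal n (D i)).trans (rel_mono _ ih)))

lemma L.mono {D D' : Subgroup G} {n : ℕ} (h : L π D n) (hD : D ≤ D') : L π D' n :=
  eq_top_iff.mpr (h.ge.trans (U_mono n hD))

lemma L.mono_left {D : Subgroup G} [D.Normal] {m n : ℕ} (h : L π D m) (hmn : m ≤ n) :
    L π D n := eq_top_iff.mpr (h.ge.trans (U_mono_left hmn D))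

lemma L.comap {D : Subgroup G} [D.Normal] {n : ℕ} (h : L π D n) (f : H →* G) :
    L π (D.comap f) n := by
  refine eq_top_iff.mpr (le_trans ?_ (comap_U_le n f D))
  rw [h, comap_top]

lemma L.map {D : Subgroup G} [D.Normal] {n : ℕ} (h : L π D n) (f : G →* H)
    (hf : Function.Surjective f) : L π (D.map f) n := by
  refine eq_top_iff.mpr (le_trans ?_ (map_U_le n f hf D))
  rw [h, map_top_of_surjective f hf]

lemma L.iInf [Finite G] {ι : Sort*} {D : ι → Subgroup G} (hD : ∀ i, (D i).Normal) {n : ℕ}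
    (h : ∀ i, L π (D i) n) : L π (⨅ i, D i) n :=
  eq_top_iff.mpr (le_trans (le_iInf fun i => (h i).ge) (iInf_U_le n D hD))

lemma L.inf [Finite G] {D₁ D₂ : Subgroup G} [h₁ : D₁.Normal] [h₂ : D₂.Normal] {n : ℕ}
    (l₁ : L π D₁ n) (l₂ : L π D₂ n) : L π (D₁ ⊓ D₂) n := by
  have := L.iInf (π := π) (D := fun b : Bool => if b then D₁ else D₂) (n := n)
    (fun b => by cases b <;> simpa) (fun b => by cases b <;> simpa)
  refine this.mono ?_
  exact le_inf (iInf_le_of_le true (by simp)) (iInf_le_of_le false (by simp))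

lemma L.add {D K : Subgroup G} [D.Normal] [hK : K.Normal] {a b : ℕ}
    (h₁ : L π (D.subgroupOf K) a) (h₂ : L π K b) : L π D (a + b) := by
  have h3 : K ≤ U π a D := by
    intro x hx
    have h4 := U_comap (π := π) a K.subtype (subtype_injective _) (by rwa [range_subtype]) D
    have h5 : (⟨x, hx⟩ : K) ∈ U π a (D.comap K.subtype) := by
      have h6 : U π a (D.comap K.subtype) = ⊤ := h₁
      rw [h6]
      trivial
    rw [h4] at h5
    exact h5
  have := h₂.mono h3
  rwa [L, U_add] at this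

lemma L.of_rel' {D : Subgroup G} [D.Normal] {n : ℕ} (h : L π (rel (piN πᶜ) D) n) : L π D n := by
  rwa [L, U_rel] at h

lemma L.of_rel_rel {D : Subgroup G} [D.Normal] {n : ℕ}
    (h : L π (rel (piN π) (rel (piN πᶜ) D)) n) : L π D (n + 1) := by
  rwa [L, U_succ']

lemma L.rel_rel {D : Subgroup G} [D.Normal] {n : ℕ} (h : L π D (n + 1)) :
    L π (rel (piN π) (rel (piN πᶜ) D)) n := by
  rwa [L, U_succ'] at h

lemma L.of_rel {D : Subgroup G} [D.Normal] {n : ℕ} (h : L π (rel (piN π) D) n) :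
    L π D (n + 1) := L.of_rel_rel (h.mono (rel_mono _ (self_le_rel _ _)))

lemma L.top (n : ℕ) : L π (⊤ : Subgroup G) n :=
  L.mono_left (m := 0) (eq_top_iff.mpr (self_le_rel _ _)) (Nat.zero_le n)

/-- Exchanging the roles of `π` and its complement costs at most one. -/
lemma U_le_compl (n : ℕ) (D : Subgroup G) [D.Normal] :
    U π n D ≤ rel (piN πᶜ) (U πᶜ n D) := by
  induction n with
  | zero => exact rel_mono _ (self_le_rel _ _)
  | succ n ih =>
    refine rel_mono _ ?_
    rw [U, compl_compl]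
    exact rel_mono _ ih

lemma L.compl {D : Subgroup G} [D.Normal] {n : ℕ} (h : L π D n) : L πᶜ D (n + 1) :=
  eq_top_iff.mpr (h.ge.trans ((U_le_compl n D).trans (self_le_rel _ _)))

/-- An abelian section splits into its `π`-part and its `π'`-part. -/
lemma le_rel_rel_of_comm [Finite G] {D Z : Subgroup G} [D.Normal] [hZ : Z.Normal]
    (h : ∀ a ∈ Z, ∀ b ∈ Z, a * b * a⁻¹ * b⁻¹ ∈ D) : Z ≤ rel (piN πᶜ) (rel (piN π) D) := by
  let T : Subgroup G :=
    { carrier := {z | z ∈ Z ∧ ∃ m ∈ piN π, z ^ m ∈ D}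
      one_mem' := ⟨one_mem _, 1, one_mem _, by simp⟩
      inv_mem' := by
        rintro z ⟨hz, m, hm, h1⟩
        exact ⟨inv_mem hz, m, hm, by rw [inv_pow]; exact inv_mem h1⟩
      mul_mem' := by
        rintro a b ⟨ha, m, hm, h1⟩ ⟨hb, n, hn, h2⟩
        refine ⟨mul_mem ha hb, m * n, mul_mem hm hn, ?_⟩
        have h3 := h a ha b hb
        rw [← QuotientGroup.eq_one_iff] at h1 h2 h3 ⊢
        simp only [QuotientGroup.mk_pow, QuotientGroup.mk_mul, QuotientGroup.mk_inv] at h1 h2 h3 ⊢
        rw [mul_inv_eq_one, mul_inv_eq_iff_eq_mul] at h3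
        rw [Commute.mul_pow h3, pow_mul, h1, mul_comm m n, pow_mul, h2]
        simp }
  have hT : T.Normal := ⟨by
    rintro z ⟨hz, m, hm, h1⟩ g
    exact ⟨hZ.conj_mem z hz g, m, hm, by
      rw [conj_pow]
      exact Normal.conj_mem inferInstance _ h1 g⟩⟩
  have h1 : T ≤ rel (piN π) D := le_rel hT fun z hz => hz.2
  refine le_rel hZ fun z hz => ?_
  obtain ⟨a, ha, b, hb, h2⟩ := exists_pow_piN πᶜ z
  rw [compl_compl] at hb
  exact ⟨a, ha, h1 ⟨pow_mem hz a, b, hb, by rw [h2]; exact one_mem _⟩⟩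

/-- A `π'`-extension of a central subgroup has a normal Hall `π'`-subgroup. -/
lemma rel_le_of_central [Finite G] {Z : Subgroup G} (hZ : Z ≤ center G) :
    rel (piN πᶜ) Z ≤ rel (piN π) (rel (piN πᶜ) ⊥) := by
  have : Z.Normal := ⟨fun z hz g => by
    rw [(mem_center_iff.mp (hZ hz) g), mul_inv_cancel_right]
    exact hz⟩
  set B := rel (piN πᶜ) Z with hB
  have hidx : (center B).index ∈ piN πᶜ := by
    refine card_mem_piN (G := B ⧸ center B) fun q => ?_
    obtain ⟨b, rfl⟩ := QuotientGroup.mk_surjective q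
    obtain ⟨m, hm, h1⟩ := pw_rel _ Z b.1 b.2
    refine ⟨m, hm, ?_⟩
    rw [← QuotientGroup.mk_pow, QuotientGroup.eq_one_iff, mem_center_iff]
    intro g
    exact Subtype.ext (mem_center_iff.mp (hZ h1) g)
  let T : Subgroup G :=
    { carrier := {z | z ∈ B ∧ ∃ m ∈ piN πᶜ, z ^ m = 1}
      one_mem' := ⟨one_mem _, 1, one_mem _, by simp⟩
      inv_mem' := by
        rintro z ⟨hz, m, hm, h1⟩
        exact ⟨inv_mem hz, m, hm, by rw [inv_pow, h1, inv_one]⟩
      mul_mem' := by
        rintro a b ⟨ha, m, hm, h1⟩ ⟨hb, n, hn, h2⟩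
        refine ⟨mul_mem ha hb, (center B).index * (m * n), mul_mem hidx (mul_mem hm hn), ?_⟩
        let φ := MonoidHom.transferCenterPow B
        have h3 : φ ⟨a, ha⟩ ^ m = 1 := by
          rw [← map_pow, show (⟨a, ha⟩ : B) ^ m = 1 from Subtype.ext h1, map_one]
        have h4 : φ ⟨b, hb⟩ ^ n = 1 := by
          rw [← map_pow, show (⟨b, hb⟩ : B) ^ n = 1 from Subtype.ext h2, map_one]
        have h5 : φ (⟨a, ha⟩ * ⟨b, hb⟩) ^ (m * n) = 1 := by
          have hc : Commute (φ ⟨a, ha⟩) (φ ⟨b, hb⟩) :=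
            Subtype.ext (mem_center_iff.mp (φ ⟨b, hb⟩).2 _)
          rw [map_mul, hc.mul_pow, pow_mul, h3, mul_comm m n, pow_mul, h4]
          simp
        have h6 := congrArg (fun t : center B => ((t : B) : G)) h5
        simp only [φ, SubgroupClass.coe_pow, MonoidHom.transferCenterPow_apply] at h6
        rw [pow_mul]
        exact h6 }
  have hT : T.Normal := ⟨by
    rintro z ⟨hz, m, hm, h1⟩ g
    exact ⟨Normal.conj_mem inferInstance z hz g, m, hm, by rw [conj_pow, h1]; simp⟩⟩
  have h1 : T ≤ rel (piN πᶜ) ⊥ := le_rel hT fun z hz => by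
    obtain ⟨m, hm, h2⟩ := hz.2
    exact ⟨m, hm, mem_bot.mpr h2⟩
  refine le_rel inferInstance fun z hz => ?_
  obtain ⟨a, ha, b, hb, h2⟩ := exists_pow_piN π z
  exact ⟨a, ha, h1 ⟨pow_mem hz a, b, hb, h2⟩⟩

lemma L.of_central [Finite G] {Z : Subgroup G} (hZ : Z ≤ center G) {n : ℕ}
    (h : L π Z (n + 1)) : L π (⊥ : Subgroup G) (n + 1) := by
  have : Z.Normal := ⟨fun z hz g => by
    rw [(mem_center_iff.mp (hZ hz) g), mul_inv_cancel_right]
    exact hz⟩
  refine L.of_rel_rel (h.rel_rel.mono ?_)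
  exact (rel_mono _ (rel_le_of_central hZ)).trans (rel_idem _ _).le

end Pool.Agent.Work.MP_d3ab46_al
end

-- merged part: Pool.Agent.Work.MP_d3ab46_al.Reduce
section
/-!
The `p`-length of a finite `p`-solvable group is attained on a solvable subgroup.
-/

namespace Pool.Agent.Work.MP_d3ab46_al

open Subgroup Pool.Agent.Work.MP_36bee3_al

section General

variable {G : Type*} [Group G] {Q : Type*} [Group Q] {π : Set ℕ}

lemma U_eq_self {D : Subgroup G} [D.Normal] (h₁ : rel (piN π) D ≤ D) (h₂ : rel (piN πᶜ) D ≤ D)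
    (n : ℕ) : U π n D ≤ D := by
  induction n with
  | zero => exact h₂
  | succ n ih => exact (rel_mono _ ((rel_mono _ ih).trans h₁)).trans h₂

lemma comap_bot_of_injective (f : Q →* G) (hf : Function.Injective f) :
    (⊥ : Subgroup G).comap f = ⊥ := by
  rw [MonoidHom.comap_bot, MonoidHom.ker_eq_bot_iff]
  exact hf

/-- The centraliser lemma of Hall and Higman. -/
lemma centralizer_le_rel [Finite G] {n : ℕ} (hn : L π (⊥ : Subgroup G) n)
    (h : rel (piN πᶜ) (⊥ : Subgroup G) = ⊥) :
    centralizer (rel (piN π) (⊥ : Subgroup G) : Set G) ≤ rel (piN π) ⊥ := by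
  set P := rel (piN π) (⊥ : Subgroup G) with hP
  set C := centralizer (P : Set G) with hC
  have hCn : C.subtype.range.Normal := by
    rw [range_subtype]
    infer_instance
  have hb := comap_bot_of_injective C.subtype (subtype_injective _)
  have h1 : rel (piN π) (⊥ : Subgroup C) = P.subgroupOf C := by
    rw [← hb, rel_comap _ _ (subtype_injective _) hCn]
    rfl
  have h2 : rel (piN πᶜ) (⊥ : Subgroup C) = ⊥ := by
    rw [← hb, rel_comap _ _ (subtype_injective _) hCn, h]
  have h3 : P.subgroupOf C ≤ center C := fun z hz => mem_center_iff.mpr fun g =>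
    Subtype.ext (mem_centralizer_iff.mp g.2 z hz).symm
  have h4 := rel_le_of_central (π := π) h3
  rw [h2, h1] at h4
  have h5 : rel (piN π) (P.subgroupOf C) ≤ P.subgroupOf C := by
    rw [← h1, rel_idem]
  have h6 : L π (P.subgroupOf C) n := (hn.comap C.subtype).mono (by rw [hb]; exact bot_le)
  have h7 := U_eq_self h5 h4 n
  rw [h6] at h7
  intro x hx
  exact h7 (mem_top (⟨x, hx⟩ : C))

lemma isSolvable_comap (q : G →* Q) [Group.IsSolvable q.ker] (H : Subgroup Q)
    [Group.IsSolvable H] : Group.IsSolvable (H.comap q) := by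
  refine Group.isSolvable_of_ker_le_range (inclusion (ker_le_comap q H)) (q.subgroupComap H) ?_
  intro x hx
  exact ⟨⟨x, congrArg Subtype.val hx⟩, rfl⟩

/-- A solvable subgroup of the image lifts to a solvable subgroup. -/
lemma exists_solvable_lift [Finite G] (q : G →* Q) (hq : Function.Surjective q) (H' : Subgroup Q)
    [Group.IsSolvable H'] : ∃ H : Subgroup G, Group.IsSolvable H ∧ H.map q = H' := by
  obtain ⟨H, hH, hmin⟩ := (wellFounded_lt (α := Subgroup G)).has_min {H | H.map q = H'}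
    ⟨H'.comap q, map_comap_eq_self_of_surjective hq H'⟩
  refine ⟨H, ?_, hH⟩
  have h1 : q.ker.subgroupOf H ≤ frattini H := by
    refine le_iInf₂ fun M hM => ?_
    by_contra hc
    have h2 : M ⊔ q.ker.subgroupOf H = ⊤ :=
      hM.2 _ (left_lt_sup.mpr hc)
    have h3 : (M.map H.subtype).map q = H' := by
      rw [← hH]
      refine le_antisymm (map_mono (map_subtype_le _)) ?_
      rintro _ ⟨x, hx, rfl⟩
      have h4 : (⟨x, hx⟩ : H) ∈ ((M ⊔ q.ker.subgroupOf H : Subgroup H) : Set H) := by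
        rw [h2]
        trivial
      rw [mul_normal] at h4
      obtain ⟨a, ha, b, hb, hab⟩ := h4
      refine ⟨a, ⟨a, ha, rfl⟩, ?_⟩
      have h5 : q b = 1 := hb
      have h6 : x = a * b := congrArg Subtype.val hab.symm
      rw [h6, map_mul, h5, mul_one]
    refine hmin _ h3 (lt_of_le_of_ne (map_subtype_le _) fun h4 => hM.1 ?_)
    rw [eq_top_iff]
    intro x _
    have h5 : (x : G) ∈ M.map H.subtype := h4.symm ▸ x.2
    obtain ⟨y, hy, h6⟩ := h5
    rwa [← Subtype.ext h6]
  have := frattini_nilpotent (G := H)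
  have hH' : H.map q = H' := hH
  let g : H →* H' := (q.comp H.subtype).codRestrict H' fun x => hH' ▸ ⟨x, x.2, rfl⟩
  refine Group.isSolvable_of_ker_le_range (frattini H).subtype g fun x hx => ?_
  rw [range_subtype]
  exact h1 (congrArg Subtype.val hx)

lemma rel_bot_quotient (S : Submonoid ℕ) (D : Subgroup G) [D.Normal] (h : rel S D ≤ D) :
    rel S (⊥ : Subgroup (G ⧸ D)) = ⊥ := by
  rw [eq_bot_iff]
  intro x hx
  obtain ⟨x, rfl⟩ := QuotientGroup.mk'_surjective D x
  have h1 := comap_rel_le S (QuotientGroup.mk' D) ⊥ hx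
  rw [MonoidHom.comap_bot, QuotientGroup.ker_mk'] at h1
  exact (QuotientGroup.eq_one_iff x).mpr (h h1)

lemma L.quotient {D : Subgroup G} [D.Normal] {n : ℕ} (h : L π D n) :
    L π (⊥ : Subgroup (G ⧸ D)) n := by
  refine (h.map (QuotientGroup.mk' D) (QuotientGroup.mk'_surjective D)).mono ?_
  rw [map_le_iff_le_comap, MonoidHom.comap_bot, QuotientGroup.ker_mk']

lemma L.of_quotient {D : Subgroup G} [D.Normal] {n : ℕ} (h : L π (⊥ : Subgroup (G ⧸ D)) n) :
    L π D n := by
  have := h.comap (QuotientGroup.mk' D)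
  rwa [MonoidHom.comap_bot, QuotientGroup.ker_mk'] at this

lemma disjoint_of_pw {A B : Subgroup G} (hA : Pw (piN π) ⊥ A) (hB : Pw (piN πᶜ) ⊥ B) :
    Disjoint A B := by
  rw [disjoint_iff, eq_bot_iff]
  intro x hx
  obtain ⟨a, ha, h1⟩ := hA x hx.1
  obtain ⟨b, hb, h2⟩ := hB x hx.2
  exact mem_of_coprime (coprime_of_piN ha hb) h1 h2

lemma exists_pow_of_piN {p n : ℕ} (h : n ∈ piN {p}) : ∃ k, n = p ^ k :=
  ⟨_, Nat.eq_prime_pow_of_unique_prime_dvd h.1 fun ht hd => h.2 _ ht hd⟩

lemma isPGroup_of_pw {p : ℕ} {A : Subgroup G} (hA : Pw (piN {p}) ⊥ A) : IsPGroup p A := by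
  intro x
  obtain ⟨a, ha, h1⟩ := hA x x.2
  obtain ⟨k, rfl⟩ := exists_pow_of_piN ha
  exact ⟨k, Subtype.ext h1⟩

end General

/-- Every solvable group that embeds in `G` has `π`-length at most `l`. -/
def SolvLe (π : Set ℕ) (G : Type) [Group G] (l : ℕ) : Prop :=
  ∀ (H : Type) [Group H] [Finite H] [Group.IsSolvable H] (f : H →* G),
    Function.Injective f → L π (⊥ : Subgroup H) l

/-- The `π`-length of `G` is attained on solvable subgroups. -/
def SH (π : Set ℕ) (G : Type) [Group G] : Prop :=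
  ∀ n l, L π (⊥ : Subgroup G) n → SolvLe π G l → L π (⊥ : Subgroup G) l

variable {G : Type} [Group G] [Finite G]

lemma SH.quot {π : Set ℕ} {D : Subgroup G} [D.Normal] (h : SH π (G ⧸ D)) {n l : ℕ}
    (hn : L π D n)
    (hl : ∀ H : Subgroup G, Group.IsSolvable H → L π (D.subgroupOf H) l) : L π D l := by
  refine L.of_quotient (h n l hn.quotient fun H' _ _ _ f hf => ?_)
  have : Group.IsSolvable f.range := Group.isSolvable_of_surjective f.rangeRestrict_surjective
  obtain ⟨H, hH, h1⟩ := exists_solvable_lift (QuotientGroup.mk' D)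
    (QuotientGroup.mk'_surjective D) f.range
  let g : H →* f.range :=
    ((QuotientGroup.mk' D).comp H.subtype).codRestrict f.range fun x => h1 ▸ ⟨x, x.2, rfl⟩
  have hg : Function.Surjective g := by
    rintro ⟨y, hy⟩
    rw [← h1] at hy
    obtain ⟨x, hx, rfl⟩ := hy
    exact ⟨⟨x, hx⟩, rfl⟩
  have h2 : L π (⊥ : Subgroup f.range) l := by
    refine ((hl H hH).map g hg).mono ?_
    rintro _ ⟨x, hx, rfl⟩
    exact Subtype.ext ((QuotientGroup.eq_one_iff (x : G)).mpr hx)
  have h3 := h2.comap f.rangeRestrict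
  rwa [comap_bot_of_injective _ (MonoidHom.rangeRestrict_injective_iff.mpr hf)] at h3

/-- A `p`-element normalises a Sylow `r`-subgroup of a normal `p'`-subgroup. -/
lemma exists_sylow_normalizer {p r : ℕ} [Fact p.Prime] [Fact r.Prime] (N : Subgroup G) [N.Normal]
    (hN : ¬ p ∣ Nat.card N) (x : G) (k : ℕ) (hx : x ^ p ^ k = 1) :
    ∃ R : Sylow r N, x ∈ normalizer ((R : Subgroup N).map N.subtype : Set G) := by
  have hX : IsPGroup p (zpowers x) := by
    rintro ⟨_, ⟨j, rfl⟩⟩
    refine ⟨k, Subtype.ext ?_⟩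
    change (x ^ j) ^ p ^ k = 1
    rw [← zpow_natCast, ← zpow_mul, mul_comm, zpow_mul, zpow_natCast, hx, one_zpow]
  let φ : zpowers x →* MulAut N := MulAut.conjNormal.comp (zpowers x).subtype
  let : MulAction (zpowers x) (Sylow r N) := MulAction.compHom _ φ
  obtain ⟨R₀⟩ : Nonempty (Sylow r N) := inferInstance
  obtain ⟨R, hR⟩ := hX.nonempty_fixed_point_of_prime_not_dvd_card (Sylow r N) fun h =>
    hN (h.trans (R₀.card_dvd_index.trans (index_dvd_card _)))
  refine ⟨R, ?_⟩
  have hn : (MulAut.conjNormal x : MulAut N) • R = R := hR ⟨x, mem_zpowers x⟩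
  rw [Sylow.ext_iff, Sylow.pointwise_smul_def, Subgroup.pointwise_smul_def] at hn
  have : Function.Injective (MulAut.conj x).toMonoidHom := (MulAut.conj x).injective
  refine fun y => (mem_map_iff_mem this).symm.trans ?_
  rw [map_map, ← congr_arg (map N.subtype) hn, map_map]
  rfl

lemma step_two {p : ℕ} [hp : Fact p.Prime]
    (ih : ∀ (K : Type) [Group K] [Finite K], Nat.card K ≤ Nat.card G → SH {p} K) {n l : ℕ}
    (hn : L {p} (⊥ : Subgroup G) n) (hP : rel (piN {p}) (⊥ : Subgroup G) = ⊥)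
    (hl : ∀ (H : Type) [Group H] [Finite H] [Group.IsSolvable H] (f : H →* G),
      Function.Injective f → L {p} (rel (piN {p}) (⊥ : Subgroup H)) l) :
    L {p} (⊥ : Subgroup G) l := by
  set N := rel (piN {p}ᶜ) (⊥ : Subgroup G) with hN
  have hNc : centralizer (N : Set G) ≤ N := centralizer_le_rel hn.compl (by rwa [compl_compl])
  have hNp : Pw (piN {p}ᶜ) ⊥ N := pw_rel _ _
  let ι := Σ r : Nat.Primes, Sylow r N
  let R : ι → Subgroup G := fun i => (i.2 : Subgroup N).map N.subtype
  let K : ι → Subgroup G := fun i => normalizer (R i : Set G)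
  let C : ∀ i, Subgroup (K i) := fun i => (centralizer (R i : Set G)).subgroupOf (K i)
  have hCn : ∀ i, (C i).Normal := fun i => normal_subgroupOf_centralizer_normalizer _
  let φ : ∀ i, K i →* G ⧸ N := fun i => (QuotientGroup.mk' N).comp (K i).subtype
  have hφ : ∀ i, Function.Surjective (φ i) := by
    rintro ⟨r, S⟩ q
    have : Fact r.1.Prime := ⟨r.2⟩
    obtain ⟨g, rfl⟩ := QuotientGroup.mk'_surjective N q
    have h1 : g ∈ ((K ⟨r, S⟩ ⊔ N : Subgroup G) : Set G) := by
      rw [S.normalizer_sup_eq_top]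
      trivial
    rw [mul_normal] at h1
    obtain ⟨a, ha, b, hb, rfl⟩ := h1
    refine ⟨⟨a, ha⟩, ?_⟩
    change (a : G ⧸ N) = (a * b : G)
    rw [QuotientGroup.mk_mul, (QuotientGroup.eq_one_iff b).mpr hb, mul_one]
  have hC : ∀ i, L {p} (C i) l := by
    rintro ⟨r, S⟩
    have : Fact r.1.Prime := ⟨r.2⟩
    have := hCn ⟨r, S⟩
    refine SH.quot (ih _ ?_) ((hn.comap (K ⟨r, S⟩).subtype).mono ?_) fun H hH => ?_
    · exact (Nat.card_le_card_of_surjective _ QuotientGroup.mk_surjective).trans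
        (Nat.card_le_card_of_injective _ (subtype_injective _))
    · rw [comap_bot_of_injective _ (subtype_injective _)]
      exact bot_le
    · set R' := (R ⟨r, S⟩).subgroupOf (K ⟨r, S⟩) with hR'
      have hR'n : R'.Normal := normal_in_normalizer
      let q := QuotientGroup.mk' R'
      have hR'p : IsPGroup r R' := (S.2.map N.subtype).comap_subtype
      have : Group.IsSolvable q.ker := by
        rw [QuotientGroup.ker_mk']
        have := hR'p.isNilpotent
        infer_instance
      have : Group.IsSolvable (H.map q) :=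
        Group.isSolvable_of_surjective (q.subgroupMap_surjective H)
      have := isSolvable_comap q (H.map q)
      set H₁ := (H.map q).comap q with hH₁
      have h1 := (hl H₁ ((K ⟨r, S⟩).subtype.comp H₁.subtype)
        ((subtype_injective _).comp (subtype_injective _))).comap (inclusion (le_comap_map q H))
      refine h1.mono fun x hx => ?_
      have h2 : Pw (piN {p}ᶜ) ⊥ (R'.subgroupOf H₁) := by
        intro y hy
        obtain ⟨z, -, hz⟩ := hy
        obtain ⟨m, hm, h3⟩ := hNp z z.2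
        refine ⟨m, hm, Subtype.ext (Subtype.ext ?_)⟩
        have hz' : (z : G) = ((y : K ⟨r, S⟩) : G) := hz
        rw [hz'] at h3
        exact h3
      refine mem_centralizer_iff.mpr fun y hy => ?_
      have hyK : y ∈ K ⟨r, S⟩ := le_normalizer hy
      have hyH : (⟨y, hyK⟩ : K ⟨r, S⟩) ∈ H₁ :=
        ker_le_comap q _ ((QuotientGroup.eq_one_iff _).mpr hy)
      have h3 := commute_of_normal_of_disjoint _ _ inferInstance inferInstance
        (disjoint_of_pw (pw_rel (piN {p}) ⊥) h2) _ ⟨⟨y, hyK⟩, hyH⟩ hx hy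
      exact (congrArg (fun t : H₁ => ((t : K ⟨r, S⟩) : G)) h3.eq).symm
  let D : ι → Subgroup G := fun i => ((C i).map (φ i)).comap (QuotientGroup.mk' N)
  have hDn : ∀ i, (D i).Normal := fun i => ((hCn i).map _ (hφ i)).comap _
  have hD : ∀ i, L {p} (D i) l := fun i => by
    have := hCn i
    have := (hCn i).map _ (hφ i)
    exact ((hC i).map _ (hφ i)).comap _
  refine L.of_rel' ((L.iInf hDn hD).mono ?_)
  rw [← rel_idem]
  refine le_rel (normal_iInf_normal hDn) fun t ht => ?_
  obtain ⟨a, ha, b, hb, h1⟩ := exists_pow_piN {p}ᶜ t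
  rw [compl_compl] at hb
  refine ⟨a, ha, hNc ?_⟩
  have hx : t ^ a ∈ ⨅ i, D i := pow_mem ht a
  generalize t ^ a = x at h1 hx
  obtain ⟨k, rfl⟩ := exists_pow_of_piN hb
  have hcard : Nat.card N ∈ piN {p}ᶜ := card_mem_piN fun g => by
    obtain ⟨m, hm, h2⟩ := hNp g g.2
    exact ⟨m, hm, Subtype.ext h2⟩
  have h2 : ((centralizer {x}).subgroupOf N).index = 1 := by
    by_contra h2
    obtain ⟨r, hr, hd⟩ := Nat.exists_prime_and_dvd h2
    have : Fact r.Prime := ⟨hr⟩
    obtain ⟨S, hS⟩ := exists_sylow_normalizer (p := p) (r := r) N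
      (fun h => hcard.2 p hp.out h rfl) x k h1
    refine S.not_dvd_index (hd.trans (index_dvd_of_le fun y hy => ?_))
    let i : ι := ⟨⟨r, hr⟩, S⟩
    have := hCn i
    obtain ⟨c, hc, h3⟩ := mem_iInf.mp hx i
    have h4 : (c : G)⁻¹ * x ∈ N := QuotientGroup.eq.mp h3
    obtain ⟨m, hm, h5⟩ := hNp _ h4
    have h6 : (⟨x, hS⟩ : K i) ∈ C i := by
      refine mem_of_coprime (coprime_of_piN hb hm) ?_ ?_
      · rw [show (⟨x, hS⟩ : K i) ^ p ^ k = 1 from Subtype.ext h1]
        exact one_mem _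
      · replace hc : c ∈ C i := hc
        rw [← QuotientGroup.eq_one_iff] at hc ⊢
        have h7 : (c⁻¹ * ⟨x, hS⟩ : K i) ^ m = 1 := Subtype.ext h5
        have h8 := congrArg (QuotientGroup.mk (s := C i)) h7
        rwa [QuotientGroup.mk_pow, QuotientGroup.mk_mul, QuotientGroup.mk_inv, hc, inv_one,
          one_mul] at h8
    refine mem_centralizer_iff.mpr fun z hz => ?_
    rw [Set.mem_singleton_iff.mp hz]
    exact (mem_centralizer_iff.mp h6 y ⟨y, hy, rfl⟩).symm
  rw [index_eq_one, subgroupOf_eq_top] at h2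
  exact mem_centralizer_iff.mpr fun y hy => (mem_centralizer_iff.mp (h2 hy) x rfl).symm

theorem SH_all (p : ℕ) [hp : Fact p.Prime] (m : ℕ) :
    ∀ (G : Type) [Group G] [Finite G], Nat.card G = m → SH {p} G := by
  induction m using Nat.strong_induction_on with
  | _ m ih =>
    intro G _ _ hG n l hn hl
    have ih' : ∀ (K : Type) [Group K] [Finite K], Nat.card K < Nat.card G → SH {p} K :=
      fun K _ _ h => ih _ (hG ▸ h) K rfl
    have hq : ∀ (D : Subgroup G) [D.Normal], D ≠ ⊥ → Nat.card (G ⧸ D) < Nat.card G := by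
      intro D _ hD
      rw [card_eq_card_quotient_mul_card_subgroup D]
      exact lt_mul_of_one_lt_right Nat.card_pos (one_lt_card_iff_ne_bot _ |>.mpr hD)
    by_cases h1 : rel (piN {p}ᶜ) (⊥ : Subgroup G) = ⊥
    swap
    · exact L.of_rel' (SH.quot (ih' _ (hq _ h1)) (hn.mono bot_le) fun H _ =>
        (hl H H.subtype (subtype_injective _)).mono bot_le)
    set P := rel (piN {p}) (⊥ : Subgroup G) with hP
    by_cases h2 : P = ⊥
    · exact (L.top l).mono (hn.ge.trans (U_eq_self h2.le h1.le n))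
    have hPp : IsPGroup p P := isPGroup_of_pw (pw_rel _ _)
    have := hPp.isNilpotent
    obtain _ | l := l
    · exfalso
      refine h2 (disjoint_self.mp (disjoint_of_pw (π := {p}) (pw_rel _ _) fun x hx => ?_))
      have h3 : rel (piN {p}ᶜ) (⊥ : Subgroup P) = ⊤ := hl P P.subtype (subtype_injective _)
      obtain ⟨a, ha, h4⟩ := pw_rel (piN {p}ᶜ) (⊥ : Subgroup P) ⟨x, hx⟩ (h3 ▸ mem_top _)
      exact ⟨a, ha, congrArg Subtype.val h4⟩
    refine L.of_rel (L.of_quotient (step_two (fun K _ _ h => ih' K (h.trans_lt (hq _ h2)))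
      (hn.mono bot_le).quotient (rel_bot_quotient _ _ (rel_idem _ _).le) fun H' _ _ _ f hf => ?_))
    let q := QuotientGroup.mk' P
    have : Group.IsSolvable q.ker := by
      rw [QuotientGroup.ker_mk']
      infer_instance
    have : Group.IsSolvable f.range := Group.isSolvable_of_surjective f.rangeRestrict_surjective
    have := isSolvable_comap q f.range
    set H := f.range.comap q with hH
    have h3 : rel (piN {p}ᶜ) (⊥ : Subgroup H) ≤ ⊥ := by
      have h4 : Pw (piN {p}) ⊥ (P.subgroupOf H) := fun y hy => by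
        obtain ⟨a, ha, h5⟩ := pw_rel (piN {p}) ⊥ _ hy
        exact ⟨a, ha, Subtype.ext h5⟩
      have h5 := disjoint_of_pw h4 (pw_rel (piN {p}ᶜ) ⊥)
      intro x hx
      refine h5.le_bot ⟨centralizer_le_rel hn h1 (mem_centralizer_iff.mpr fun y hy => ?_), hx⟩
      have hyH : y ∈ H := ker_le_comap q _ ((QuotientGroup.eq_one_iff _).mpr hy)
      exact congrArg Subtype.val
        (commute_of_normal_of_disjoint _ _ inferInstance inferInstance h5 ⟨y, hyH⟩ x hy hx).eq
    have h4 := (hl H H.subtype (subtype_injective _)).rel_rel.mono (rel_mono _ h3)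
    have hs := q.subgroupComap_surjective_of_surjective f.range (QuotientGroup.mk'_surjective P)
    have h5 := ((h4.map _ hs).mono (map_rel_le _ _ hs ⊥))
    rw [Subgroup.map_bot] at h5
    refine (h5.comap f.rangeRestrict).mono ((comap_rel_le _ _ _).trans (le_of_eq ?_))
    rw [comap_bot_of_injective _ (MonoidHom.rangeRestrict_injective_iff.mpr hf)]

end Pool.Agent.Work.MP_d3ab46_al
end

-- merged part: Pool.Agent.Work.MP_d3ab46_al.Lower
section
/-!
Iterated wreath products of dihedral groups have large `π`-length.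
-/

namespace Pool.Agent.Work.MP_d3ab46_al

open Subgroup Pool.Agent.Work.MP_36bee3_al SemidirectProduct

lemma length_step {π : Set ℕ} {G W : Type*} [Group G] [Group W] (q : G →* W)
    (hq : Function.Surjective q) (A : Subgroup G) [A.Normal] (hA : Pw (piN π) ⊥ A)
    (hB : Pw (piN πᶜ) A q.ker) (hC : centralizer (A : Set G) ≤ A) (hne : ¬ q.ker ≤ A)
    (hY : ∀ g, (∀ b ∈ q.ker, g * b * g⁻¹ * b⁻¹ ∈ A) → g ∈ q.ker) {l : ℕ}
    (h : L π (⊥ : Subgroup G) l) : ∃ l', l = l' + 1 ∧ L π (⊥ : Subgroup W) l' := by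
  have h1 : rel (piN πᶜ) (⊥ : Subgroup G) ≤ A := fun x hx =>
    hC (mem_centralizer_iff.mpr fun y hy => (commute_of_normal_of_disjoint _ _ inferInstance
      inferInstance (disjoint_of_pw hA (pw_rel _ _)) y x hy hx).eq)
  obtain _ | l := l
  · exact absurd (le_top.trans (h.ge.trans h1)) hne
  refine ⟨l, rfl, ?_⟩
  have h2 : rel (piN π) A ≤ q.ker := fun g hg => hY g fun b hb => by
    have h3 : g * b * g⁻¹ * b⁻¹ ∈ rel (piN π) A := by
      rw [show g * b * g⁻¹ * b⁻¹ = g * (b * g⁻¹ * b⁻¹) by group]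
      exact mul_mem hg (Normal.conj_mem inferInstance _ (inv_mem hg) _)
    obtain ⟨m, hm, h4⟩ := pw_rel _ _ _ h3
    obtain ⟨n, hn, h5⟩ := hB (g * b * g⁻¹ * b⁻¹)
      (mul_mem (Normal.conj_mem inferInstance _ hb _) (inv_mem hb))
    exact mem_of_coprime (coprime_of_piN hm hn) h4 h5
  refine ((h.rel_rel.mono ((rel_mono _ h1).trans h2)).map q hq).mono ?_
  rw [map_le_iff_le_comap, MonoidHom.comap_bot]

section Wreath

variable {W Ω : Type} [Group W] (D : Type) [Group D] (φ : W →* Equiv.Perm Ω)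

/-- The permutational wreath product. -/
abbrev Wp : Type := (Ω → D) ⋊[(mulAutArrow : Equiv.Perm Ω →* MulAut (Ω → D)).comp φ] W

variable {D φ}

lemma Wp.mul_left (g h : Wp D φ) (ω : Ω) :
    (g * h).left ω = g.left ω * h.left ((φ g.right)⁻¹ ω) := rfl

lemma Wp.inv_left (g : Wp D φ) (ω : Ω) : (g⁻¹).left ω = (g.left (φ g.right ω))⁻¹ := by
  change (g.left ((φ g.right⁻¹)⁻¹ ω))⁻¹ = _
  rw [map_inv, inv_inv]

instance Wp.finite [Finite W] [Finite Ω] [Finite D] : Finite (Wp D φ) :=
  Finite.of_equiv _ SemidirectProduct.equivProd.symm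

instance pi_solvable [h : Group.IsSolvable D] : Group.IsSolvable (Ω → D) := by
  obtain ⟨n, hn⟩ := h
  refine ⟨⟨n, eq_bot_iff.mpr fun f hf => mem_bot.mpr (funext fun ω => ?_)⟩⟩
  have := map_derivedSeries_le_derivedSeries (Pi.evalMonoidHom (fun _ : Ω => D) ω) n ⟨f, hf, rfl⟩
  rwa [hn] at this

instance Wp.solvable [Group.IsSolvable W] [Group.IsSolvable D] : Group.IsSolvable (Wp D φ) :=
  Group.isSolvable_of_ker_le_range inl rightHom range_inl_eq_ker_rightHom.ge

/-- The imprimitive action. -/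
def Wp.act {Δ : Type} (ψ : D →* Equiv.Perm Δ) : Wp D φ →* Equiv.Perm (Ω × Δ) :=
  MonoidHom.toHomPerm
    { toFun := fun g x => (φ g.right x.1, ψ (g.left (φ g.right x.1)) x.2)
      map_one' := funext fun x => by simp [Function.End.one_def]
      map_mul' := fun g h => funext fun x => by
        change _ = (φ g.right (φ h.right x.1),
          ψ (g.left (φ g.right (φ h.right x.1))) (ψ (h.left (φ h.right x.1)) x.2))
        simp [Wp.mul_left] }

lemma Wp.act_injective {Δ : Type} [Nonempty Δ] (ψ : D →* Equiv.Perm Δ)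
    (hφ : Function.Injective φ) (hψ : Function.Injective ψ) :
    Function.Injective (Wp.act ψ : Wp D φ →* Equiv.Perm (Ω × Δ)) := by
  rw [injective_iff_map_eq_one]
  intro g hg
  have h1 : ∀ x : Ω × Δ, (φ g.right x.1, ψ (g.left (φ g.right x.1)) x.2) = x := fun x =>
    DFunLike.congr_fun hg x
  obtain ⟨δ⟩ := ‹Nonempty Δ›
  have h2 : ∀ ω, φ g.right ω = ω := fun ω => congrArg Prod.fst (h1 (ω, δ))
  refine SemidirectProduct.ext (funext fun ω => hψ ?_) (hφ ?_)
  · ext x
    have h3 := congrArg Prod.snd (h1 (ω, x))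
    simpa [h2] using h3
  · ext ω
    simpa using h2 ω

/-- The part of the base group with all coordinates in `A₀`. -/
def Wp.sub (A₀ : Subgroup D) : Subgroup (Wp D φ) where
  carrier := {g | g.right = 1 ∧ ∀ ω, g.left ω ∈ A₀}
  one_mem' := ⟨rfl, fun _ => one_mem _⟩
  mul_mem' := by
    rintro g h ⟨h1, h2⟩ ⟨h3, h4⟩
    exact ⟨by rw [mul_right, h1, h3, mul_one], fun ω => mul_mem (h2 _) (h4 _)⟩
  inv_mem' := by
    rintro g ⟨h1, h2⟩
    exact ⟨by rw [inv_right, h1, inv_one], fun ω => by rw [Wp.inv_left]; exact inv_mem (h2 _)⟩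

instance Wp.sub_normal (A₀ : Subgroup D) [hA : A₀.Normal] : (Wp.sub A₀ : Subgroup (Wp D φ)).Normal :=
  ⟨by
    rintro a ⟨h1, h2⟩ g
    refine ⟨by simp [h1], fun ω => ?_⟩
    rw [Wp.mul_left, Wp.mul_left, Wp.inv_left, mul_right, h1, mul_one]
    simpa using hA.conj_mem _ (h2 _) _⟩

lemma Wp.pow_left (g : Wp D φ) (h : g.right = 1) (n : ℕ) (ω : Ω) :
    (g ^ n).left ω = g.left ω ^ n := by
  have : g = inl g.left := SemidirectProduct.ext rfl h
  rw [this, ← map_pow]
  rfl

lemma Wp.length {π : Set ℕ} [Nonempty Ω] (hφ : Function.Injective φ) (A₀ : Subgroup D)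
    [A₀.Normal] {a b : ℕ} (ha : a ∈ piN π) (hb : b ∈ piN πᶜ) (h₁ : ∀ x ∈ A₀, x ^ a = 1)
    (h₂ : ∀ x, x ^ b ∈ A₀) (h₃ : centralizer (A₀ : Set D) ≤ A₀) {s : D} (hs : s ∉ A₀) {l : ℕ}
    (h : L π (⊥ : Subgroup (Wp D φ)) l) : ∃ l', l = l' + 1 ∧ L π (⊥ : Subgroup W) l' := by
  classical
  have key : ∀ (g : Wp D φ) (t : D) (T : Subgroup D), t ∉ T →
      (∀ ω ω', (g * inl (Pi.mulSingle ω t) * g⁻¹ * (inl (Pi.mulSingle ω t))⁻¹ : Wp D φ).left ω'
        ∈ T) → g.right = 1 := by
    intro g t T ht hg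
    refine hφ ?_
    rw [map_one, ← inv_eq_one]
    ext ω
    by_contra hc
    have h1 := hg ω ω
    rw [Wp.mul_left, Wp.mul_left, Wp.mul_left, Wp.inv_left, Wp.inv_left] at h1
    simp only [left_inl, right_inl, mul_right, inv_right, mul_one, mul_inv_cancel, map_one,
      inv_one, Equiv.Perm.coe_one, id_eq, Pi.mulSingle_eq_same] at h1
    rw [Pi.mulSingle_eq_of_ne (show (φ g.right)⁻¹ ω ≠ ω from hc)] at h1
    exact ht (by simpa using h1)
  refine length_step rightHom rightHom_surjective (Wp.sub A₀) ?_ ?_ ?_ ?_ ?_ h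
  · rintro g ⟨h1, h2⟩
    refine ⟨a, ha, SemidirectProduct.ext (funext fun ω => ?_) ?_⟩
    · rw [Wp.pow_left g h1]
      exact h₁ _ (h2 _)
    · change rightHom (g ^ a) = 1
      rw [map_pow, show rightHom g = 1 from h1, one_pow]
  · intro g hg
    refine ⟨b, hb, pow_mem hg b, fun ω => ?_⟩
    rw [Wp.pow_left g hg]
    exact h₂ _
  · intro g hg
    have hm : ∀ (ω : Ω) (t : D), t ∈ A₀ → (inl (Pi.mulSingle ω t) : Wp D φ) ∈ Wp.sub A₀ := by
      intro ω t ht
      refine ⟨rfl, fun ω' => ?_⟩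
      by_cases hω : ω' = ω
      · subst hω
        simpa using ht
      · simp [Pi.mulSingle_eq_of_ne hω]
    obtain ⟨t, ht, ht'⟩ : ∃ t ∈ A₀, t ∉ (⊥ : Subgroup D) := by
      by_contra hc
      push Not at hc
      exact hs (h₃ (mem_centralizer_iff.mpr fun y hy => by rw [mem_bot.mp (hc y hy)]; simp))
    have h1 : g.right = 1 := key g t ⊥ ht' fun ω ω' => by
      rw [← mem_centralizer_iff.mp hg _ (hm ω t ht)]
      simp
    refine ⟨h1, fun ω => h₃ (mem_centralizer_iff.mpr fun y hy => ?_)⟩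
    have h2 := congrFun (congrArg SemidirectProduct.left
      (mem_centralizer_iff.mp hg _ (hm ω y hy))) ω
    rw [Wp.mul_left, Wp.mul_left] at h2
    simpa [h1] using h2
  · intro hle
    obtain ⟨ω⟩ := ‹Nonempty Ω›
    exact hs ((hle (show (inl fun _ => s : Wp D φ) ∈ rightHom.ker from rfl)).2 ω)
  · intro g hg
    exact key g s A₀ hs fun ω ω' => (hg _ rfl).2 ω'

end Wreath

section Dihedral

open DihedralGroup

variable (b : ℕ)

/-- The rotations. -/
def rot : Multiplicative (ZMod b) →* DihedralGroup b where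
  toFun i := r i.toAdd
  map_one' := rfl
  map_mul' _ _ := rfl

/-- The action of the dihedral group on the vertices. -/
def dact : DihedralGroup b →* Equiv.Perm (ZMod b) :=
  MonoidHom.toHomPerm
    { toFun := fun g x => match g with
        | r i => x + i
        | sr i => -x - i
      map_one' := funext fun x => add_zero x
      map_mul' := by
        rintro (i | i) (j | j) <;> funext x
        · change x + (i + j) = x + j + i
          ring
        · change -x - (j - i) = -x - j + i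
          ring
        · change -x - (i + j) = -(x + j) - i
          ring
        · change x + (j - i) = -(-x - j) - i
          ring }

variable {b}

lemma two_ne_zero_zmod (hb : 3 ≤ b) : (2 : ZMod b) ≠ 0 := by
  intro h
  have := Nat.le_of_dvd two_pos ((ZMod.natCast_eq_zero_iff 2 b).mp (by exact_mod_cast h))
  omega

lemma dact_injective (hb : 3 ≤ b) : Function.Injective (dact b) := by
  rw [injective_iff_map_eq_one]
  rintro (i | i) h
  · have h1 : (0 : ZMod b) + i = 0 := DFunLike.congr_fun h 0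
    rw [zero_add] at h1
    rw [h1, r_zero]
  · have h1 : -(0 : ZMod b) - i = 0 := DFunLike.congr_fun h 0
    have h2 : -(1 : ZMod b) - i = 1 := DFunLike.congr_fun h 1
    exact absurd (by linear_combination h1 - h2) (two_ne_zero_zmod hb)

instance rot_normal : (rot b).range.Normal :=
  ⟨by
    rintro _ ⟨i, rfl⟩ (j | j)
    · exact ⟨_, rfl⟩
    · exact ⟨_, rfl⟩⟩

instance dihedral_solvable : Group.IsSolvable (DihedralGroup b) := by
  let σ : DihedralGroup b →* ℤˣ :=
    { toFun := fun g => match g with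
        | r _ => 1
        | sr _ => -1
      map_one' := rfl
      map_mul' := by rintro (i | i) (j | j) <;> rfl }
  refine Group.isSolvable_of_ker_le_range (rot b) σ ?_
  rintro (i | i) h
  · exact ⟨Multiplicative.ofAdd i, rfl⟩
  · exact absurd (show (-1 : ℤˣ) = 1 from h) (by decide)

theorem exists_long {π : Set ℕ} (hb : 3 ≤ b) (h₁ : b ∈ piN π) (h₂ : 2 ∈ piN πᶜ) (k : ℕ) :
    ∃ (Ω W : Type) (_ : Group W) (_ : Finite W) (_ : Group.IsSolvable W)
      (φ : W →* Equiv.Perm Ω), Function.Injective φ ∧ Nat.card Ω = b ^ k ∧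
        ∀ l, L π (⊥ : Subgroup W) l → k ≤ l := by
  induction k with
  | zero =>
    exact ⟨Unit, Unit, inferInstance, inferInstance, inferInstance, 1,
      Function.injective_of_subsingleton _, by simp, fun l _ => Nat.zero_le l⟩
  | succ k ih =>
    obtain ⟨Ω, W, _, _, _, φ, hφ, hΩ, hW⟩ := ih
    have : NeZero b := ⟨by omega⟩
    have hpos : Nat.card Ω ≠ 0 := by rw [hΩ]; positivity
    have : Finite Ω := Nat.finite_of_card_ne_zero hpos
    have : Nonempty Ω := (Nat.card_ne_zero.mp hpos).1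
    refine ⟨Ω × ZMod b, Wp (DihedralGroup b) φ, inferInstance, inferInstance, inferInstance,
      Wp.act (dact b), Wp.act_injective _ hφ (dact_injective hb), ?_, fun l hl => ?_⟩
    · rw [Nat.card_prod, hΩ, Nat.card_zmod, pow_succ]
    · suffices h : ∃ l', l = l' + 1 ∧ L π (⊥ : Subgroup W) l' by
        obtain ⟨l', rfl, h⟩ := h
        exact Nat.succ_le_succ (hW l' h)
      refine Wp.length hφ (rot b).range h₁ h₂ (s := sr 0) ?_ ?_ ?_ ?_ hl
      · rintro _ ⟨i, rfl⟩
        change (r i.toAdd : DihedralGroup b) ^ b = 1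
        simp
      · rintro (i | i)
        · exact pow_mem (MonoidHom.mem_range.mpr ⟨Multiplicative.ofAdd i, rfl⟩) 2
        · rw [pow_two, sr_mul_self]
          exact one_mem _
      · rintro (i | i) h
        · exact ⟨Multiplicative.ofAdd i, rfl⟩
        · have h3 : (sr (i - 1) : DihedralGroup b) = sr (i + 1) :=
            mem_centralizer_iff.mp h (r 1) ⟨Multiplicative.ofAdd 1, rfl⟩
          rw [sr.injEq] at h3
          exact absurd (by linear_combination -h3) (two_ne_zero_zmod hb)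
      · rintro ⟨i, h⟩
        cases h

end Dihedral

end Pool.Agent.Work.MP_d3ab46_al
end

-- merged part: Pool.Agent.Work.MP_d3ab46_al.Perm
section
/-!
A solvable permutation group of degree `m` has `π`-length at most `log_b m`, where `b ≥ 3` is a
lower bound for the primes in `π`.
-/

namespace Pool.Agent.Work.MP_d3ab46_al

open Subgroup Pool.Agent.Work.MP_36bee3_al
open scoped Pointwise

section MinOver

variable {G : Type*} [Group G]

/-- `E / D` is a minimal normal subgroup of `G / D`. -/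
def MinOver (D E : Subgroup G) : Prop :=
  E.Normal ∧ D < E ∧ ∀ E' : Subgroup G, E'.Normal → D < E' → E' ≤ E → E' = E

lemma exists_minOver [Finite G] {D C : Subgroup G} (hC : C.Normal) (h : D < C) :
    ∃ E, MinOver D E ∧ E ≤ C := by
  obtain ⟨E, hE, hmin⟩ := exists_minimal_le_of_wellFoundedLT
    (fun E : Subgroup G => E.Normal ∧ D < E) C ⟨hC, h⟩
  exact ⟨E, ⟨hmin.prop.1, hmin.prop.2, fun E' h1 h2 h3 => hmin.eq_of_le ⟨h1, h2⟩ h3⟩, hE⟩

lemma MinOver.comm [Group.IsSolvable G] {D E : Subgroup G} [D.Normal] (h : MinOver D E) :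
    ∀ a ∈ E, ∀ b ∈ E, a * b * a⁻¹ * b⁻¹ ∈ D := by
  have := h.1
  have h1 : ⁅E, E⁆ ⊔ D = D := by
    by_contra hne
    have h2 : ⁅E, E⁆ ⊔ D = E :=
      h.2.2 _ inferInstance (lt_of_le_of_ne le_sup_right (Ne.symm hne))
        (sup_le (commutator_le_left E E) h.2.1.le)
    have h3 : E.map (QuotientGroup.mk' D) ≠ ⊥ := by
      rw [Ne, Subgroup.map_eq_bot_iff, QuotientGroup.ker_mk']
      exact h.2.1.not_ge
    have h4 := Group.IsSolvable.commutator_lt_of_ne_bot h3
    rw [← map_commutator] at h4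
    have h5 : E.map (QuotientGroup.mk' D) = (⁅E, E⁆ : Subgroup G).map (QuotientGroup.mk' D) := by
      conv_lhs => rw [← h2]
      rw [Subgroup.map_sup, (Subgroup.map_eq_bot_iff D).mpr (QuotientGroup.ker_mk' D).ge,
        sup_bot_eq]
    exact h4.ne h5.symm
  intro a ha b hb
  rw [← h1]
  exact mem_sup_left (commutator_mem_commutator ha hb)

lemma MinOver.prime [Finite G] [Group.IsSolvable G] {D E : Subgroup G} [D.Normal]
    (h : MinOver D E) : ∃ r : ℕ, r.Prime ∧ ∀ e ∈ E, e ^ r ∈ D := by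
  obtain ⟨e, he, heD⟩ := SetLike.exists_of_lt h.2.1
  have h1 : orderOf (e : G ⧸ D) ≠ 1 := by
    rwa [Ne, orderOf_eq_one_iff, QuotientGroup.eq_one_iff]
  obtain ⟨r, hr, m, hm⟩ := Nat.exists_prime_and_dvd h1
  refine ⟨r, hr, ?_⟩
  let T : Subgroup G :=
    { carrier := {z | z ∈ E ∧ z ^ r ∈ D}
      one_mem' := ⟨one_mem _, by simp⟩
      inv_mem' := by
        rintro z ⟨hz, h1⟩
        exact ⟨inv_mem hz, by rw [inv_pow]; exact inv_mem h1⟩
      mul_mem' := by
        rintro a b ⟨ha, h1⟩ ⟨hb, h2⟩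
        refine ⟨mul_mem ha hb, ?_⟩
        have h3 := h.comm a ha b hb
        rw [← QuotientGroup.eq_one_iff] at h1 h2 h3 ⊢
        simp only [QuotientGroup.mk_pow, QuotientGroup.mk_mul, QuotientGroup.mk_inv] at h1 h2 h3 ⊢
        rw [mul_inv_eq_one, mul_inv_eq_iff_eq_mul] at h3
        rw [Commute.mul_pow h3, h1, h2, one_mul] }
  have hT : T.Normal := ⟨by
    rintro z ⟨hz, h1⟩ g
    exact ⟨h.1.conj_mem z hz g, by
      rw [conj_pow]
      exact Normal.conj_mem inferInstance _ h1 g⟩⟩
  have hm0 : 0 < orderOf (e : G ⧸ D) := orderOf_pos _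
  have h2 : D < T := by
    refine lt_of_le_of_ne (fun d hd => ⟨h.2.1.le hd, pow_mem hd r⟩) fun hDT => ?_
    have h3 : e ^ m ∈ T := ⟨pow_mem he m, by
      rw [← pow_mul, ← QuotientGroup.eq_one_iff, QuotientGroup.mk_pow, mul_comm, ← hm,
        pow_orderOf_eq_one]⟩
    rw [← hDT, ← QuotientGroup.eq_one_iff, QuotientGroup.mk_pow] at h3
    have h4 := Nat.le_of_dvd (Nat.pos_of_mul_pos_left (hm ▸ hm0)) (orderOf_dvd_of_pow_eq_one h3)
    have h5 : 0 < m := Nat.pos_of_mul_pos_left (hm ▸ hm0)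
    have h6 := hr.two_le
    nlinarith
  have h3 := h.2.2 T hT h2 fun z hz => hz.1
  intro z hz
  rw [← h3] at hz
  exact hz.2

end MinOver

lemma log_add_log_le {b x y : ℕ} (hb : 1 < b) (hx : x ≠ 0) (hy : y ≠ 0) :
    Nat.log b x + Nat.log b y ≤ Nat.log b (x * y) := by
  refine Nat.le_log_of_pow_le hb ?_
  rw [pow_add]
  exact Nat.mul_le_mul (Nat.pow_log_le_self b hx) (Nat.pow_log_le_self b hy)

/-- The bound for all permutation actions of `G`. -/
def PH (π : Set ℕ) (b : ℕ) (G : Type) [Group G] : Prop :=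
  ∀ (Ω : Type) [Finite Ω] [MulAction G Ω],
    L π (MulAction.toPermHom G Ω).ker (Nat.log b (Nat.card Ω))

variable {π : Set ℕ} {b : ℕ}

lemma card_range_lt {G Q : Type*} [Group G] [Group Q] [Finite G] (f : G →* Q) (h : f.ker ≠ ⊥) :
    Nat.card f.range < Nat.card G := by
  rw [← index_ker, ← index_mul_card f.ker]
  have h1 : 1 < Nat.card f.ker := (one_lt_card_iff_ne_bot _).mpr h
  have h2 : 0 < f.ker.index := Nat.pos_of_ne_zero index_ne_zero_of_finite
  nlinarith

lemma PH_of_ker_ne_bot {n : ℕ}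
    (ih : ∀ (G : Type) [Group G] [Finite G] [Group.IsSolvable G], Nat.card G < n → PH π b G)
    (G : Type) [Group G] [Finite G] [Group.IsSolvable G] (hG : Nat.card G ≤ n)
    (Ω : Type) [Finite Ω] [MulAction G Ω] (h : (MulAction.toPermHom G Ω).ker ≠ ⊥) :
    L π (MulAction.toPermHom G Ω).ker (Nat.log b (Nat.card Ω)) := by
  set f := MulAction.toPermHom G Ω with hf
  have : Group.IsSolvable f.range :=
    Group.isSolvable_of_surjective (f := f.rangeRestrict) f.rangeRestrict_surjective
  have h1 := ih f.range ((card_range_lt f h).trans_le hG) Ω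
  refine (h1.comap f.rangeRestrict).mono fun g hg => ?_
  rw [mem_comap, MonoidHom.mem_ker] at hg
  rw [MonoidHom.mem_ker]
  exact hg

/-- The bound for a group with an elementary abelian normal subgroup whose centraliser has the
same exponent. -/
lemma L_affine (hb : 3 ≤ b) (hπ : ∀ r : ℕ, r.Prime → r ∈ π → b ≤ r) {n : ℕ}
    (ih : ∀ (G : Type) [Group G] [Finite G] [Group.IsSolvable G], Nat.card G < n → PH π b G)
    (G : Type) [Group G] [Finite G] [Group.IsSolvable G] (hG : Nat.card G ≤ n)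
    (A : Subgroup G) [hA : A.Normal] (hA0 : A ≠ ⊥) (hAc : A ≤ centralizer A)
    (r : ℕ) (hr : r.Prime) (hC : ∀ c ∈ centralizer (A : Set G), c ^ r = 1) :
    L π (⊥ : Subgroup G) (Nat.log b (Nat.card A)) := by
  by_cases hrπ : r ∈ π
  · let T : Type := {Z : Subgroup G // ∃ a ∈ A, a ≠ 1 ∧ Z = zpowers a}
    let _ : MulAction G T :=
      { smul := fun g Z => ⟨Z.1.map (MulAut.conj g).toMonoidHom, by
          obtain ⟨a, ha, ha1, hZ⟩ := Z.2
          refine ⟨g * a * g⁻¹, hA.conj_mem a ha g, by simpa using ha1, ?_⟩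
          rw [hZ, MonoidHom.map_zpowers]
          rfl⟩
        one_smul := fun Z => Subtype.ext (by
          change Z.1.map (MulAut.conj (1 : G)).toMonoidHom = Z.1
          ext x
          simp)
        mul_smul := fun g h Z => Subtype.ext (by
          change Z.1.map (MulAut.conj (g * h)).toMonoidHom =
            (Z.1.map (MulAut.conj h).toMonoidHom).map (MulAut.conj g).toMonoidHom
          rw [map_map, map_mul]
          rfl) }
    have hsm : ∀ (g : G) (Z : T), (g • Z).1 = Z.1.map (MulAut.conj g).toMonoidHom :=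
      fun _ _ => rfl
    set Y := (MulAction.toPermHom G T).ker with hY
    have hYmem : ∀ y, y ∈ Y ↔ ∀ Z : T, y • Z = Z := fun y => by
      rw [hY, MonoidHom.mem_ker, Equiv.ext_iff]
      rfl
    have hAY : A ≤ Y := by
      intro a ha
      rw [hYmem]
      rintro ⟨Z, x, hx, hx1, rfl⟩
      refine Subtype.ext ?_
      rw [hsm, MonoidHom.map_zpowers]
      congr 1
      change a * x * a⁻¹ = x
      rw [← mem_centralizer_iff.mp (hAc ha) x hx, mul_inv_cancel_right]
    have h1 := PH_of_ker_ne_bot ih G hG T (fun h => hA0 (eq_bot_iff.mpr (h ▸ hAY)))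
    have hpow : ∀ y ∈ Y, ∀ a ∈ A, ∃ i : ℤ, a ^ i = y * a * y⁻¹ := by
      intro y hy a ha
      by_cases ha1 : a = 1
      · exact ⟨0, by simp [ha1]⟩
      · have h2 := congrArg Subtype.val ((hYmem y).mp hy ⟨zpowers a, a, ha, ha1, rfl⟩)
        rw [hsm, MonoidHom.map_zpowers] at h2
        have h3 : zpowers (y * a * y⁻¹) = zpowers a := h2
        exact mem_zpowers_iff.mp (h3 ▸ mem_zpowers (y * a * y⁻¹))
    have h2 : Y ≤ rel (piN πᶜ) (rel (piN π) (centralizer (A : Set G))) := by
      refine le_rel_rel_of_comm fun y hy z hz => mem_centralizer_iff.mpr fun a ha => ?_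
      have ha' : y⁻¹ * (z⁻¹ * a * z) * y ∈ A := by
        simpa using hA.conj_mem _ (hA.conj_mem a ha z⁻¹) y⁻¹
      have key : ∀ x ∈ A, y * (z * x * z⁻¹) * y⁻¹ = z * (y * x * y⁻¹) * z⁻¹ := by
        intro x hx
        obtain ⟨i, hi⟩ := hpow y hy x hx
        obtain ⟨j, hj⟩ := hpow z hz x hx
        rw [← hi, ← hj, ← conj_zpow, ← conj_zpow, ← hi, ← hj, ← zpow_mul, ← zpow_mul, mul_comm]
      have h3 := key _ ha'
      have h4 : z * (y * (y⁻¹ * (z⁻¹ * a * z) * y) * y⁻¹) * z⁻¹ = a := by group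
      rw [h4] at h3
      calc a * (y * z * y⁻¹ * z⁻¹)
          = y * (z * (y⁻¹ * (z⁻¹ * a * z) * y) * z⁻¹) * y⁻¹ * (y * z * y⁻¹ * z⁻¹) := by rw [h3]
        _ = y * z * y⁻¹ * z⁻¹ * a := by group
    have h3 : centralizer (A : Set G) ≤ rel (piN π) ⊥ :=
      le_rel inferInstance fun c hc => ⟨r, prime_mem_piN hr hrπ, mem_bot.mpr (hC c hc)⟩
    have h4 : L π (⊥ : Subgroup G) (Nat.log b (Nat.card T) + 1) :=
      L.of_rel (L.of_rel' (h1.mono (h2.trans
        (rel_mono _ ((rel_mono _ h3).trans (rel_idem _ _).le)))))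
    refine h4.mono_left ?_
    -- counting
    have hord : ∀ a ∈ A, a ≠ 1 → orderOf a = r := fun a ha ha1 =>
      have : Fact r.Prime := ⟨hr⟩
      orderOf_eq_prime (hC a (hAc ha)) ha1
    choose gen hgen hgen1 hgenZ using fun Z : T => Z.2
    have hne : ∀ (Z : T) (i : Fin (r - 1)), gen Z ^ ((i : ℕ) + 1) ≠ 1 := by
      intro Z i h
      have h5 := orderOf_dvd_of_pow_eq_one h
      rw [hord _ (hgen Z) (hgen1 Z)] at h5
      have h6 := Nat.le_of_dvd (Nat.succ_pos _) h5
      have := i.2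
      omega
    have hzp : ∀ (Z : T) (i : Fin (r - 1)), zpowers (gen Z ^ ((i : ℕ) + 1)) = Z.1 := by
      intro Z i
      rw [hgenZ Z]
      refine eq_of_le_of_card_ge (zpowers_le.mpr (pow_mem (mem_zpowers _) _)) ?_
      rw [Nat.card_zpowers, Nat.card_zpowers, hord _ (hgen Z) (hgen1 Z),
        hord _ (pow_mem (hgen Z) _) (hne Z i)]
    let ι : Option (T × Fin (r - 1)) → A := fun o =>
      o.elim 1 fun x => ⟨gen x.1 ^ ((x.2 : ℕ) + 1), pow_mem (hgen x.1) _⟩
    have hι : Function.Injective ι := by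
      rintro (_ | ⟨Z, i⟩) (_ | ⟨Z', i'⟩) h
      · rfl
      · exact absurd (congrArg Subtype.val h).symm (hne Z' i')
      · exact absurd (congrArg Subtype.val h) (hne Z i)
      · have h5 : gen Z ^ ((i : ℕ) + 1) = gen Z' ^ ((i' : ℕ) + 1) := congrArg Subtype.val h
        have h6 : Z = Z' := Subtype.ext (by rw [← hzp Z i, ← hzp Z' i', h5])
        subst h6
        have h7 := pow_injOn_Iio_orderOf (x := gen Z)
          (by rw [hord _ (hgen Z) (hgen1 Z)]; have := i.2; simp only [Set.mem_Iio]; omega)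
          (by rw [hord _ (hgen Z) (hgen1 Z)]; have := i'.2; simp only [Set.mem_Iio]; omega) h5
        have h8 : i = i' := Fin.ext (by omega)
        rw [h8]
    have h5 := Nat.card_le_card_of_injective ι hι
    rw [Finite.card_option, Nat.card_prod, Nat.card_eq_fintype_card (α := Fin (r - 1)),
      Fintype.card_fin] at h5
    have ht : Nat.card T ≠ 0 := by
      obtain ⟨a, ha, ha1⟩ := (A.nontrivial_iff_exists_ne_one).mp ((nontrivial_iff_ne_bot _).mpr hA0)
      have : Nonempty T := ⟨⟨zpowers a, a, ha, ha1, rfl⟩⟩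
      exact Nat.card_pos.ne'
    rcases (hπ r hr hrπ).eq_or_lt with hbr | hbr
    · subst hbr
      have : Fact b.Prime := ⟨hr⟩
      have hP : IsPGroup b A := fun a => ⟨1, Subtype.ext (by simpa using hC a (hAc a.2))⟩
      obtain ⟨k, hk⟩ := hP.exists_card_eq
      rw [hk, Nat.log_pow (by omega)]
      refine Nat.log_lt_of_lt_pow ht ?_
      rw [← hk]
      have : 1 ≤ b - 1 := by omega
      nlinarith
    · refine Nat.le_log_of_pow_le (by omega) ?_
      rw [pow_succ]
      have h6 := Nat.pow_log_le_self b ht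
      have h7 : b ≤ r - 1 := by omega
      nlinarith
  · let _ : MulAction G A := MulAction.compHom A (MulAut.conjNormal : G →* MulAut A)
    have hker : ∀ g, g ∈ (MulAction.toPermHom G A).ker ↔ g ∈ centralizer (A : Set G) := by
      intro g
      rw [MonoidHom.mem_ker, Equiv.ext_iff, mem_centralizer_iff]
      constructor
      · intro h a ha
        have h1 : g * a * g⁻¹ = a := congrArg Subtype.val (h ⟨a, ha⟩)
        rw [mul_inv_eq_iff_eq_mul] at h1
        exact h1.symm
      · intro h a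
        refine Subtype.ext ?_
        change g * a * g⁻¹ = a
        rw [← h a a.2, mul_inv_cancel_right]
    have h1 := PH_of_ker_ne_bot ih G hG A fun h => hA0 (eq_bot_iff.mpr fun a ha => by
      rw [← h, hker]
      exact hAc ha)
    refine L.of_rel' (h1.mono (le_rel inferInstance fun c hc => ?_))
    exact ⟨r, prime_mem_piN hr hrπ, mem_bot.mpr (hC c ((hker c).mp hc))⟩

lemma PH_transitive (hb : 3 ≤ b) (hπ : ∀ r : ℕ, r.Prime → r ∈ π → b ≤ r)
    (G : Type) [Group G] [Finite G] [Group.IsSolvable G]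
    (ih : ∀ (G' : Type) [Group G'] [Finite G'] [Group.IsSolvable G'],
      Nat.card G' < Nat.card G → PH π b G')
    (Ω : Type) [Finite Ω] [MulAction G Ω] [MulAction.IsPretransitive G Ω] (ω₀ : Ω)
    (hf : (MulAction.toPermHom G Ω).ker = ⊥) :
    L π (⊥ : Subgroup G) (Nat.log b (Nat.card Ω)) := by
  rcases eq_or_ne (⊥ : Subgroup G) ⊤ with h0 | h0
  · rw [h0]
    exact L.top _
  obtain ⟨N, hN, -⟩ := exists_minOver (D := ⊥) (C := (⊤ : Subgroup G)) inferInstance h0.lt_top
  have hNn := hN.1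
  obtain ⟨r, hr, hNr⟩ := hN.prime
  have hNc : ∀ a ∈ N, ∀ c ∈ N, a * c = c * a := fun a ha c hc => by
    have := mem_bot.mp (hN.comm a ha c hc)
    rwa [mul_inv_eq_one, mul_inv_eq_iff_eq_mul] at this
  set B : Set Ω := MulAction.orbit N ω₀ with hB
  have hblock : MulAction.IsBlock G B := MulAction.IsBlock.orbit_of_normal ω₀
  have hBne : B.Nonempty := MulAction.nonempty_orbit ω₀
  have hcard := hblock.ncard_block_mul_ncard_orbit_eq hBne
  set K := (MulAction.toPermHom G (MulAction.orbit G B)).ker with hK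
  have hKmem : ∀ g, g ∈ K ↔ ∀ ω : Ω, g • MulAction.orbit N ω = MulAction.orbit N ω := by
    intro g
    rw [hK, MonoidHom.mem_ker, Equiv.ext_iff]
    constructor
    · intro h ω
      obtain ⟨x, rfl⟩ := MulAction.exists_smul_eq G ω₀ ω
      rw [← MulAction.smul_orbit_eq_orbit_smul]
      exact congrArg Subtype.val (h ⟨x • B, MulAction.mem_orbit _ _⟩)
    · rintro h ⟨_, x, rfl⟩
      refine Subtype.ext ?_
      change g • x • B = x • B
      rw [hB, MulAction.smul_orbit_eq_orbit_smul, h]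
  have hNK : N ≤ K := fun a ha => (hKmem a).mpr fun ω => MulAction.smul_orbit (⟨a, ha⟩ : N) ω
  have h1 := PH_of_ker_ne_bot ih G le_rfl (MulAction.orbit G B)
    (fun h => hN.2.1.ne' (eq_bot_iff.mpr (h ▸ hNK)))
  let Δ : Ω → SubMulAction K Ω := fun ω =>
    { carrier := MulAction.orbit N ω
      smul_mem' := fun k x hx => by
        rw [← (hKmem k).mp k.2 ω]
        exact Set.smul_mem_smul_set hx }
  have h2 : ∀ ω, L π (MulAction.toPermHom K (Δ ω)).ker (Nat.log b B.ncard) := by
    intro ω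
    set f := MulAction.toPermHom K (Δ ω) with hfdef
    have hΔ : Nat.card (Δ ω) = B.ncard := by
      obtain ⟨x, rfl⟩ := MulAction.exists_smul_eq G ω₀ ω
      change Nat.card (MulAction.orbit N (x • ω₀)) = _
      rw [← MulAction.smul_orbit_eq_orbit_smul, Nat.card_coe_set_eq, Set.ncard_smul_set]
    let x₀ : Δ ω := ⟨ω, MulAction.mem_orbit_self (M := N) ω⟩
    have htr : ∀ x : Δ ω, ∃ a : K, (a : G) ∈ N ∧ f a x₀ = x := by
      rintro ⟨_, a, rfl⟩
      exact ⟨⟨a, hNK a.2⟩, a.2, rfl⟩
    let A : Subgroup f.range := (N.subgroupOf K).map f.rangeRestrict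
    have hAn : A.Normal := Normal.map inferInstance _ f.rangeRestrict_surjective
    have hAc : A ≤ centralizer A := by
      rintro _ ⟨a, ha, rfl⟩
      rw [mem_centralizer_iff]
      rintro _ ⟨c, hc, rfl⟩
      rw [← map_mul, ← map_mul]
      congr 1
      exact Subtype.ext (hNc _ hc _ ha)
    have hext : ∀ c ∈ centralizer (A : Set f.range), ∀ d ∈ centralizer (A : Set f.range),
        c.1 x₀ = d.1 x₀ → c = d := by
      intro c hc d hd h
      refine Subtype.ext (Equiv.ext fun x => ?_)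
      obtain ⟨a, ha, rfl⟩ := htr x
      have h3 := congrArg (fun t : f.range => t.1 x₀)
        (mem_centralizer_iff.mp hc _ ⟨a, ha, rfl⟩)
      have h4 := congrArg (fun t : f.range => t.1 x₀)
        (mem_centralizer_iff.mp hd _ ⟨a, ha, rfl⟩)
      simp only [coe_mul, Equiv.Perm.coe_mul, Function.comp_apply,
        MonoidHom.coe_rangeRestrict] at h3 h4
      rw [← h3, ← h4, h]
    have hCA : ∀ c ∈ centralizer (A : Set f.range), c ∈ A := by
      intro c hc
      obtain ⟨a, ha, h⟩ := htr (c.1 x₀)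
      rw [hext c hc (f.rangeRestrict a) (hAc ⟨a, ha, rfl⟩) h.symm]
      exact ⟨a, ha, rfl⟩
    have hcomap : (⊥ : Subgroup f.range).comap f.rangeRestrict ≤ f.ker := by
      rw [MonoidHom.comap_bot, MonoidHom.ker_rangeRestrict]
    by_cases hA0 : A = ⊥
    · have h3 : (⊤ : Subgroup f.range) ≤ ⊥ := fun c _ => by
        rw [← hA0]
        refine hCA c (mem_centralizer_iff.mpr fun a ha => ?_)
        have ha' : a ∈ A := ha
        rw [hA0, mem_bot] at ha'
        simp [ha']
      exact (((L.top (π := π) _).mono h3).comap f.rangeRestrict).mono hcomap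
    · have : Group.IsSolvable f.range :=
        Group.isSolvable_of_surjective (f := f.rangeRestrict) f.rangeRestrict_surjective
      have h3 := L_affine hb hπ ih f.range
        ((Nat.card_le_card_of_surjective _ f.rangeRestrict_surjective).trans
          (card_le_card_group K)) A hA0 hAc r hr (fun c hc => by
          obtain ⟨a, ha, rfl⟩ := hCA c hc
          rw [← map_pow, show a ^ r = 1 from Subtype.ext (mem_bot.mp (hNr _ ha)), map_one])
      have h4 : Nat.card A ≤ B.ncard := by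
        rw [← hΔ]
        exact Nat.card_le_card_of_injective (fun a : A => a.1.1 x₀)
          fun a c h => Subtype.ext (hext _ (hAc a.2) _ (hAc c.2) h)
      exact ((h3.mono_left (Nat.log_mono_right h4)).comap f.rangeRestrict).mono hcomap
  have h3 : L π ((⊥ : Subgroup G).subgroupOf K) (Nat.log b B.ncard) := by
    refine (L.iInf (fun ω => inferInstance) h2).mono fun k hk => ?_
    rw [mem_subgroupOf, ← hf, MonoidHom.mem_ker]
    refine Equiv.ext fun ω => ?_
    have h4 := MonoidHom.mem_ker.mp (mem_iInf.mp hk ω)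
    exact congrArg Subtype.val
      (Equiv.ext_iff.mp h4 (⟨ω, MulAction.mem_orbit_self (M := N) ω⟩ : Δ ω))
  refine (L.add h3 h1).mono_left ?_
  rw [← hcard, Nat.card_coe_set_eq]
  have h4 : B.ncard * (MulAction.orbit G B).ncard ≠ 0 := by
    rw [hcard]
    have : Nonempty Ω := ⟨ω₀⟩
    exact Nat.card_pos.ne'
  exact log_add_log_le (by omega) (left_ne_zero_of_mul h4) (right_ne_zero_of_mul h4)

theorem PH_all (hb : 3 ≤ b) (hπ : ∀ r : ℕ, r.Prime → r ∈ π → b ≤ r) (n : ℕ) :
    ∀ (G : Type) [Group G] [Finite G] [Group.IsSolvable G], Nat.card G = n → PH π b G := by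
  induction n using Nat.strong_induction_on with
  | _ n ih =>
    intro G _ _ _ hG Ω _ _
    have ih' : ∀ (G' : Type) [Group G'] [Finite G'] [Group.IsSolvable G'],
        Nat.card G' < Nat.card G → PH π b G' := fun G' _ _ _ h => ih _ (hG ▸ h) G' rfl
    have h1 : ∀ ω : Ω, L π (MulAction.toPermHom G (MulAction.orbit G ω)).ker
        (Nat.log b (Nat.card Ω)) := by
      intro ω
      have h2 : Nat.card (MulAction.orbit G ω) ≤ Nat.card Ω :=
        Nat.card_le_card_of_injective _ Subtype.val_injective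
      refine L.mono_left ?_ (Nat.log_mono_right h2)
      by_cases h : (MulAction.toPermHom G (MulAction.orbit G ω)).ker = ⊥
      · rw [h]
        exact PH_transitive hb hπ G ih' _ ⟨ω, MulAction.mem_orbit_self ω⟩ h
      · exact PH_of_ker_ne_bot ih' G le_rfl _ h
    refine (L.iInf (fun ω => inferInstance) h1).mono fun g hg => ?_
    rw [MonoidHom.mem_ker]
    refine Equiv.ext fun ω => ?_
    have h4 := MonoidHom.mem_ker.mp (mem_iInf.mp hg ω)
    exact congrArg Subtype.val (Equiv.ext_iff.mp h4 ⟨ω, MulAction.mem_orbit_self ω⟩)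

end Pool.Agent.Work.MP_d3ab46_al
end

-- merged part: Pool.Agent.Work.MP_d3ab46_al.Weights
section
/-!
Weight spaces of commuting operators, and linearisation of actions on elementary abelian groups.
-/

namespace Pool.Agent.Work.MP_d3ab46_al

open Module

section Weights

variable {F : Type*} [Field F] {V : Type*} [AddCommGroup V] [Module F V] {ι : Type*}

/-- The simultaneous eigenspace of a family of operators. -/
def wt (f : ι → End F V) (χ : ι → F) : Submodule F V := ⨅ i, (f i).eigenspace (χ i)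

lemma mem_wt {f : ι → End F V} {χ : ι → F} {v : V} : v ∈ wt f χ ↔ ∀ i, f i v = χ i • v := by
  simp [wt]

lemma exists_wt [IsAlgClosed F] [FiniteDimensional F V] [Nontrivial V] (f : ι → End F V)
    (hf : ∀ i j, Commute (f i) (f j)) : ∃ χ : ι → F, ∃ v ∈ wt f χ, v ≠ 0 := by
  obtain ⟨W, hW⟩ := exists_minimal_of_wellFoundedLT
    (fun W : Submodule F V => W ≠ ⊥ ∧ ∀ i, ∀ w ∈ W, f i w ∈ W) ⟨⊤, top_ne_bot, by simp⟩
  obtain ⟨hW0, hWi⟩ := hW.prop
  have : Nontrivial W := Submodule.nontrivial_iff_ne_bot.mpr hW0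
  have h1 : ∀ i, ∃ c : F, ∀ w ∈ W, f i w = c • w := by
    intro i
    obtain ⟨c, hc⟩ := End.exists_eigenvalue ((f i).restrict (hWi i))
    obtain ⟨u, hu⟩ := hc.exists_hasEigenvector
    have hu1 : f i u = c • (u : V) := congrArg Subtype.val hu.apply_eq_smul
    have h2 : W ⊓ (f i).eigenspace c = W := by
      refine hW.eq_of_le ⟨?_, ?_⟩ inf_le_left
      · rw [Submodule.ne_bot_iff]
        exact ⟨u, ⟨u.2, End.mem_eigenspace_iff.mpr hu1⟩, fun h => hu.2 (Subtype.ext h)⟩
      · rintro j w ⟨hw1, hw2⟩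
        refine ⟨hWi j w hw1, End.mem_eigenspace_iff.mpr ?_⟩
        rw [← Module.End.mul_apply, (hf i j).eq, Module.End.mul_apply,
          End.mem_eigenspace_iff.mp hw2, map_smul]
    refine ⟨c, fun w hw => ?_⟩
    rw [← h2] at hw
    exact End.mem_eigenspace_iff.mp hw.2
  choose χ hχ using h1
  obtain ⟨v, hv, hv0⟩ := (Submodule.ne_bot_iff W).mp hW0
  exact ⟨χ, v, mem_wt.mpr fun i => hχ i v hv, hv0⟩

lemma iSupIndep_wt (f : ι → End F V) (hf : ∀ i j, Commute (f i) (f j)) : iSupIndep (wt f) :=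
  (End.independent_iInf_maxGenEigenspace_of_forall_mapsTo f
    fun i j φ => End.mapsTo_maxGenEigenspace_of_comm (hf j i) φ).mono
    fun _ => iInf_mono fun _ => End.eigenspace_le_maxGenEigenspace

lemma card_mul_le_finrank [FiniteDimensional F V] (f : ι → End F V)
    (hf : ∀ i j, Commute (f i) (f j)) {O : Type*} [Finite O] (e : O → ι → F)
    (he : Function.Injective e) (d : ℕ) (hd : ∀ o, d ≤ finrank F (wt f (e o))) :
    Nat.card O * d ≤ finrank F V := by
  classical
  have := Fintype.ofFinite O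
  have h1 := ((iSupIndep_wt f hf).comp he).dfinsupp_lsum_injective
  have h2 := LinearMap.finrank_le_finrank_of_injective h1
  have h3 : finrank F (DirectSum O fun o => wt f (e o)) = ∑ o, finrank F (wt f (e o)) :=
    finrank_directSum F _
  refine le_trans ?_ (h3 ▸ h2)
  rw [Nat.card_eq_fintype_card, ← Finset.card_univ, ← smul_eq_mul]
  exact Finset.card_nsmul_le_sum _ _ _ fun o _ => hd o

end Weights

open scoped TensorProduct

lemma exists_rep_aux {G : Type*} [Group G] {K L : Type} [Field K] [Field L] [Algebra K L]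
    {B : Type} [AddCommGroup B] [Module K B] [FiniteDimensional K B] (σ : G →* End K B) :
    ∃ (V : Type) (_ : AddCommGroup V) (_ : Module L V) (_ : FiniteDimensional L V)
      (ρ : G →* End L V), ρ.ker = σ.ker ∧ finrank L V = finrank K B := by
  let τ := End.baseChangeHom K L B
  have hτ : Function.Injective τ := LinearMap.baseChangeHom_injective K B L
  let ρ : G →* End L (L ⊗[K] B) := τ.toRingHom.toMonoidHom.comp σ
  refine ⟨L ⊗[K] B, inferInstance, inferInstance, inferInstance, ρ, ?_, finrank_baseChange⟩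
  ext g
  rw [MonoidHom.mem_ker, MonoidHom.mem_ker]
  exact map_eq_one_iff τ hτ

lemma exists_rep_add' {G : Type*} [Group G] {K L : Type} [Field K] [Field L] [Algebra K L]
    {B : Type} [AddCommGroup B] [Finite B] [Module K B] (φ : G → B →+ B)
    (h0 : ∀ g (c : K) x, φ g (c • x) = c • φ g x) (h1 : ∀ x, φ 1 x = x)
    (h2 : ∀ g h x, φ (g * h) x = φ g (φ h x)) :
    ∃ (V : Type) (_ : AddCommGroup V) (_ : Module L V) (_ : FiniteDimensional L V)
      (ρ : G →* End L V),
      (∀ g, g ∈ ρ.ker ↔ ∀ x, φ g x = x) ∧ Nat.card K ^ finrank L V = Nat.card B := by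
  have : FiniteDimensional K B := Module.Finite.of_finite
  let σ : G →* End K B :=
    { toFun := fun g => { toFun := φ g, map_add' := map_add (φ g), map_smul' := h0 g }
      map_one' := LinearMap.ext h1
      map_mul' := fun g h => LinearMap.ext (h2 g h) }
  obtain ⟨V, i1, i2, i3, ρ, h3, h4⟩ := exists_rep_aux (L := L) σ
  refine ⟨V, i1, i2, i3, ρ, fun g => ?_, ?_⟩
  · rw [h3, MonoidHom.mem_ker, LinearMap.ext_iff]
    rfl
  · rw [h4, Module.natCard_eq_pow_finrank (K := K) (V := B)]

lemma exists_rep_add {G : Type*} [Group G] {B : Type} [AddCommGroup B] [Finite B] (r : ℕ)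
    [Fact r.Prime] (hr : ∀ a : B, r • a = 0) (φ : G → B →+ B) (h1 : ∀ x, φ 1 x = x)
    (h2 : ∀ g h x, φ (g * h) x = φ g (φ h x)) :
    ∃ (V : Type) (_ : AddCommGroup V) (_ : Module (AlgebraicClosure (ZMod r)) V)
      (_ : FiniteDimensional (AlgebraicClosure (ZMod r)) V)
      (ρ : G →* End (AlgebraicClosure (ZMod r)) V),
      (∀ g, g ∈ ρ.ker ↔ ∀ x, φ g x = x) ∧
        r ^ finrank (AlgebraicClosure (ZMod r)) V = Nat.card B := by
  let _ : Module (ZMod r) B := AddCommGroup.zmodModule hr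
  have := exists_rep_add' (K := ZMod r) (L := AlgebraicClosure (ZMod r)) φ
    (fun g c x => ZMod.map_smul (φ g) c x) h1 h2
  rwa [Nat.card_zmod] at this

/-- An action on an elementary abelian group gives a representation over the algebraic closure of
the prime field with the same kernel. -/
lemma exists_rep {G : Type*} [Group G] {A : Type} [Group A] [Finite A]
    (hc : ∀ a b : A, a * b = b * a) (r : ℕ) [Fact r.Prime] (hr : ∀ a : A, a ^ r = 1)
    (φ : G →* MulAut A) :
    ∃ (V : Type) (_ : AddCommGroup V) (_ : Module (AlgebraicClosure (ZMod r)) V)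
      (_ : FiniteDimensional (AlgebraicClosure (ZMod r)) V)
      (ρ : G →* End (AlgebraicClosure (ZMod r)) V),
      ρ.ker = φ.ker ∧ r ^ finrank (AlgebraicClosure (ZMod r)) V = Nat.card A := by
  let _ : CommGroup A := { ‹Group A› with mul_comm := hc }
  obtain ⟨V, i1, i2, i3, ρ, h3, h4⟩ := exists_rep_add (G := G) (B := Additive A) r
    (fun x => hr x.toMul) (fun g => MonoidHom.toAdditive (φ g).toMonoidHom)
    (fun x => by simp) (fun g h x => by simp)
  refine ⟨V, i1, i2, i3, ρ, ?_, h4⟩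
  ext g
  rw [h3, MonoidHom.mem_ker]
  constructor
  · intro h
    ext a
    exact h (Additive.ofMul a)
  · intro h x
    simp [h]

end Pool.Agent.Work.MP_d3ab46_al
end

-- merged part: Pool.Agent.Work.MP_d3ab46_al.Linear
section
/-!
A solvable linear group of degree `n` in characteristic `c` has, modulo its largest normal
`c`-subgroup, `π`-length at most `log_b n + 1`.
-/

namespace Pool.Agent.Work.MP_d3ab46_al

open Subgroup Module Pool.Agent.Work.MP_36bee3_al

/-- The bound for all representations of `G` over algebraically closed fields of prime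
characteristic. -/
def LH (π : Set ℕ) (b : ℕ) (G : Type) [Group G] : Prop :=
  ∀ (F : Type) [Field F] [IsAlgClosed F] (c : ℕ) [Fact c.Prime] [CharP F c]
    (V : Type) [AddCommGroup V] [Module F V] [FiniteDimensional F V] (ρ : G →* End F V),
    L π (rel (Submonoid.powers c) ρ.ker) (Nat.log b (finrank F V) + 1)

variable {π : Set ℕ} {b : ℕ}

lemma LH_of_ker_ne_bot (G : Type) [Group G] [Finite G] [Group.IsSolvable G]
    (ih : ∀ (G' : Type) [Group G'] [Finite G'] [Group.IsSolvable G'],
      Nat.card G' < Nat.card G → LH π b G')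
    (F : Type) [Field F] [IsAlgClosed F] (c : ℕ) [Fact c.Prime] [CharP F c]
    (V : Type) [AddCommGroup V] [Module F V] [FiniteDimensional F V] (ρ : G →* End F V)
    (h : ρ.ker ≠ ⊥) : L π (rel (Submonoid.powers c) ρ.ker) (Nat.log b (finrank F V) + 1) := by
  have h1 : Nat.card (G ⧸ ρ.ker) < Nat.card G := by
    rw [← index_mul_card ρ.ker]
    have h1 : 1 < Nat.card ρ.ker := (one_lt_card_iff_ne_bot _).mpr h
    have h2 : 0 < ρ.ker.index := Nat.pos_of_ne_zero index_ne_zero_of_finite
    change ρ.ker.index < _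
    nlinarith
  have h2 := ih (G ⧸ ρ.ker) h1 F c V (QuotientGroup.lift ρ.ker ρ le_rfl)
  refine (h2.comap (QuotientGroup.mk' ρ.ker)).mono ((comap_rel_le _ _ _).trans (rel_mono _ ?_))
  intro g hg
  exact hg

section Irred

variable {G : Type} [Group G] {F : Type} [Field F] {V : Type} [AddCommGroup V] [Module F V]

lemma rho_ne_zero (ρ : G →* End F V) (g : G) {v : V} (hv : v ≠ 0) : ρ g v ≠ 0 := by
  intro h
  apply hv
  have : ρ g⁻¹ (ρ g v) = v := by
    rw [← Module.End.mul_apply, ← map_mul, inv_mul_cancel, map_one, Module.End.one_apply]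
  rw [← this, h, map_zero]

lemma commute_rho (ρ : G →* End F V) {A : Subgroup G} (hA : A ≤ centralizer A) (a c : A) :
    Commute (ρ a) (ρ c) := by
  change ρ a * ρ c = ρ c * ρ a
  rw [← map_mul, ← map_mul, mem_centralizer_iff.mp (hA c.2) a a.2]

/-- An abelian normal subgroup is scalar, or else the bound follows from smaller groups. -/
lemma abelian_step (hb : 3 ≤ b) (hπ : ∀ r : ℕ, r.Prime → r ∈ π → b ≤ r) [Finite G]
    [Group.IsSolvable G] [IsAlgClosed F] (c : ℕ) [Fact c.Prime] [CharP F c]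
    [FiniteDimensional F V] [Nontrivial V]
    (ih : ∀ (G' : Type) [Group G'] [Finite G'] [Group.IsSolvable G'],
      Nat.card G' < Nat.card G → LH π b G')
    (ρ : G →* End F V)
    (hirr : ∀ W : Submodule F V, (∀ g, W ≤ W.comap (ρ g)) → W = ⊥ ∨ W = ⊤)
    (A : Subgroup G) [A.Normal] (hA : A ≤ centralizer A) :
    (∀ a ∈ A, ∃ t : F, ρ a = t • 1) ∨
      L π (rel (Submonoid.powers c) ρ.ker) (Nat.log b (finrank F V) + 1) := by
  let f : A → End F V := fun a => ρ a
  have hf : ∀ i j, Commute (f i) (f j) := commute_rho ρ hA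
  obtain ⟨χ₀, v₀, hv₀, hv0⟩ := exists_wt f hf
  let _ : MulAction G (A → F) :=
    { smul := fun g χ a => χ (MulAut.conjNormal g⁻¹ a)
      one_smul := fun χ => funext fun a => by
        change χ (MulAut.conjNormal (1 : G)⁻¹ a) = χ a
        simp
      mul_smul := fun g h χ => funext fun a => by
        change χ (MulAut.conjNormal (g * h)⁻¹ a) =
          χ (MulAut.conjNormal h⁻¹ (MulAut.conjNormal g⁻¹ a))
        simp }
  have hmap : ∀ (g : G) (χ : A → F), ∀ v ∈ wt f χ, ρ g v ∈ wt f (g • χ) := by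
    intro g χ v hv
    rw [mem_wt] at hv ⊢
    intro a
    have h1 := hv (MulAut.conjNormal g⁻¹ a)
    change ρ a (ρ g v) = χ (MulAut.conjNormal g⁻¹ a) • ρ g v
    rw [← map_smul, ← h1]
    simp only [f, MulAut.conjNormal_apply, inv_inv]
    rw [← Module.End.mul_apply, ← Module.End.mul_apply, ← map_mul, ← map_mul]
    congr 2
    group
  let Ω : Type := MulAction.orbit G χ₀
  have : Finite Ω := (Set.finite_range _).to_subtype
  have hspan : ⨆ χ : Ω, wt f χ.1 = ⊤ := by
    refine (hirr _ fun g => iSup_le fun χ v hv => ?_).resolve_left fun h => ?_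
    · exact Submodule.mem_iSup_of_mem (g • χ) (hmap g χ.1 v hv)
    · have h1 : v₀ ∈ ⨆ χ : Ω, wt f χ.1 :=
        Submodule.mem_iSup_of_mem (⟨χ₀, MulAction.mem_orbit_self χ₀⟩ : Ω) hv₀
      rw [h] at h1
      exact hv0 h1
  have hext : ∀ S T : End F V, (∀ χ : Ω, ∀ v ∈ wt f χ.1, S v = T v) → S = T := by
    intro S T h
    have h1 : (⨆ χ : Ω, wt f χ.1) ≤ LinearMap.eqLocus S T := iSup_le fun χ v hv => h χ v hv
    rw [hspan, top_le_iff] at h1
    exact LinearMap.eqLocus_eq_top.mp h1
  set K := (MulAction.toPermHom G Ω).ker with hK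
  have hKmem : ∀ g ∈ K, ∀ χ : Ω, g • χ.1 = χ.1 := fun g hg χ =>
    congrArg Subtype.val (Equiv.ext_iff.mp (MonoidHom.mem_ker.mp hg) χ)
  by_cases hKtop : K = ⊤
  · left
    intro a ha
    refine ⟨χ₀ ⟨a, ha⟩, hext _ _ ?_⟩
    rintro ⟨_, g, rfl⟩ v hv
    have h1 : g • χ₀ = χ₀ := hKmem g (hKtop ▸ mem_top g) ⟨χ₀, MulAction.mem_orbit_self χ₀⟩
    have h2 : v ∈ wt f (g • χ₀) := hv
    rw [h1, mem_wt] at h2
    simpa using h2 ⟨a, ha⟩
  right
  have hKlt : Nat.card K < Nat.card G := by
    refine lt_of_le_of_ne (card_le_card_group K) fun h => hKtop ?_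
    exact (card_eq_iff_eq_top K).mp h
  have h1 := PH_all hb hπ _ G rfl Ω
  set d := finrank F (wt f χ₀) with hd
  have hle : ∀ (g : G) (χ : A → F), finrank F (wt f χ) ≤ finrank F (wt f (g • χ)) := by
    intro g χ
    refine LinearMap.finrank_le_finrank_of_injective (f := (ρ g).restrict (hmap g χ)) ?_
    rw [injective_iff_map_eq_zero]
    intro v hv
    by_contra h
    exact rho_ne_zero ρ g (fun h' => h (Subtype.ext h')) (congrArg Subtype.val hv)
  have hdim : ∀ χ : Ω, finrank F (wt f χ.1) = d := by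
    rintro ⟨_, g, rfl⟩
    refine le_antisymm ?_ (hle g χ₀)
    have := hle g⁻¹ (g • χ₀)
    rwa [inv_smul_smul] at this
  have hcount := card_mul_le_finrank f hf (fun χ : Ω => χ.1) Subtype.val_injective d
    fun χ => (hdim χ).ge
  let σ : ∀ χ : Ω, K →* End F (wt f χ.1) := fun χ =>
    Representation.subrepresentation (ρ.comp K.subtype) (wt f χ.1) fun k v hv => by
      have := hmap k χ.1 v hv
      rwa [hKmem k k.2 χ] at this
  have h2 : ∀ χ : Ω, L π (rel (Submonoid.powers c) (σ χ).ker) (Nat.log b d + 1) := fun χ => by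
    have := ih K hKlt F c (wt f χ.1) (σ χ)
    rwa [hdim χ] at this
  have h3 : L π ((rel (Submonoid.powers c) ρ.ker).subgroupOf K) (Nat.log b d + 1) := by
    refine (L.iInf (fun χ => inferInstance) h2).mono ?_
    refine (iInf_rel_le _ _ fun χ => inferInstance).trans ?_
    rw [subgroupOf, ← rel_comap _ K.subtype (subtype_injective _)
      (by rw [range_subtype]; infer_instance)]
    refine rel_mono _ fun k hk => ?_
    rw [mem_comap, MonoidHom.mem_ker]
    refine hext _ _ fun χ v hv => ?_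
    exact congrArg Subtype.val
      (LinearMap.congr_fun (MonoidHom.mem_ker.mp (mem_iInf.mp hk χ)) ⟨v, hv⟩)
  refine (L.add h3 h1).mono_left ?_
  have hd0 : d ≠ 0 := by
    have : Nontrivial (wt f χ₀) := ⟨⟨v₀, hv₀⟩, 0, fun h => hv0 (congrArg Subtype.val h)⟩
    exact finrank_pos.ne'
  have ht0 : Nat.card Ω ≠ 0 := by
    have : Nonempty Ω := ⟨⟨χ₀, MulAction.mem_orbit_self χ₀⟩⟩
    exact Nat.card_pos.ne'
  have h4 := log_add_log_le (b := b) (by omega) ht0 hd0
  have h5 := Nat.log_mono_right (b := b) hcount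
  omega

/-- The degree of a faithful representation in which the centre acts by scalars is at least the
square root of the order of a section `E / Z` with nondegenerate commutator pairing. -/
lemma relIndex_le_sq [Finite G] [IsAlgClosed F] [FiniteDimensional F V] [Nontrivial V]
    (ρ : G →* End F V) (hρ : ρ.ker = ⊥) (hZ : ∀ z ∈ center G, ∃ t : F, ρ z = t • 1)
    (E : Subgroup G) (hZE : center G ≤ E)
    (hE : ∀ a ∈ E, ∀ c ∈ E, a * c * a⁻¹ * c⁻¹ ∈ center G)
    (hnd : ∀ a ∈ E, a ∈ centralizer (E : Set G) → a ∈ center G) :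
    ∃ s : ℕ, s ∣ (center G).relIndex E ∧ (center G).relIndex E ≤ s * s ∧ s ≤ finrank F V := by
  classical
  obtain ⟨M, -, hM⟩ := Finite.exists_le_maximal
    (p := fun M : Subgroup G => center G ≤ M ∧ M ≤ E ∧ M ≤ centralizer M) (a := center G)
    ⟨le_rfl, hZE, center_le_centralizer _⟩
  obtain ⟨hZM, hME, hMc⟩ := hM.prop
  have hmax : ∀ e ∈ E, e ∈ centralizer (M : Set G) → e ∈ M := by
    intro e he hec
    have h1 : zpowers e ≤ centralizer (M : Set G) := zpowers_le.mpr hec
    have h2 : M ⊔ zpowers e ≤ centralizer ((M ⊔ zpowers e : Subgroup G) : Set G) :=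
      sup_le (le_centralizer_iff.mp (sup_le hMc h1))
        (le_centralizer_iff.mp (sup_le (le_centralizer_iff.mp h1) (le_centralizer _)))
    have h3 := hM.le_of_ge ⟨hZM.trans le_sup_left, sup_le hME (zpowers_le.mpr he), h2⟩ le_sup_left
    exact h3 (mem_sup_right (mem_zpowers e))
  have hconj : ∀ e ∈ E, ∀ m ∈ M, e * m * e⁻¹ ∈ M := by
    intro e he m hm
    have : e * m * e⁻¹ = (e * m * e⁻¹ * m⁻¹) * m := by group
    rw [this]
    exact mul_mem (hZM (hE e he m (hME hm))) hm
  have hMn : (M.subgroupOf E).Normal := ⟨fun m hm e => hconj e e.2 m hm⟩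
  have hlam : ∀ z : G, ∃ t : F, z ∈ center G → ρ z = t • 1 := fun z => by
    by_cases hz : z ∈ center G
    · obtain ⟨t, ht⟩ := hZ z hz
      exact ⟨t, fun _ => ht⟩
    · exact ⟨0, fun h => absurd h hz⟩
  choose lam hlam using hlam
  have hinj : Function.Injective fun t : F => t • (1 : End F V) := smul_left_injective F one_ne_zero
  have hlam1 : lam 1 = 1 := hinj (by
    change lam 1 • _ = (1 : F) • _
    rw [← hlam 1 (one_mem _), map_one, one_smul])
  have hlamm : ∀ z ∈ center G, ∀ w ∈ center G, lam (z * w) = lam z * lam w := fun z hz w hw =>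
    hinj (by
      change lam (z * w) • _ = (lam z * lam w) • _
      rw [← hlam _ (mul_mem hz hw), map_mul, hlam z hz, hlam w hw, smul_mul_smul_comm, mul_one])
  have hlame : ∀ z ∈ center G, ∀ w ∈ center G, lam z = lam w → z = w := fun z hz w hw h =>
    (MonoidHom.ker_eq_bot_iff ρ).mp hρ (by rw [hlam z hz, hlam w hw, h])
  refine ⟨M.relIndex E, ?_, ?_, ?_⟩
  · exact Dvd.intro_left _ (relIndex_mul_relIndex _ _ _ hZM hME)
  · rw [← relIndex_mul_relIndex _ _ _ hZM hME]
    refine Nat.mul_le_mul_right _ ?_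
    let ψ : M → E →* F := fun m =>
      { toFun := fun e => lam (m * e * (m : G)⁻¹ * (e : G)⁻¹)
        map_one' := by simpa using hlam1
        map_mul' := fun e e' => by
          rw [← hlamm _ (hE _ (hME m.2) _ e.2) _ (hE _ (hME m.2) _ e'.2)]
          congr 1
          have h1 := mem_center_iff.mp (hE _ (hME m.2) _ e'.2) (e : G)
          calc (m : G) * (e * e' : E) * (m : G)⁻¹ * ((e * e' : E) : G)⁻¹
              = m * e * (m : G)⁻¹ * (e : G)⁻¹ *
                (e * (m * e' * (m : G)⁻¹ * (e' : G)⁻¹) * (e : G)⁻¹) := by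
                push_cast
                group
            _ = _ := by rw [h1, mul_inv_cancel_right] }
    have hψ : ∀ m : M, M.subgroupOf E ≤ (ψ m).ker := by
      intro m e he
      change lam (m * e * (m : G)⁻¹ * (e : G)⁻¹) = 1
      have h : (m : G) * e = e * m := mem_centralizer_iff.mp (hMc he) m m.2
      rw [h]
      simpa using hlam1
    let θ : M ⧸ (center G).subgroupOf M → (E ⧸ M.subgroupOf E →* F) := fun q =>
      QuotientGroup.lift _ (ψ q.out) (hψ q.out)
    have hθ : Function.Injective θ := by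
      intro q q' h
      rw [← q.out_eq', ← q'.out_eq', QuotientGroup.eq, mem_subgroupOf]
      refine hnd _ (hME (q.out⁻¹ * q'.out).2) (mem_centralizer_iff.mpr fun e he => ?_)
      have h1 : ψ q.out ⟨e, he⟩ = ψ q'.out ⟨e, he⟩ :=
        DFunLike.congr_fun h ((⟨e, he⟩ : E) : E ⧸ M.subgroupOf E)
      have h2 := hlame _ (hE _ (hME q.out.2) _ he) _ (hE _ (hME q'.out.2) _ he) h1
      rw [mul_left_inj] at h2
      push_cast
      calc e * ((q.out : G)⁻¹ * q'.out)
          = (q.out : G)⁻¹ * (q.out * e * (q.out : G)⁻¹) * q'.out := by group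
        _ = (q.out : G)⁻¹ * q'.out * e := by rw [h2]; group
    have := Fintype.ofFinite (M ⧸ (center G).subgroupOf M)
    have := Fintype.ofFinite (E ⧸ M.subgroupOf E)
    have h1 := ((linearIndependent_monoidHom (E ⧸ M.subgroupOf E) F).comp θ hθ)
      |>.fintype_card_le_finrank
    rw [finrank_fintype_fun_eq_card, ← Nat.card_eq_fintype_card, ← Nat.card_eq_fintype_card] at h1
    exact h1
  · let f : M → End F V := fun a => ρ a
    have hf : ∀ i j, Commute (f i) (f j) := commute_rho ρ hMc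
    obtain ⟨μ, v, hv, hv0⟩ := exists_wt f hf
    rw [mem_wt] at hv
    let w : E → M → F := fun e m =>
      μ ⟨(e : G)⁻¹ * m * (e : G)⁻¹⁻¹, hconj _ (inv_mem e.2) m m.2⟩
    have hw : ∀ e : E, ρ e v ∈ wt f (w e) := by
      intro e
      rw [mem_wt]
      intro m
      change ρ m (ρ e v) = μ _ • ρ e v
      rw [← map_smul, ← hv]
      simp only [f, inv_inv]
      rw [← Module.End.mul_apply, ← Module.End.mul_apply, ← map_mul, ← map_mul]
      congr 2
      group
    have hwi : Function.Injective fun q : E ⧸ M.subgroupOf E => w q.out := by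
      intro q q' h
      rw [← q.out_eq', ← q'.out_eq', QuotientGroup.eq, mem_subgroupOf]
      set x : G := ((q.out⁻¹ * q'.out : E) : G) with hx
      have hxE : x ∈ E := (q.out⁻¹ * q'.out).2
      refine hmax x hxE (mem_centralizer_iff.mpr fun m hm => ?_)
      have h1 := congrFun h ⟨q.out * m * (q.out : G)⁻¹, hconj _ q.out.2 m hm⟩
      have h2 : x⁻¹ * m * x⁻¹⁻¹ ∈ M := hconj _ (inv_mem hxE) m hm
      have h3 : μ ⟨m, hm⟩ = μ ⟨_, h2⟩ := by
        convert h1 using 3
        · group
        · rw [hx]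
          push_cast
          group
      have h4 : ρ (x⁻¹ * m * x⁻¹⁻¹) v = ρ m v := by
        have h5 := hv ⟨m, hm⟩
        have h6 := hv ⟨_, h2⟩
        simp only [f] at h5 h6
        rw [h5, h6, h3]
      have hz := hE _ (inv_mem hxE) m (hME hm)
      have h5 : lam (x⁻¹ * m * x⁻¹⁻¹ * m⁻¹) • ρ m v = (1 : F) • ρ m v := by
        rw [one_smul]
        conv_rhs => rw [← h4, ← inv_mul_cancel_right (x⁻¹ * m * x⁻¹⁻¹) m, map_mul ρ _ m,
          hlam _ hz]
        simp
      have h6 := smul_left_injective F (rho_ne_zero ρ m hv0) h5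
      have h7 := hlame _ hz 1 (one_mem _) (by rw [hlam1]; exact h6)
      rw [mul_inv_eq_one, inv_inv, mul_assoc, inv_mul_eq_iff_eq_mul] at h7
      exact h7
    have h1 := card_mul_le_finrank f hf _ hwi 1 fun q => by
      have : Nontrivial (wt f (w q.out)) :=
        ⟨⟨_, hw q.out⟩, 0, fun h => rho_ne_zero ρ _ hv0 (congrArg Subtype.val h)⟩
      exact finrank_pos
    rwa [mul_one] at h1

lemma two_mul_le_two_pow {j : ℕ} (hj : 1 ≤ j) : 2 * j ≤ 2 ^ j := by
  induction hj with
  | refl => norm_num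
  | step h ih =>
    rename_i m
    have : 1 ≤ m := h
    rw [pow_succ]
    omega

lemma L_irred (hb : 3 ≤ b) (hπ : ∀ r : ℕ, r.Prime → r ∈ π → b ≤ r) [Finite G]
    [Group.IsSolvable G] [IsAlgClosed F] (c : ℕ) [Fact c.Prime] [CharP F c]
    [FiniteDimensional F V] [Nontrivial V]
    (ih : ∀ (G' : Type) [Group G'] [Finite G'] [Group.IsSolvable G'],
      Nat.card G' < Nat.card G → LH π b G')
    (ρ : G →* End F V) (hρ : ρ.ker = ⊥)
    (hirr : ∀ W : Submodule F V, (∀ g, W ≤ W.comap (ρ g)) → W = ⊥ ∨ W = ⊤) :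
    L π (rel (Submonoid.powers c) ρ.ker) (Nat.log b (finrank F V) + 1) := by
  by_contra hcon
  have hsc : ∀ A : Subgroup G, A.Normal → A ≤ centralizer A → ∀ a ∈ A, ∃ t : F, ρ a = t • 1 :=
    fun A _ hA => (abelian_step hb hπ c ih ρ hirr A hA).resolve_right hcon
  have hcen : ∀ A : Subgroup G, A.Normal → A ≤ centralizer A → A ≤ center G := by
    intro A hAn hA a ha
    obtain ⟨t, ht⟩ := hsc A hAn hA a ha
    refine mem_center_iff.mpr fun g => (MonoidHom.ker_eq_bot_iff ρ).mp hρ ?_
    rw [map_mul, map_mul, ht]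
    simp
  have hE : ∀ E : {E : Subgroup G // MinOver (center G) E},
      L π (centralizer (E.1 : Set G)) (Nat.log b (finrank F V) + 1) := by
    rintro ⟨E, hE⟩
    have hEn := hE.1
    obtain ⟨r, hr, hEr⟩ := hE.prime
    have : Fact r.Prime := ⟨hr⟩
    let Eb : Subgroup (G ⧸ center G) := E.map (QuotientGroup.mk' _)
    have hEb : Eb.Normal := hEn.map _ (QuotientGroup.mk'_surjective _)
    have hc : ∀ x y : Eb, x * y = y * x := by
      rintro ⟨_, x, hx, rfl⟩ ⟨_, y, hy, rfl⟩
      refine Subtype.ext ?_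
      have h1 := (QuotientGroup.eq_one_iff _).mpr (hE.comm x hx y hy)
      simp only [QuotientGroup.mk_mul, QuotientGroup.mk_inv] at h1
      rw [mul_inv_eq_one, mul_inv_eq_iff_eq_mul] at h1
      exact h1
    let φ : G →* MulAut Eb := MulAut.conjNormal.comp (QuotientGroup.mk' _)
    obtain ⟨V', _, _, _, ρ', hker, hcard⟩ := exists_rep hc r (by
      rintro ⟨_, x, hx, rfl⟩
      exact Subtype.ext ((QuotientGroup.eq_one_iff _).mpr (hEr x hx))) φ
    have hφ : ∀ g, g ∈ φ.ker ↔ ∀ e ∈ E, g * e * g⁻¹ * e⁻¹ ∈ center G := by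
      intro g
      rw [MonoidHom.mem_ker]
      constructor
      · intro h e he
        have h1 := congrArg Subtype.val (DFunLike.congr_fun h ⟨_, e, he, rfl⟩)
        rw [← QuotientGroup.eq_one_iff]
        simp only [QuotientGroup.mk_mul, QuotientGroup.mk_inv]
        exact mul_inv_eq_one.mpr h1
      · intro h
        refine MulEquiv.ext ?_
        rintro ⟨_, e, he, rfl⟩
        refine Subtype.ext ?_
        have h1 := (QuotientGroup.eq_one_iff _).mpr (h e he)
        simp only [QuotientGroup.mk_mul, QuotientGroup.mk_inv] at h1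
        exact mul_inv_eq_one.mp h1
    have hne : ρ'.ker ≠ ⊥ := by
      rw [hker]
      intro h
      have h1 : E ≤ φ.ker := fun e he => (hφ e).mpr (hE.comm e he)
      rw [h] at h1
      exact hE.2.1.not_ge (h1.trans bot_le)
    have h1 := LH_of_ker_ne_bot G ih _ r V' ρ' hne
    set k := finrank (AlgebraicClosure (ZMod r)) V' with hk
    have h2 : rel (Submonoid.powers r) ρ'.ker ≤
        rel (Submonoid.powers r) (centralizer (E : Set G)) := by
      refine rel_le_rel fun g hg => ⟨r, Submonoid.mem_powers r, ?_⟩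
      rw [hker, hφ] at hg
      refine mem_centralizer_iff.mpr fun e he => ?_
      have hz := mem_center_iff.mp (hg e he)
      have h3 := conj_pow_eq g e (hz g) r
      have h4 : (g * e * g⁻¹ * e⁻¹) ^ r = 1 := by
        have h5 : g * e * g⁻¹ = (g * e * g⁻¹ * e⁻¹) * e := by group
        have h6 : g * e ^ r * g⁻¹ = (g * e * g⁻¹ * e⁻¹) ^ r * e ^ r := by
          rw [← conj_pow, h5, Commute.mul_pow (hz e).symm, ← h5]
        rw [mem_center_iff.mp (hEr e he) g, mul_inv_cancel_right] at h6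
        exact mul_eq_right.mp h6.symm
      rw [h4, mul_inv_eq_one, mul_inv_eq_iff_eq_mul] at h3
      exact h3.symm
    obtain ⟨s, hs1, hs2, hs3⟩ := relIndex_le_sq ρ hρ
      (hsc _ inferInstance (center_le_centralizer _)) E hE.2.1.le hE.comm (fun a ha hac =>
        hcen (E ⊓ centralizer E) inferInstance
          (inf_le_right.trans (centralizer_le (fun _ h => h.1))) ⟨ha, hac⟩)
    have hidx : (center G).relIndex E = r ^ k := by
      rw [hcard, ← relIndex_ker, QuotientGroup.ker_mk']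
    rw [hidx] at hs1 hs2
    obtain ⟨j, -, rfl⟩ := (Nat.dvd_prime_pow hr).mp hs1
    rw [← pow_add, Nat.pow_le_pow_iff_right hr.one_lt] at hs2
    have hk0 : k ≠ 0 := by
      intro h
      rw [h, pow_zero, relIndex_eq_one] at hidx
      exact hE.2.1.not_ge hidx
    have hj := two_mul_le_two_pow (j := j) (by omega)
    by_cases hrπ : r ∈ π
    · refine (L.of_rel (h1.mono (h2.trans (rel_mono_left (powers_le_piN hr hrπ) _)))).mono_left ?_
      have h3 : 2 ^ j < b ^ j := Nat.pow_lt_pow_left (by omega) (by omega)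
      have h4 : Nat.log b k < j := Nat.log_lt_of_lt_pow hk0 (by omega)
      have h5 : j ≤ Nat.log b (finrank F V) :=
        Nat.le_log_of_pow_le (by omega) ((Nat.pow_le_pow_left (hπ r hr hrπ) j).trans hs3)
      omega
    · refine (L.of_rel' (h1.mono
        (h2.trans (rel_mono_left (powers_le_piN hr hrπ) _)))).mono_left ?_
      have h3 : 2 ^ j ≤ r ^ j := Nat.pow_le_pow_left hr.two_le j
      have h4 : Nat.log b k ≤ Nat.log b (finrank F V) := Nat.log_mono_right (by omega)
      omega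
  have h1 := L.iInf (fun E : {E : Subgroup G // MinOver (center G) E} => by
    have := E.2.1
    infer_instance) hE
  have h2 : (⨅ E : {E : Subgroup G // MinOver (center G) E}, centralizer (E.1 : Set G)) ≤
      center G := by
    by_contra h
    have h3 : center G < ⨅ E : {E : Subgroup G // MinOver (center G) E},
        centralizer (E.1 : Set G) :=
      lt_of_le_not_ge (le_iInf fun E => center_le_centralizer _) h
    obtain ⟨E, hE1, hE2⟩ := exists_minOver (normal_iInf_normal fun E => by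
      have := E.2.1
      infer_instance) h3
    exact hE1.2.1.not_ge (hcen E hE1.1 (hE2.trans (iInf_le
      (fun E : {E : Subgroup G // MinOver (center G) E} => centralizer (E.1 : Set G)) ⟨E, hE1⟩)))
  exact hcon ((L.of_central h2 h1).mono bot_le)

end Irred

theorem LH_all (hb : 3 ≤ b) (hπ : ∀ r : ℕ, r.Prime → r ∈ π → b ≤ r) (n : ℕ) :
    ∀ (G : Type) [Group G] [Finite G] [Group.IsSolvable G], Nat.card G = n → LH π b G := by
  induction n using Nat.strong_induction_on with
  | _ n ih =>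
    intro G _ _ _ hG F _ _ c _ _
    have ih' : ∀ (G' : Type) [Group G'] [Finite G'] [Group.IsSolvable G'],
        Nat.card G' < Nat.card G → LH π b G' := fun G' _ _ _ h => ih _ (hG ▸ h) G' rfl
    suffices h : ∀ (m : ℕ) (V : Type) [AddCommGroup V] [Module F V] [FiniteDimensional F V]
        (ρ : G →* End F V), finrank F V = m →
        L π (rel (Submonoid.powers c) ρ.ker) (Nat.log b (finrank F V) + 1) from
      fun V _ _ _ ρ => h _ V ρ rfl
    intro m
    induction m using Nat.strong_induction_on with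
    | _ m ihm =>
      intro V _ _ _ ρ hm
      by_cases hρ : ρ.ker = ⊥
      swap
      · exact LH_of_ker_ne_bot G ih' F c V ρ hρ
      rcases subsingleton_or_nontrivial V with hV | hV
      · refine (L.top _).mono (le_trans (fun g _ => ?_) (self_le_rel _ _))
        exact Subsingleton.elim _ _
      by_cases hirr : ∀ W : Submodule F V, (∀ g, W ≤ W.comap (ρ g)) → W = ⊥ ∨ W = ⊤
      · exact L_irred hb hπ c ih' ρ hρ hirr
      push Not at hirr
      obtain ⟨W, hW, hW0, hW1⟩ := hirr
      have hsum := Submodule.finrank_quotient_add_finrank W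
      have hlt : finrank F W < finrank F V := Submodule.finrank_lt hW1
      have hpos : 0 < finrank F W := by
        have : Nontrivial W := Submodule.nontrivial_iff_ne_bot.mpr hW0
        exact finrank_pos
      have h1 := ihm _ (hm ▸ hlt) W (Representation.subrepresentation ρ W hW) rfl
      have h2 := ihm (finrank F (V ⧸ W)) (by omega) (V ⧸ W) (Representation.quotient ρ W hW) rfl
      have h3 := (h1.mono_left (Nat.succ_le_succ (Nat.log_mono_right hlt.le))).inf
        (h2.mono_left (Nat.succ_le_succ (Nat.log_mono_right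
          (by omega : finrank F (V ⧸ W) ≤ finrank F V))))
      refine h3.mono (le_rel inferInstance fun g hg => ?_)
      obtain ⟨n₁, hn₁, h4⟩ := pw_rel _ _ g hg.1
      obtain ⟨n₂, hn₂, h5⟩ := pw_rel _ _ g hg.2
      refine ⟨n₁ * n₂ * c, mul_mem (mul_mem hn₁ hn₂) (Submonoid.mem_powers c), ?_⟩
      have h6 : ∀ w ∈ W, ρ (g ^ (n₁ * n₂)) w = w := fun w hw => by
        rw [pow_mul]
        exact congrArg Subtype.val
          (LinearMap.congr_fun (MonoidHom.mem_ker.mp (pow_mem h4 n₂)) ⟨w, hw⟩)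
      have h7 : ∀ v, ρ (g ^ (n₁ * n₂)) v - v ∈ W := fun v => by
        rw [mul_comm, pow_mul, ← Submodule.Quotient.eq]
        exact LinearMap.congr_fun (MonoidHom.mem_ker.mp (pow_mem h5 n₁))
          (Submodule.Quotient.mk v)
      rw [MonoidHom.mem_ker, pow_mul, map_pow]
      set T := ρ (g ^ (n₁ * n₂)) with hT
      have h8 : ∀ (k : ℕ) (v : V), (T ^ k) v = v + (k : F) • (T v - v) := by
        intro k v
        induction k with
        | zero => simp
        | succ k ihk =>
          rw [pow_succ', Module.End.mul_apply, ihk, map_add, map_smul, h6 _ (h7 v)]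
          push_cast
          rw [add_smul, one_smul]
          abel
      ext v
      rw [h8, CharP.cast_eq_zero]
      simp

end Pool.Agent.Work.MP_d3ab46_al
end

-- merged part: Pool.Agent.Work.MP_d3ab46_al.Bridge
section
/-!
The two bounds for the largest `p`-length inside `GL(n, F)`.
-/

namespace Pool.Agent.Work.MP_d3ab46_al

open Subgroup Pool.Agent.Work.MP_36bee3_al

section General

variable {G : Type*} [Group G] [Finite G] {π : Set ℕ} {p : ℕ}

lemma relIndex_mem_piN {D E : Subgroup G} [D.Normal] (h : Pw (piN π) D E) :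
    D.relIndex E ∈ piN π := by
  refine card_mem_piN (G := E ⧸ D.subgroupOf E) fun q => ?_
  obtain ⟨x, rfl⟩ := QuotientGroup.mk_surjective q
  obtain ⟨m, hm, h1⟩ := h x x.2
  exact ⟨m, hm, by rw [← QuotientGroup.mk_pow, QuotientGroup.eq_one_iff]; exact h1⟩

omit [Finite G] in
lemma pw_of_relIndex {D E : Subgroup G} [D.Normal] (h : D.relIndex E ∈ piN π) :
    Pw (piN π) D E := fun x hx =>
  ⟨_, h, (D.subgroupOf E).pow_index_mem ⟨x, hx⟩⟩

lemma pow_mem_piN (hp : p.Prime) (e : ℕ) : p ^ e ∈ piN {p} :=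
  pow_mem (prime_mem_piN hp (Set.mem_singleton p)) e

lemma mem_piN_compl (hp : p.Prime) {n : ℕ} : n ∈ piN {p}ᶜ ↔ n.Coprime p := by
  refine ⟨fun h => (coprime_of_piN (prime_mem_piN hp (Set.mem_singleton p)) h).symm, fun h => ⟨?_, ?_⟩⟩
  · rintro rfl
    exact hp.ne_one (by simpa using h)
  · rintro t - ht rfl
    exact (hp.coprime_iff_not_dvd.mp h.symm) ht

lemma exists_simple_quotient [Nontrivial G] :
    ∃ (K : Subgroup G) (_ : K.Normal), IsSimpleGroup (G ⧸ K) := by
  obtain ⟨K, ⟨hK, hK'⟩, hmax⟩ := (wellFounded_gt (α := Subgroup G)).has_min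
    {K | K.Normal ∧ K ≠ ⊤} ⟨⊥, inferInstance, bot_ne_top⟩
  refine ⟨K, hK, ?_⟩
  have : Nontrivial (G ⧸ K) := QuotientGroup.nontrivial_iff.mpr hK'
  refine ⟨fun M hM => ?_⟩
  have h1 : K ≤ M.comap (QuotientGroup.mk' K) := QuotientGroup.le_comap_mk' K M
  have h2 := map_comap_eq_self_of_surjective (QuotientGroup.mk'_surjective K) M
  by_cases h3 : M.comap (QuotientGroup.mk' K) = ⊤
  · right
    rw [← h2, h3, map_top_of_surjective _ (QuotientGroup.mk'_surjective K)]
  · left
    have h4 : M.comap (QuotientGroup.mk' K) = K :=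
      (eq_of_le_of_not_lt h1 (hmax _ ⟨hM.comap _, h3⟩)).symm
    rw [← h2, h4, Subgroup.map_eq_bot_iff, QuotientGroup.ker_mk']

end General

variable {G : Type} [Group G] [Finite G] {p : ℕ}

lemma IsPSolvable.exists_L (hp : p.Prime) (h : IsPSolvable p G) :
    ∃ n, L {p} (⊥ : Subgroup G) n := by
  suffices key : ∀ (m : ℕ) (H : Subgroup G), Nat.card H = m → H.IsSubnormal →
      ∃ n, L {p} (⊥ : Subgroup H) n by
    obtain ⟨n, hn⟩ := key _ ⊤ rfl IsSubnormal.top
    refine ⟨n, ?_⟩
    have := hn.map (topEquiv : (⊤ : Subgroup G) ≃* G).toMonoidHom topEquiv.surjective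
    rwa [Subgroup.map_bot] at this
  intro m
  induction m using Nat.strong_induction_on with
  | _ m ih =>
    intro H hm hH
    obtain hs | hs := subsingleton_or_nontrivial H
    · exact ⟨0, Subsingleton.elim _ _⟩
    obtain ⟨K, hK, hS⟩ := exists_simple_quotient (G := H)
    have hlt : Nat.card (K.map H.subtype) < m := by
      rw [card_map_of_injective (subtype_injective _), ← hm,
        card_eq_card_quotient_mul_card_subgroup K]
      exact lt_mul_of_one_lt_left Nat.card_pos Finite.one_lt_card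
    obtain ⟨n, hn⟩ := ih _ hlt _ rfl (hK.isSubnormal.trans' hH)
    have h1 := hn.comap (K.equivMapOfInjective H.subtype (subtype_injective _)).toMonoidHom
    have h2 : L {p} K 1 := by
      have h3 : K.relIndex ⊤ = Nat.card (H ⧸ K) := relIndex_top_right K
      obtain h4 | h4 := h H K hH hS
      · refine L.of_rel ((L.top 0).mono (le_rel inferInstance (pw_of_relIndex ?_)))
        rw [h3, h4]
        exact prime_mem_piN hp (Set.mem_singleton p)
      · refine L.of_rel' ((L.top 1).mono (le_rel inferInstance (pw_of_relIndex ?_)))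
        rw [h3]
        exact (mem_piN_compl hp).mpr h4
    refine ⟨n + 1, L.add (h1.mono ?_) h2⟩
    rw [comap_bot_of_injective _ (MulEquiv.injective _)]
    exact bot_le

omit [Finite G] in
lemma isPSolvable_of_solvable (hp : p.Prime) [Group.IsSolvable G] : IsPSolvable p G := by
  intro H K _ _ hS
  have h1 : ∀ a b : H ⧸ K, a * b = b * a := IsSimpleGroup.comm_iff_isSolvable.mpr inferInstance
  let : CommGroup (H ⧸ K) := { (inferInstance : Group (H ⧸ K)) with mul_comm := h1 }
  have h2 : (Nat.card (H ⧸ K)).Prime := IsSimpleGroup.prime_card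
  by_cases h3 : Nat.card (H ⧸ K) = p
  · exact Or.inl h3
  · exact Or.inr ((Nat.coprime_primes h2 hp).mpr h3)

/-- The upper `p`-series. -/
def upper (p : ℕ) (G : Type) [Group G] : ℕ → Subgroup G
  | 0 => ⊥
  | i + 1 => rel (if Even i then piN {p}ᶜ else piN {p}) (upper p G i)

omit [Finite G] in
instance upper_normal (i : ℕ) : (upper p G i).Normal := by
  induction i with
  | zero => exact normal_bot
  | succ i ih => exact rel_normal _ _

omit [Finite G] in
lemma upper_odd (j : ℕ) : upper p G (2 * j + 1) = U {p} j ⊥ := by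
  induction j with
  | zero => simp [upper, U]
  | succ j ih =>
    rw [show 2 * (j + 1) + 1 = 2 * j + 1 + 1 + 1 by ring, upper, upper, ih, U,
      if_pos ⟨j + 1, by ring⟩, if_neg (Nat.not_even_two_mul_add_one j)]

lemma exists_series (hp : p.Prime) {k : ℕ} (h : L {p} (⊥ : Subgroup G) k) :
    ∃ (m : ℕ) (s : ℕ → Subgroup G), IsPSeries p m s ∧
      {i | i < m ∧ ∃ e : ℕ, 0 < e ∧ (s i).relIndex (s (i + 1)) = p ^ e}.ncard ≤ k := by
  have key : ∀ i, (upper p G i).relIndex (upper p G (i + 1)) ∈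
      if Even i then piN {p}ᶜ else piN {p} := by
    intro i
    split_ifs with hi
    · exact relIndex_mem_piN (by rw [upper, if_pos hi]; exact pw_rel _ _)
    · exact relIndex_mem_piN (by rw [upper, if_neg hi]; exact pw_rel _ _)
  refine ⟨2 * k + 1, upper p G, ⟨rfl, (upper_odd k).trans h, fun i _ => inferInstance,
    fun i _ => ⟨self_le_rel _ _, ?_⟩⟩, ?_⟩
  · have := key i
    split_ifs at this
    · exact Or.inr ((mem_piN_compl hp).mp this)
    · exact Or.inl (exists_pow_of_piN this)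
  · have h1 : {i | i < 2 * k + 1 ∧ ∃ e : ℕ, 0 < e ∧
        (upper p G i).relIndex (upper p G (i + 1)) = p ^ e} ⊆
        (fun j => 2 * j + 1) '' Set.Iio k := by
      rintro i ⟨hi, e, he, h2⟩
      obtain h3 | ⟨j, rfl⟩ := Nat.even_or_odd i
      · have h4 := key i
        rw [if_pos h3, h2] at h4
        exact absurd rfl (h4.2 p hp (dvd_pow_self p he.ne'))
      · exact ⟨j, by simp only [Set.mem_Iio]; omega, rfl⟩
    refine (Set.ncard_le_ncard h1 ((Set.finite_Iio k).image _)).trans ?_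
    refine (Set.ncard_image_le (Set.finite_Iio k)).trans ?_
    simp

omit [Finite G] in
lemma L_of_series (hp : p.Prime) {m : ℕ} {s : ℕ → Subgroup G} (h : IsPSeries p m s) :
    L {p} (⊥ : Subgroup G)
      {i | i < m ∧ ∃ e : ℕ, 0 < e ∧ (s i).relIndex (s (i + 1)) = p ^ e}.ncard := by
  obtain ⟨h0, hm, hn, hs⟩ := h
  have key : ∀ j ≤ m, s j ≤ U {p}
      {i | i < j ∧ ∃ e : ℕ, 0 < e ∧ (s i).relIndex (s (i + 1)) = p ^ e}.ncard ⊥ := by
    intro j
    induction j with
    | zero => exact fun _ => h0.le.trans bot_le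
    | succ j ih =>
      intro hj
      have h1 := ih (by omega)
      have := hn j (by omega)
      have hfin : ∀ t, {i | i < t ∧
          ∃ e : ℕ, 0 < e ∧ (s i).relIndex (s (i + 1)) = p ^ e}.Finite := fun t =>
        (Set.finite_Iio t).subset fun i hi => hi.1
      by_cases hP : ∃ e : ℕ, 0 < e ∧ (s j).relIndex (s (j + 1)) = p ^ e
      · have h2 := Set.ncard_lt_ncard (s := {i | i < j ∧
          ∃ e : ℕ, 0 < e ∧ (s i).relIndex (s (i + 1)) = p ^ e})
          ⟨fun i hi => And.intro (Nat.lt_succ_of_lt hi.1) hi.2,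
            fun hc => lt_irrefl j (hc (And.intro (Nat.lt_succ_self j) hP)).1⟩ (hfin (j + 1))
        obtain ⟨e, -, he⟩ := hP
        refine le_trans ?_ (U_mono_left h2 ⊥)
        exact ((le_rel (hn _ hj) (pw_of_relIndex (he ▸ pow_mem_piN hp e))).trans
          (rel_mono _ h1)).trans (self_le_rel _ _)
      · have h2 := Set.ncard_le_ncard (s := {i | i < j ∧
          ∃ e : ℕ, 0 < e ∧ (s i).relIndex (s (i + 1)) = p ^ e})
          (fun i hi => And.intro (Nat.lt_succ_of_lt hi.1) hi.2) (hfin (j + 1))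
        have h3 : ((s j).relIndex (s (j + 1))).Coprime p := by
          obtain ⟨e, he⟩ | h3 := (hs j hj).2
          · obtain rfl : e = 0 := by
              by_contra hc
              exact hP ⟨e, Nat.pos_of_ne_zero hc, he⟩
            rw [he, pow_zero]
            exact Nat.coprime_one_left p
          · exact h3
        refine le_trans ?_ (U_mono_left h2 ⊥)
        rw [← rel_U]
        exact (le_rel (hn _ hj) (pw_of_relIndex ((mem_piN_compl hp).mpr h3))).trans
          (rel_mono _ h1)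
  exact eq_top_iff.mpr (hm ▸ key m le_rfl)

lemma pLength_le (hp : p.Prime) {k : ℕ} (h : L {p} (⊥ : Subgroup G) k) : pLength p G ≤ k := by
  obtain ⟨m, s, hs, h1⟩ := exists_series hp h
  refine le_trans (Nat.sInf_le ?_) h1
  exact ⟨m, s, hs, rfl⟩

lemma L_pLength (hp : p.Prime) (h : IsPSolvable p G) : L {p} (⊥ : Subgroup G) (pLength p G) := by
  obtain ⟨k, hk⟩ := h.exists_L hp
  obtain ⟨m, s, hs, -⟩ := exists_series hp hk
  obtain ⟨m', s', hs', h1⟩ := Nat.sInf_mem (s := {k | ∃ (m : ℕ) (s : ℕ → Subgroup G),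
    IsPSeries p m s ∧
      k = {i | i < m ∧ ∃ e : ℕ, 0 < e ∧ (s i).relIndex (s (i + 1)) = p ^ e}.ncard})
    ⟨_, m, s, hs, rfl⟩
  rw [pLength, h1]
  exact L_of_series hp hs'

variable (p) [hp : Fact p.Prime] (F : Type) [Field F] [Finite F] [CharP F p] (n : ℕ)

omit [Finite F] in
lemma solvLe_GL : SolvLe {p} (GL (Fin n) F) (Nat.log (max p 3) n + 2) := by
  intro H _ _ _ f hf
  let σ : H →* Module.End F (Fin n → F) :=
    (Matrix.toLinAlgEquiv' : Matrix (Fin n) (Fin n) F ≃ₐ[F] _).toRingEquiv.toRingHom.toMonoidHom.comp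
      ((Units.coeHom _).comp f)
  have hσ : σ.ker = ⊥ := (MonoidHom.ker_eq_bot_iff σ).mpr
    (Matrix.toLinAlgEquiv'.injective.comp (Units.val_injective.comp hf))
  obtain ⟨V, _, _, _, ρ, h1, h2⟩ := exists_rep_aux (L := AlgebraicClosure F) σ
  rw [Module.finrank_fin_fun] at h2
  by_cases h : p = 2
  · subst h
    have h3 := LH_all (π := {2}ᶜ) (b := 3) le_rfl (fun r hr h4 => by
      have := hr.two_le
      have : r ≠ 2 := h4
      omega) _ H rfl (AlgebraicClosure F) 2 V ρ
    rw [h1, h2, hσ] at h3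
    have h4 := (L.of_rel' (h3.mono (rel_mono_left (powers_le_piN Nat.prime_two (by simp)) _))).compl
    rwa [compl_compl] at h4
  · have h5 : 3 ≤ p := by
      have := hp.out.two_le
      omega
    have h3 := LH_all (π := {p}) (b := p) h5 (fun r _ h4 => le_of_eq h4.symm) _ H rfl
      (AlgebraicClosure F) p V ρ
    rw [h1, h2, hσ] at h3
    rw [max_eq_left h5]
    exact L.of_rel (h3.mono (rel_mono_left (powers_le_piN hp.out (Set.mem_singleton p)) _))

lemma pLength_le_log (H : Subgroup (GL (Fin n) F)) (h : IsPSolvable p H) :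
    pLength p H ≤ Nat.log (max p 3) n + 2 := by
  refine pLength_le hp.out (SH_all p _ H rfl _ _ (L_pLength hp.out h) fun K _ _ _ f hf => ?_)
  exact solvLe_GL p F n K (H.subtype.comp f) ((subtype_injective _).comp hf)

theorem maxLength_le : maxLength p F n ≤ Nat.log (max p 3) n + 2 :=
  csSup_le' (by
    rintro _ ⟨H, h, rfl⟩
    exact pLength_le_log p F n H h)

theorem le_maxLength (hn : n ≠ 0) : Nat.log (max p 3) n ≤ maxLength p F n + 1 := by
  have key : ∃ (Ω W : Type) (_ : Group W) (_ : Finite W) (_ : Group.IsSolvable W)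
      (φ : W →* Equiv.Perm Ω), Function.Injective φ ∧
        Nat.card Ω = max p 3 ^ Nat.log (max p 3) n ∧
        ∀ l, L {p} (⊥ : Subgroup W) l → Nat.log (max p 3) n ≤ l + 1 := by
    by_cases h : p = 2
    · subst h
      obtain ⟨Ω, W, _, _, _, φ, h1, h2, h3⟩ := exists_long (π := {2}ᶜ) (b := 3) le_rfl
        (prime_mem_piN Nat.prime_three (by simp)) (prime_mem_piN Nat.prime_two (by simp))
        (Nat.log 3 n)
      exact ⟨Ω, W, _, ‹_›, ‹_›, φ, h1, h2, fun l hl => h3 _ hl.compl⟩
    · have h5 : 3 ≤ p := by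
        have := hp.out.two_le
        omega
      rw [max_eq_left h5]
      obtain ⟨Ω, W, _, _, _, φ, h1, h2, h3⟩ := exists_long (π := {p}) (b := p) h5
        (prime_mem_piN hp.out (Set.mem_singleton p)) (prime_mem_piN Nat.prime_two (Ne.symm h)) (Nat.log p n)
      exact ⟨Ω, W, _, ‹_›, ‹_›, φ, h1, h2, fun l hl => (h3 _ hl).trans (Nat.le_succ l)⟩
  obtain ⟨Ω, W, _, _, _, φ, h1, h2, h3⟩ := key
  have : Finite Ω := Nat.finite_of_card_ne_zero (by rw [h2]; positivity)
  obtain ⟨ι⟩ : Nonempty (Ω ↪ Fin n) := by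
    have := Fintype.ofFinite Ω
    refine Function.Embedding.nonempty_of_card_le ?_
    rw [← Nat.card_eq_fintype_card, h2, Fintype.card_fin]
    exact Nat.pow_log_le_self _ hn
  let τ : Equiv.Perm (Fin n) →* GL (Fin n) F := Matrix.permMatrixHom.toHomUnits
  have hτ : Function.Injective τ := by
    rw [injective_iff_map_eq_one]
    intro σ hσ
    have h4 : σ⁻¹.permMatrix F = 1 := congrArg Units.val hσ
    rw [← inv_eq_one]
    ext i
    by_contra hc
    have h5 := congrFun (congrFun h4 i) i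
    rw [Matrix.one_apply_eq] at h5
    simp only [PEquiv.toMatrix_apply, Equiv.toPEquiv_apply, Option.mem_def,
      Option.some.injEq] at h5
    rw [if_neg (show ¬ σ⁻¹ i = i from fun h => hc (congrArg Fin.val h))] at h5
    exact zero_ne_one h5
  let f : W →* GL (Fin n) F := τ.comp ((Equiv.Perm.viaEmbeddingHom ι).comp φ)
  have hf : Function.Injective f :=
    hτ.comp ((Equiv.Perm.viaEmbeddingHom_injective ι).comp h1)
  have : Group.IsSolvable f.range := Group.isSolvable_of_surjective f.rangeRestrict_surjective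
  have h4 : IsPSolvable p f.range := isPSolvable_of_solvable hp.out
  have h5 := (L_pLength hp.out h4).comap f.rangeRestrict
  rw [comap_bot_of_injective _ (MonoidHom.rangeRestrict_injective_iff.mpr hf)] at h5
  refine (h3 _ h5).trans (Nat.succ_le_succ (le_csSup ⟨Nat.log (max p 3) n + 2, ?_⟩ ⟨_, h4, rfl⟩))
  rintro _ ⟨H, h, rfl⟩
  exact pLength_le_log p F n H h

end Pool.Agent.Work.MP_d3ab46_al
end
end

-- merged part: Pool.Agent.Work.MP_d3ab46_al.Hedge.Up
section
-- merged part: Pool.Agent.Work.MP_d3ab46_al.Hedge.Base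
section
/-!
Common tools for the exact value of the largest `2`-length in characteristic two.
-/

namespace Pool.Agent.Work.MP_d3ab46_al

open Subgroup Module Pool.Agent.Work.MP_36bee3_al

section General

variable {G : Type*} [Group G] {π : Set ℕ}

lemma inf_rel_le [Finite G] (S : Submonoid ℕ) (D D' : Subgroup G) [D.Normal] [D'.Normal] :
    rel S D ⊓ rel S D' ≤ rel S (D ⊓ D') := by
  refine le_rel inferInstance fun x hx => ?_
  obtain ⟨m, hm, h1⟩ := pw_rel S D x hx.1
  obtain ⟨n, hn, h2⟩ := pw_rel S D' x hx.2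
  exact ⟨m * n, mul_mem hm hn, by rw [pow_mul]; exact pow_mem h1 n,
    by rw [mul_comm, pow_mul]; exact pow_mem h2 m⟩

lemma L.le_U {D K : Subgroup G} [D.Normal] [hK : K.Normal] {a : ℕ}
    (h : L π (D.subgroupOf K) a) : K ≤ U π a D := by
  intro x hx
  have h4 := U_comap (π := π) a K.subtype (subtype_injective _) (by rwa [range_subtype]) D
  have h5 : (⟨x, hx⟩ : K) ∈ U π a (D.comap K.subtype) := by
    have h6 : U π a (D.comap K.subtype) = ⊤ := h
    rw [h6]
    trivial
  rw [h4] at h5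
  exact h5

lemma L.of_U {D : Subgroup G} [D.Normal] {a b : ℕ} (h : L π (U π a D) b) : L π D (a + b) := by
  rwa [L, U_add] at h

/-- Without a `π`-layer at the bottom, the `π`-length is at most the `π'`-length. -/
lemma L.of_compl {D : Subgroup G} [D.Normal] {l : ℕ} (hD : rel (piN π) D ≤ D)
    (h : L πᶜ D l) : L π D l := by
  obtain _ | l := l
  · have h1 : rel (piN πᶜᶜ) D = ⊤ := h
    rw [compl_compl] at h1
    exact (L.top 0).mono (h1.ge.trans hD)
  · have h1 := h.rel_rel
    rw [compl_compl] at h1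
    have h2 := (h1.mono (rel_mono _ hD)).compl
    rw [compl_compl] at h2
    exact h2.of_rel'

lemma rel_piN_powers (r : ℕ) (D : Subgroup G) [D.Normal] :
    rel (piN {r}) (rel (Submonoid.powers r) D) ≤ rel (Submonoid.powers r) D := by
  refine (rel_mono_left (fun n hn => ?_) _).trans (rel_idem _ _).le
  obtain ⟨k, rfl⟩ := exists_pow_of_piN hn
  exact ⟨k, rfl⟩

lemma iInf_rel_subgroupOf [Finite G] (S : Submonoid ℕ) {X K : Subgroup G} [X.Normal] [K.Normal]
    {ι : Sort*} (D : ι → Subgroup K) (hD : ∀ i, (D i).Normal) (h : ⨅ i, D i ≤ X.subgroupOf K) :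
    ⨅ i, rel S (D i) ≤ (rel S X).subgroupOf K := by
  refine (iInf_rel_le _ _ hD).trans ?_
  rw [subgroupOf, ← rel_comap _ K.subtype (subtype_injective _)
    (by rw [range_subtype]; infer_instance)]
  exact rel_mono _ h

lemma two_mem_piN : 2 ∈ piN {2} := prime_mem_piN Nat.prime_two (Set.mem_singleton 2)

lemma powers_two_le : Submonoid.powers 2 ≤ piN ({2} : Set ℕ)ᶜᶜ :=
  powers_le_piN Nat.prime_two (by simp)

lemma three_le_of_odd : ∀ r : ℕ, r.Prime → r ∈ ({2} : Set ℕ)ᶜ → 3 ≤ r := fun r hr h4 => by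
  have := hr.two_le
  have : r ≠ 2 := h4
  omega

lemma card_lt_of_ne_top [Finite G] {K : Subgroup G} (h : K ≠ ⊤) : Nat.card K < Nat.card G :=
  lt_of_le_of_ne (card_le_card_group K) fun h' => h ((card_eq_iff_eq_top K).mp h')

end General

/-- The odd length of a permutation group. -/
lemma PH0 (G : Type) [Group G] [Finite G] [Group.IsSolvable G] (Ω : Type) [Finite Ω]
    [MulAction G Ω] : L {2}ᶜ (MulAction.toPermHom G Ω).ker (Nat.log 3 (Nat.card Ω)) :=
  PH_all le_rfl three_le_of_odd _ G rfl Ω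

/-- The odd length of a linear group over any field of prime characteristic. -/
lemma LH0 (G : Type) [Group G] [Finite G] [Group.IsSolvable G] (F : Type) [Field F] (c : ℕ)
    [Fact c.Prime] [CharP F c] (V : Type) [AddCommGroup V] [Module F V] [FiniteDimensional F V]
    (ρ : G →* End F V) :
    L {2}ᶜ (rel (Submonoid.powers c) ρ.ker) (Nat.log 3 (finrank F V) + 1) := by
  obtain ⟨V', _, _, _, ρ', h1, h2⟩ := exists_rep_aux (L := AlgebraicClosure F) ρ
  have h3 := LH_all le_rfl three_le_of_odd _ G rfl (AlgebraicClosure F) c V' ρ'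
  rwa [h1, h2] at h3

section Rep

variable {G : Type} [Group G] {F : Type} [Field F] {V : Type} [AddCommGroup V] [Module F V]

/-- No proper nonzero invariant subspace. -/
def Irr (ρ : G →* End F V) : Prop :=
  ∀ W : Submodule F V, (∀ g, W ≤ W.comap (ρ g)) → W = ⊥ ∨ W = ⊤

lemma red_le (c : ℕ) [CharP F c] (ρ : G →* End F V) (W : Submodule F V)
    (hW : ∀ g, W ≤ W.comap (ρ g)) :
    rel (Submonoid.powers c) (Representation.subrepresentation ρ W hW).ker ⊓
      rel (Submonoid.powers c) (Representation.quotient ρ W hW).ker ≤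
        rel (Submonoid.powers c) ρ.ker := by
  refine le_rel inferInstance fun g hg => ?_
  obtain ⟨n₁, hn₁, h4⟩ := pw_rel _ _ g hg.1
  obtain ⟨n₂, hn₂, h5⟩ := pw_rel _ _ g hg.2
  refine ⟨n₁ * n₂ * c, mul_mem (mul_mem hn₁ hn₂) (Submonoid.mem_powers c), ?_⟩
  have h6 : ∀ w ∈ W, ρ (g ^ (n₁ * n₂)) w = w := fun w hw => by
    rw [pow_mul]
    exact congrArg Subtype.val
      (LinearMap.congr_fun (MonoidHom.mem_ker.mp (pow_mem h4 n₂)) ⟨w, hw⟩)
  have h7 : ∀ v, ρ (g ^ (n₁ * n₂)) v - v ∈ W := fun v => by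
    rw [mul_comm, pow_mul, ← Submodule.Quotient.eq]
    exact LinearMap.congr_fun (MonoidHom.mem_ker.mp (pow_mem h5 n₁))
      (Submodule.Quotient.mk v)
  rw [MonoidHom.mem_ker, pow_mul, map_pow]
  set T := ρ (g ^ (n₁ * n₂)) with hT
  have h8 : ∀ (k : ℕ) (v : V), (T ^ k) v = v + (k : F) • (T v - v) := by
    intro k v
    induction k with
    | zero => simp
    | succ k ihk =>
      rw [pow_succ', Module.End.mul_apply, ihk, map_add, map_smul, h6 _ (h7 v)]
      push_cast
      rw [add_smul, one_smul]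
      abel
  ext v
  rw [h8, CharP.cast_eq_zero]
  simp

end Rep

/-- A bound in terms of the degree with the closure properties used by the induction. -/
structure Cls (P : ℕ → ∀ (G : Type) [Group G], Subgroup G → Prop) : Prop where
  up : ∀ {d d' : ℕ} {G : Type} [Group G] {D : Subgroup G} [D.Normal], d ≤ d' → P d G D → P d' G D
  mono : ∀ {d : ℕ} {G : Type} [Group G] {D D' : Subgroup G}, D ≤ D' → P d G D → P d G D'
  inf : ∀ {d : ℕ} {G : Type} [Group G] [Finite G] {D D' : Subgroup G} [D.Normal] [D'.Normal],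
    P d G D → P d G D' → P d G (D ⊓ D')
  comap : ∀ {d : ℕ} {G H : Type} [Group G] [Group H] {D : Subgroup G} [D.Normal] (f : H →* G),
    P d G D → P d H (D.comap f)
  top : ∀ (d : ℕ) (G : Type) [Group G], P d G ⊤

/-- The bound for all representations of `G` over `F`. -/
def St (F : Type) [Field F] (c : ℕ) (P : ℕ → ∀ (G : Type) [Group G], Subgroup G → Prop)
    (G : Type) [Group G] : Prop :=
  ∀ (V : Type) [AddCommGroup V] [Module F V] [FiniteDimensional F V] (ρ : G →* End F V),
    P (finrank F V) G (rel (Submonoid.powers c) ρ.ker)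

theorem St_all (F : Type) [Field F] (c : ℕ) [CharP F c]
    {P : ℕ → ∀ (G : Type) [Group G], Subgroup G → Prop} (hP : Cls P)
    (h : ∀ (G : Type) [Group G] [Finite G] [Group.IsSolvable G],
      (∀ (G' : Type) [Group G'] [Finite G'] [Group.IsSolvable G'],
        Nat.card G' < Nat.card G → St F c P G') →
      ∀ (V : Type) [AddCommGroup V] [Module F V] [FiniteDimensional F V] [Nontrivial V]
        (ρ : G →* End F V), ρ.ker = ⊥ → Irr ρ →
          P (finrank F V) G (rel (Submonoid.powers c) ⊥))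
    (G : Type) [Group G] [Finite G] [Group.IsSolvable G] : St F c P G := by
  induction hG : Nat.card G using Nat.strong_induction_on generalizing G with
  | _ n ih =>
    have ih' : ∀ (G' : Type) [Group G'] [Finite G'] [Group.IsSolvable G'],
        Nat.card G' < Nat.card G → St F c P G' := fun G' _ _ _ h => ih _ (hG ▸ h) G' rfl
    intro V _ _ _ ρ
    induction hm : finrank F V using Nat.strong_induction_on generalizing V with
    | _ m ihm =>
      subst hm
      by_cases hρ : ρ.ker = ⊥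
      swap
      · have h1 : Nat.card (G ⧸ ρ.ker) < Nat.card G := by
          rw [← index_mul_card ρ.ker]
          have h1 : 1 < Nat.card ρ.ker := (one_lt_card_iff_ne_bot _).mpr hρ
          have h2 : 0 < ρ.ker.index := Nat.pos_of_ne_zero index_ne_zero_of_finite
          change ρ.ker.index < _
          nlinarith
        have h2 := ih' (G ⧸ ρ.ker) h1 V (QuotientGroup.lift ρ.ker ρ le_rfl)
        refine hP.mono ((comap_rel_le _ _ _).trans (rel_mono _ ?_))
          (hP.comap (QuotientGroup.mk' ρ.ker) h2)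
        intro g hg
        exact hg
      rcases subsingleton_or_nontrivial V with hV | hV
      · refine hP.mono (le_trans (fun g _ => ?_) (self_le_rel _ _)) (hP.top _ G)
        exact Subsingleton.elim _ _
      by_cases hirr : Irr ρ
      · rw [hρ]
        exact h G ih' V ρ hρ hirr
      unfold Irr at hirr
      push Not at hirr
      obtain ⟨W, hW, hW0, hW1⟩ := hirr
      have hsum := Submodule.finrank_quotient_add_finrank W
      have hlt : finrank F W < finrank F V := Submodule.finrank_lt hW1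
      have hpos : 0 < finrank F W := by
        have : Nontrivial W := Submodule.nontrivial_iff_ne_bot.mpr hW0
        exact finrank_pos
      have h1 := ihm _ hlt W (Representation.subrepresentation ρ W hW) rfl
      have h2 := ihm (finrank F (V ⧸ W)) (by omega) (V ⧸ W) (Representation.quotient ρ W hW) rfl
      exact hP.mono (red_le c ρ W hW) (hP.inf (hP.up hlt.le h1) (hP.up (by omega) h2))

/-- The bound for the odd length of linear groups over the field with two elements. -/
def T2 : Prop :=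
  ∀ (G : Type) [Group G] [Finite G] [Group.IsSolvable G] (V : Type) [AddCommGroup V]
    [Module (ZMod 2) V] [FiniteDimensional (ZMod 2) V] (ρ : G →* End (ZMod 2) V) (l : ℕ),
    finrank (ZMod 2) V < 2 * 3 ^ l → L {2}ᶜ (rel (Submonoid.powers 2) ρ.ker) l

/-- The bound for linear groups of degree at most four over the field with three elements. -/
def T3 : Prop :=
  ∀ (G : Type) [Group G] [Finite G] [Group.IsSolvable G] (V : Type) [AddCommGroup V]
    [Module (ZMod 3) V] [FiniteDimensional (ZMod 3) V] (ρ : G →* End (ZMod 3) V),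
    finrank (ZMod 3) V ≤ 4 → L {2} (rel (piN {2}) (rel (Submonoid.powers 3) ρ.ker)) 1

/-- The refined bound for permutation groups. -/
def P2 : Prop :=
  ∀ (G : Type) [Group G] [Finite G] [Group.IsSolvable G] (Ω : Type) [Finite Ω] [MulAction G Ω]
    (n : ℕ), Nat.card Ω < 4 * 3 ^ n →
      L {2}ᶜ (rel (piN {2}ᶜ) (MulAction.toPermHom G Ω).ker) n

/-- The bound for the `2`-length of linear groups over closed fields of characteristic two. -/
def L2 : Prop :=
  ∀ (G : Type) [Group G] [Finite G] [Group.IsSolvable G] (F : Type) [Field F] [IsAlgClosed F]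
    [CharP F 2] (V : Type) [AddCommGroup V] [Module F V] [FiniteDimensional F V]
    (ρ : G →* End F V) (l : ℕ),
    3 * finrank F V < 4 * 3 ^ l → L {2} (rel (Submonoid.powers 2) ρ.ker) l

/-- The representation is induced from blocks: `G / K` acts on `t ≥ 2` points, and `K` acts on
subspaces of dimension `e` with `t * e` at most the degree. -/
def Dec {G : Type} [Group G] {F : Type} [Field F] {V : Type} [AddCommGroup V] [Module F V]
    (ρ : G →* End F V) : Prop :=
  ∃ (K : Subgroup G) (_ : K.Normal) (t e : ℕ), K ≠ ⊤ ∧ 2 ≤ t ∧ 1 ≤ e ∧ t * e ≤ finrank F V ∧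
    (∃ (Ω : Type) (_ : Finite Ω) (_ : MulAction G Ω),
      Nat.card Ω = t ∧ (MulAction.toPermHom G Ω).ker = K) ∧
    ∃ (ι : Type) (W : ι → Submodule F V) (σ : ∀ i, K →* End F (W i)),
      (∀ i, finrank F (W i) = e) ∧ ⨅ i, (σ i).ker ≤ ρ.ker.subgroupOf K

end Pool.Agent.Work.MP_d3ab46_al
end

-- merged part: Pool.Agent.Work.MP_d3ab46_al.Hedge.Dec
section
/-!
An abelian normal subgroup of an irreducible linear group either acts homogeneously or gives a
system of blocks.
-/

namespace Pool.Agent.Work.MP_d3ab46_al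

open Subgroup Module Pool.Agent.Work.MP_36bee3_al
open scoped Pointwise

variable {G : Type} [Group G] {F : Type} [Field F] {V : Type} [AddCommGroup V] [Module F V]

lemma card_mul_le_of_indep [FiniteDimensional F V] {O : Type*} [Finite O] (w : O → Submodule F V)
    (hw : iSupIndep w) (d : ℕ) (hd : ∀ o, d ≤ finrank F (w o)) : Nat.card O * d ≤ finrank F V := by
  classical
  have := Fintype.ofFinite O
  have h2 := LinearMap.finrank_le_finrank_of_injective hw.dfinsupp_lsum_injective
  have h3 : finrank F (DirectSum O fun o => w o) = ∑ o, finrank F (w o) := finrank_directSum F _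
  refine le_trans ?_ (h3 ▸ h2)
  rw [Nat.card_eq_fintype_card, ← Finset.card_univ, ← smul_eq_mul]
  exact Finset.card_nsmul_le_sum _ _ _ fun o _ => hd o

lemma indep_of_ops {O : Type*} (w : O → Submodule F V)
    (h : ∀ i j, i ≠ j → ∃ T : End F V, (∀ v ∈ w j, T v = 0) ∧ (∀ k, ∀ v ∈ w k, T v ∈ w k) ∧
      ∀ v ∈ w i, T v = 0 → v = 0) : iSupIndep w := by
  classical
  rw [iSupIndep_iff_finsetSum_eq_zero_imp_eq_zero]
  intro s
  induction s using Finset.induction_on with
  | empty => simp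
  | insert j s hj ih =>
    intro v hv hs
    rw [Finset.sum_insert hj] at hs
    have h1 : ∀ i ∈ s, v i = 0 := by
      intro i hi
      obtain ⟨T, h1, h2, h3⟩ := h i j fun e => hj (e ▸ hi)
      have h4 := congrArg T hs
      rw [map_add, h1 _ (hv j (Finset.mem_insert_self _ _)), zero_add, map_sum, map_zero] at h4
      exact h3 _ (hv i (Finset.mem_insert_of_mem hi)) (ih (fun k => T (v k))
        (fun k hk => h2 k _ (hv k (Finset.mem_insert_of_mem hk))) h4 i hi)
    intro i hi
    rcases Finset.mem_insert.mp hi with rfl | hi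
    · rwa [Finset.sum_eq_zero h1, add_zero] at hs
    · exact h1 i hi

lemma dec_of_family [Finite G] [FiniteDimensional F V] (ρ : G →* End F V) (hirr : Irr ρ)
    {X : Type} [MulAction G X] (w : X → Submodule F V)
    (hw : ∀ (g : G) (x : X), ∀ v ∈ w x, ρ g v ∈ w (g • x)) (x₀ : X) (h0 : w x₀ ≠ ⊥)
    (hind : iSupIndep fun x : MulAction.orbit G x₀ => w x.1) : w x₀ = ⊤ ∨ Dec ρ := by
  let Ω : Type := MulAction.orbit G x₀
  have : Finite Ω := (Set.finite_range _).to_subtype
  let ω₀ : Ω := ⟨x₀, MulAction.mem_orbit_self x₀⟩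
  have hspan : ⨆ x : Ω, w x.1 = ⊤ := by
    refine (hirr _ fun g => iSup_le fun x v hv => ?_).resolve_left fun h => ?_
    · exact Submodule.mem_iSup_of_mem (g • x) (hw g x.1 v hv)
    · exact h0 (eq_bot_iff.mpr ((le_iSup (fun x : Ω => w x.1) ω₀).trans h.le))
  set K := (MulAction.toPermHom G Ω).ker with hK
  have hKmem : ∀ g ∈ K, ∀ x : Ω, g • x.1 = x.1 := fun g hg x =>
    congrArg Subtype.val (Equiv.ext_iff.mp (MonoidHom.mem_ker.mp hg) x)
  by_cases hKtop : K = ⊤
  · refine Or.inl ((hirr _ fun g v hv => ?_).resolve_left h0)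
    have h1 := hw g x₀ v hv
    rwa [hKmem g (hKtop ▸ mem_top g) ω₀] at h1
  right
  have hle : ∀ (g : G) (x : X), finrank F (w x) ≤ finrank F (w (g • x)) := by
    intro g x
    refine LinearMap.finrank_le_finrank_of_injective (f := (ρ g).restrict (hw g x)) ?_
    rw [injective_iff_map_eq_zero]
    intro v hv
    by_contra h
    exact rho_ne_zero ρ g (fun h' => h (Subtype.ext h')) (congrArg Subtype.val hv)
  have hdim : ∀ x : Ω, finrank F (w x.1) = finrank F (w x₀) := by
    rintro ⟨_, g, rfl⟩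
    refine le_antisymm ?_ (hle g x₀)
    have := hle g⁻¹ (g • x₀)
    rwa [inv_smul_smul] at this
  let σ : ∀ x : Ω, K →* End F (w x.1) := fun x =>
    Representation.subrepresentation (ρ.comp K.subtype) (w x.1) fun k v hv => by
      have := hw k x.1 v hv
      rwa [hKmem k k.2 x] at this
  refine ⟨K, inferInstance, Nat.card Ω, finrank F (w x₀), hKtop, ?_, ?_,
    card_mul_le_of_indep _ hind _ fun x => (hdim x).ge, ⟨Ω, inferInstance, inferInstance, rfl, rfl⟩,
    Ω, fun x => w x.1, σ, hdim, fun k hk => ?_⟩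
  · by_contra h
    have : Subsingleton Ω := Finite.card_le_one_iff_subsingleton.mp (by omega)
    exact hKtop (eq_top_iff.mpr fun g _ => Subsingleton.elim _ _)
  · have : Nontrivial (w x₀) := Submodule.nontrivial_iff_ne_bot.mpr h0
    exact finrank_pos
  · have h1 : (⨆ x : Ω, w x.1) ≤ LinearMap.eqLocus (ρ k) 1 := iSup_le fun x v hv =>
      congrArg Subtype.val (LinearMap.congr_fun (MonoidHom.mem_ker.mp (mem_iInf.mp hk x)) ⟨v, hv⟩)
    rw [hspan, top_le_iff] at h1
    exact LinearMap.eqLocus_eq_top.mp h1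

lemma wt_conj (ρ : G →* End F V) (A : Subgroup G) [A.Normal] (g : G) (χ : A → F) :
    ∀ v ∈ wt (fun a : A => ρ a) χ,
      ρ g v ∈ wt (fun a : A => ρ a) fun a => χ (MulAut.conjNormal g⁻¹ a) := by
  intro v hv
  rw [mem_wt] at hv ⊢
  intro a
  have h1 := hv (MulAut.conjNormal g⁻¹ a)
  rw [← map_smul, ← h1]
  simp only [MulAut.conjNormal_apply, inv_inv]
  rw [← Module.End.mul_apply, ← Module.End.mul_apply, ← map_mul, ← map_mul]
  congr 2
  group

theorem weight_dec [Finite G] [IsAlgClosed F] [FiniteDimensional F V] [Nontrivial V]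
    (ρ : G →* End F V) (hirr : Irr ρ) (A : Subgroup G) [A.Normal] (hA : A ≤ centralizer A) :
    (∃ χ : A → F, wt (fun a : A => ρ a) χ = ⊤) ∨ Dec ρ := by
  have hf := commute_rho ρ hA
  obtain ⟨χ₀, v₀, hv₀, hv0⟩ := exists_wt (fun a : A => ρ a) hf
  let _ : MulAction G (A → F) :=
    { smul := fun g χ a => χ (MulAut.conjNormal g⁻¹ a)
      one_smul := fun χ => funext fun a => by
        change χ (MulAut.conjNormal (1 : G)⁻¹ a) = χ a
        simp
      mul_smul := fun g h χ => funext fun a => by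
        change χ (MulAut.conjNormal (g * h)⁻¹ a) =
          χ (MulAut.conjNormal h⁻¹ (MulAut.conjNormal g⁻¹ a))
        simp }
  exact (dec_of_family ρ hirr (wt fun a : A => ρ a) (wt_conj ρ A) χ₀
    ((Submodule.ne_bot_iff _).mpr ⟨v₀, hv₀, hv0⟩)
    ((iSupIndep_wt _ hf).comp Subtype.val_injective)).imp_left fun h => ⟨χ₀, h⟩

/-- The vectors fixed by a subgroup. -/
def fixd (ρ : G →* End F V) (B : Subgroup G) : Submodule F V where
  carrier := {v | ∀ b ∈ B, ρ b v = v}
  add_mem' hu hv b hb := by rw [map_add, hu b hb, hv b hb]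
  zero_mem' b _ := map_zero _
  smul_mem' c v hv b hb := by rw [map_smul, hv b hb]

theorem kernel_dec [Finite G] [FiniteDimensional F V] (ρ : G →* End F V) (hρ : ρ.ker = ⊥)
    (hirr : Irr ρ) (A : Subgroup G) [hAn : A.Normal] (hA : A ≤ centralizer A) :
    (∀ a ∈ A, a ≠ 1 → ∀ v, ρ a v = v → v = 0) ∨ Dec ρ := by
  by_contra hcon
  rw [not_or] at hcon
  obtain ⟨h1, hD⟩ := hcon
  push Not at h1
  obtain ⟨a, ha, ha1, v₀, hv₀, hv0⟩ := h1
  have hfix : ∀ (B : Subgroup G) (b : G) (v : V), v ∈ fixd ρ B → ρ b v = v →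
      v ∈ fixd ρ (B ⊔ zpowers b) := by
    intro B b v hv hb
    let S : Subgroup G :=
      { carrier := {g | ρ g v = v}
        one_mem' := by simp
        mul_mem' := fun {x y} hx hy => by
          change ρ (x * y) v = v
          rw [map_mul, Module.End.mul_apply, hy, hx]
        inv_mem' := fun {x} hx => by
          change ρ x⁻¹ v = v
          conv_lhs => rw [← show ρ x v = v from hx]
          rw [← Module.End.mul_apply, ← map_mul, inv_mul_cancel, map_one, Module.End.one_apply] }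
    exact fun g hg => (sup_le (show B ≤ S from hv) (zpowers_le.mpr (show b ∈ S from hb))) hg
  obtain ⟨B, hB, hmax⟩ := Finite.exists_le_maximal
    (p := fun B : Subgroup G => B ≤ A ∧ ∃ v ∈ fixd ρ B, v ≠ 0) (a := ⊥ ⊔ zpowers a)
    ⟨sup_le bot_le (zpowers_le.mpr ha), v₀,
      hfix ⊥ a v₀ (fun b hb => by simp [mem_bot.mp hb]) hv₀, hv0⟩
  let _ : MulAction G (Subgroup G) := MulAction.compHom _ (MulAut.conj : G →* MulAut G)
  have hsm : ∀ (g : G) (C : Subgroup G) (x : G), x ∈ g • C ↔ g⁻¹ * x * g ∈ C := fun g C x => by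
    change x ∈ MulAut.conj g • C ↔ _
    rw [mem_pointwise_smul_iff_inv_smul_mem]
    simp
  have hcj : ∀ (g x : G) (v : V), ρ x (ρ g v) = ρ g (ρ (g⁻¹ * x * g) v) := fun g x v => by
    rw [← Module.End.mul_apply, ← Module.End.mul_apply, ← map_mul, ← map_mul]
    congr 2
    group
  have hw : ∀ (g : G) (C : Subgroup G), ∀ v ∈ fixd ρ C, ρ g v ∈ fixd ρ (g • C) :=
    fun g C v hv x hx => by rw [hcj, hv _ ((hsm g C x).mp hx)]
  have hmx : ∀ C : MulAction.orbit G B, C.1 ≤ A ∧ (∃ v ∈ fixd ρ C.1, v ≠ 0) ∧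
      ∀ b ∈ A, ∀ v ∈ fixd ρ C.1, v ≠ 0 → ρ b v = v → b ∈ C.1 := by
    rintro ⟨_, g, rfl⟩
    obtain ⟨h1, v, hv, hv'⟩ := hmax.prop
    refine ⟨fun x hx => ?_, ⟨ρ g v, hw g B v hv, rho_ne_zero ρ g hv'⟩, fun b hb u hu hu0 h2 => ?_⟩
    · simpa [mul_assoc] using hAn.conj_mem _ (h1 ((hsm g B x).mp hx)) g
    · have h3 := hw g⁻¹ _ u hu
      rw [inv_smul_smul] at h3
      have h4 : g⁻¹ * b * g ∈ A := by simpa using hAn.conj_mem _ hb g⁻¹
      have h5 : ρ (g⁻¹ * b * g) (ρ g⁻¹ u) = ρ g⁻¹ u := by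
        rw [hcj]
        simpa [mul_assoc] using congrArg (ρ g⁻¹) h2
      exact (hsm g B b).mpr (hmax.le_of_ge ⟨sup_le h1 (zpowers_le.mpr h4), _,
        hfix B _ _ h3 h5, rho_ne_zero ρ _ hu0⟩ le_sup_left (mem_sup_right (mem_zpowers _)))
  refine hD ((dec_of_family ρ hirr (fixd ρ) hw B ((Submodule.ne_bot_iff _).mpr hmax.prop.2)
    (indep_of_ops _ fun C D hCD => ?_)).resolve_left fun h => ha1 ?_)
  · obtain ⟨b, hb, hb'⟩ : ∃ b ∈ D.1, b ∉ C.1 := by
      by_contra hc
      push Not at hc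
      obtain ⟨v, hv, hv'⟩ := (hmx C).2.1
      exact hCD (Subtype.ext (le_antisymm (fun x hx => (hmx D).2.2 x ((hmx C).1 hx) v
        (fun y hy => hv y (hc y hy)) hv' (hv x hx)) hc))
    refine ⟨ρ b - 1, fun v hv => by simp [hv b hb], fun E v hv x hx => ?_, fun v hv h => ?_⟩
    · have h1 := LinearMap.congr_fun
        (commute_rho ρ hA ⟨x, (hmx E).1 hx⟩ ⟨b, (hmx D).1 hb⟩).eq v
      simp only [Module.End.mul_apply, hv x hx] at h1
      simp [h1, hv x hx]
    · by_contra h0
      exact hb' ((hmx C).2.2 b ((hmx D).1 hb) v hv h0 (sub_eq_zero.mp h))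
  · rw [← mem_bot, ← hρ, MonoidHom.mem_ker]
    ext v
    exact (h ▸ Submodule.mem_top : v ∈ fixd ρ B) a (hB (mem_sup_right (mem_zpowers a)))

end Pool.Agent.Work.MP_d3ab46_al
end

-- merged part: Pool.Agent.Work.MP_d3ab46_al.Hedge.Qp
section
/-!
The chief factors above a maximal abelian normal subgroup, and the Frobenius twist of weights.
-/

namespace Pool.Agent.Work.MP_d3ab46_al

open Subgroup Module Pool.Agent.Work.MP_36bee3_al

variable {G : Type} [Group G] {A : Subgroup G}

/-- A maximal abelian normal subgroup. -/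
structure MaxAb (A : Subgroup G) : Prop where
  normal : A.Normal
  comm : A ≤ centralizer A
  max : ∀ B : Subgroup G, B.Normal → B ≤ centralizer B → A ≤ B → B ≤ A

lemma exists_maxAb (G : Type) [Group G] [Finite G] : ∃ A : Subgroup G, MaxAb A := by
  obtain ⟨A, -, hA⟩ := Finite.exists_le_maximal
    (p := fun A : Subgroup G => A.Normal ∧ A ≤ centralizer A) (a := ⊥) ⟨inferInstance, bot_le⟩
  exact ⟨A, hA.prop.1, hA.prop.2, fun B h1 h2 h3 => hA.le_of_ge ⟨h1, h2⟩ h3⟩

lemma comm_of_minOver [Group.IsSolvable G] {E : Subgroup G} (h : MinOver ⊥ E) :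
    E ≤ centralizer E := fun a ha => mem_centralizer_iff.mpr fun c hc => by
  have := mem_bot.mp (h.comm c hc a ha)
  rwa [mul_inv_eq_one, mul_inv_eq_iff_eq_mul] at this

lemma MaxAb.top_le [Finite G] [Group.IsSolvable G] (hA : MaxAb A) (h : A = ⊥) :
    (⊤ : Subgroup G) ≤ ⊥ := by
  by_contra h0
  obtain ⟨E, hE, -⟩ := exists_minOver (D := ⊥) (C := (⊤ : Subgroup G)) inferInstance
    (lt_of_le_not_ge bot_le h0)
  exact hE.2.1.not_ge ((hA.max E hE.1 (comm_of_minOver hE) (h ▸ bot_le)).trans h.le)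

/-- The chief factors directly above `A` that centralise `A`. -/
def Sec (A : Subgroup G) : Type := {E : Subgroup G // MinOver A E ∧ E ≤ centralizer A}

instance Sec.normal (E : Sec A) : E.1.Normal := E.2.1.1

lemma Sec.comm_pow [A.Normal] (E : Sec A) {r : ℕ} (hr : ∀ e ∈ E.1, e ^ r ∈ A) {g e : G}
    (hg : g ∈ centralizer (A : Set G)) (he : e ∈ E.1) (h : g * e * g⁻¹ * e⁻¹ ∈ A) :
    (g * e * g⁻¹ * e⁻¹) ^ r = 1 := by
  have hz : Commute (g * e * g⁻¹ * e⁻¹) e := mem_centralizer_iff.mp (E.2.2 he) _ h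
  have h5 : g * e * g⁻¹ = (g * e * g⁻¹ * e⁻¹) * e := by group
  have h6 : g * e ^ r * g⁻¹ = (g * e * g⁻¹ * e⁻¹) ^ r * e ^ r := by
    rw [← conj_pow, h5, hz.mul_pow, ← h5]
  rw [← mem_centralizer_iff.mp hg _ (hr e he), mul_inv_cancel_right] at h6
  exact mul_eq_right.mp h6.symm

lemma MaxAb.sec_le [Finite G] (hA : MaxAb A) [A.Normal] (S : Submonoid ℕ)
    (h : ∀ E : Sec A, ∃ r ∈ S, ∀ e ∈ E.1, e ^ r ∈ A) :
    centralizer (A : Set G) ⊓ ⨅ E : Sec A, rel S (cen A E.1) ≤ rel S A := by
  have hn : (⨅ E : Sec A, centralizer (E.1 : Set G)).Normal :=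
    normal_iInf_normal fun E => inferInstance
  have h1 : centralizer (A : Set G) ⊓ ⨅ E : Sec A, centralizer (E.1 : Set G) ≤ A := by
    by_contra h0
    obtain ⟨E, hE, h2⟩ := exists_minOver (D := A)
      (C := centralizer (A : Set G) ⊓ ⨅ E : Sec A, centralizer (E.1 : Set G)) inferInstance
      (lt_of_le_not_ge (le_inf hA.comm (le_iInf fun E => le_centralizer_iff.mp E.2.2)) h0)
    exact hE.2.1.not_ge (hA.max E hE.1 (h2.trans (inf_le_right.trans (iInf_le
      (fun E : Sec A => centralizer (E.1 : Set G)) ⟨E, hE, h2.trans inf_le_left⟩))) hE.2.1.le)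
  refine le_trans (le_inf (inf_le_left.trans (self_le_rel S _)) (le_trans (le_iInf fun E => ?_)
    (iInf_rel_le S _ fun E => inferInstance))) ((inf_rel_le S _ _).trans (rel_mono S h1))
  refine (inf_le_inf_left _ (iInf_le _ E)).trans (le_rel inferInstance fun g hg => ?_)
  obtain ⟨r, hr, h2⟩ := h E
  obtain ⟨n, hn, h3⟩ := pw_rel S _ g hg.2
  refine ⟨n * r, mul_mem hn hr, mem_centralizer_iff.mpr fun e he => ?_⟩
  have h4 : g ^ n ∈ centralizer (A : Set G) := pow_mem hg.1 n
  have h5 := mem_cen.mp h3 e he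
  have h6 := conj_pow_eq (g ^ n) e (mem_centralizer_iff.mp h4 _ h5).symm r
  rw [E.comm_pow h2 h4 he h5, mul_inv_eq_one, mul_inv_eq_iff_eq_mul, ← pow_mul] at h6
  exact h6.symm

lemma MaxAb.noncomm (hA : MaxAb A) (E : Sec A) : ∃ x ∈ E.1, ∃ y ∈ E.1, x * y ≠ y * x := by
  by_contra h
  push Not at h
  exact E.2.1.2.1.not_ge (hA.max _ inferInstance
    (fun a ha => mem_centralizer_iff.mpr fun b hb => h b hb a ha) E.2.1.2.1.le)

lemma MaxAb.exists_root [Group.IsSolvable G] (hA : MaxAb A) [A.Normal] (E : Sec A) {r : ℕ}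
    (hr : ∀ e ∈ E.1, e ^ r ∈ A) : ∃ z ∈ A, z ≠ 1 ∧ z ^ r = 1 := by
  obtain ⟨x, hx, y, hy, h⟩ := hA.noncomm E
  refine ⟨_, E.2.1.comm x hx y hy, fun h1 => h ?_,
    E.comm_pow hr (E.2.2 hx) hy (E.2.1.comm x hx y hy)⟩
  rwa [mul_inv_eq_one, mul_inv_eq_iff_eq_mul] at h1

lemma Sec.rep [Finite G] [Group.IsSolvable G] [A.Normal] (E : Sec A) (r : ℕ) [Fact r.Prime]
    (hr : ∀ e ∈ E.1, e ^ r ∈ A) :
    ∃ (B : Type) (_ : AddCommGroup B) (_ : Module (ZMod r) B) (_ : FiniteDimensional (ZMod r) B)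
      (τ : G →* End (ZMod r) B), τ.ker = cen A E.1 ∧
        r ^ finrank (ZMod r) B = A.relIndex E.1 ∧ finrank (ZMod r) B ≠ 0 := by
  let Eb : Subgroup (G ⧸ A) := E.1.map (QuotientGroup.mk' _)
  have hEb : Eb.Normal := Normal.map inferInstance _ (QuotientGroup.mk'_surjective _)
  let _ : CommGroup Eb := { (inferInstance : Group Eb) with
    mul_comm := by
      rintro ⟨_, x, hx, rfl⟩ ⟨_, y, hy, rfl⟩
      refine Subtype.ext ?_
      have h1 := (QuotientGroup.eq_one_iff _).mpr (E.2.1.comm x hx y hy)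
      simp only [QuotientGroup.mk_mul, QuotientGroup.mk_inv] at h1
      rw [mul_inv_eq_one, mul_inv_eq_iff_eq_mul] at h1
      exact h1 }
  let φ : G →* MulAut Eb := MulAut.conjNormal.comp (QuotientGroup.mk' _)
  let _ : Module (ZMod r) (Additive Eb) := AddCommGroup.zmodModule (by
    rintro ⟨_, x, hx, rfl⟩
    exact Subtype.ext ((QuotientGroup.eq_one_iff _).mpr (hr x hx)))
  obtain ⟨B, i1, i2, i3, τ, h1, h2⟩ := exists_rep_add' (K := ZMod r) (L := ZMod r) (G := G)
    (B := Additive Eb) (fun g => MonoidHom.toAdditive (φ g).toMonoidHom)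
    (fun g c x => ZMod.map_smul _ c x) (fun x => by simp) (fun g h x => by simp)
  have h3 : r ^ finrank (ZMod r) B = A.relIndex E.1 := by
    rw [Nat.card_zmod] at h2
    rw [h2]
    change Nat.card Eb = _
    rw [← relIndex_ker, QuotientGroup.ker_mk']
  refine ⟨B, i1, i2, i3, τ, ?_, h3, fun h => ?_⟩
  · ext g
    rw [h1, mem_cen]
    constructor
    · intro h e he
      have h1 := congrArg Subtype.val (h ⟨_, e, he, rfl⟩)
      rw [← QuotientGroup.eq_one_iff]
      simp only [QuotientGroup.mk_mul, QuotientGroup.mk_inv]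
      exact mul_inv_eq_one.mpr h1
    · rintro h ⟨_, e, he, rfl⟩
      refine Subtype.ext ?_
      have h1 := (QuotientGroup.eq_one_iff _).mpr (h e he)
      simp only [QuotientGroup.mk_mul, QuotientGroup.mk_inv] at h1
      exact mul_inv_eq_one.mp h1
  · rw [h, pow_zero, eq_comm, relIndex_eq_one] at h3
    exact E.2.1.2.1.not_ge h3

section Wt

variable {F : Type} [Field F] {V : Type} [AddCommGroup V] [Module F V]

lemma wt_stable (ρ : G →* End F V) (χ : A → F) {g : G} (hg : g ∈ centralizer (A : Set G)) :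
    ∀ v ∈ wt (fun a : A => ρ a) χ, ρ g v ∈ wt (fun a : A => ρ a) χ := by
  intro v hv
  rw [mem_wt] at hv ⊢
  intro a
  rw [← map_smul, ← hv a, ← Module.End.mul_apply, ← Module.End.mul_apply, ← map_mul, ← map_mul,
    mem_centralizer_iff.mp hg a a.2]

lemma wt_hom (ρ : G →* End F V) {χ : A → F} (h : wt (fun a : A => ρ a) χ ≠ ⊥) :
    ∃ ψ : A →* F, ∀ a, ψ a = χ a := by
  obtain ⟨v, hv, h0⟩ := (Submodule.ne_bot_iff _).mp h
  rw [mem_wt] at hv
  refine ⟨⟨⟨χ, smul_left_injective F h0 ?_⟩, fun a b => smul_left_injective F h0 ?_⟩, fun _ => rfl⟩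
  · simpa using (hv 1).symm
  · change χ (a * b) • v = (χ a * χ b) • v
    rw [← hv, coe_mul, map_mul, Module.End.mul_apply, hv b, map_smul, hv a, smul_smul, mul_comm]

lemma comm_mem_centralizer [Finite G] [A.Normal] (ψ : A →* F) (hψ : ∀ a, ψ a = 1 → a = 1)
    (g h : G) : g * h * g⁻¹ * h⁻¹ ∈ centralizer (A : Set G) := by
  have := isCyclic_of_injective_ringHom ψ ((injective_iff_map_eq_one ψ).mpr hψ)
  have h1 : (MulAut.conjNormal (g * h * g⁻¹ * h⁻¹) : MulAut A) = 1 := by
    refine (IsCyclic.mulAutMulEquiv A).injective ?_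
    simp only [map_mul, map_inv, map_one]
    rw [mul_right_comm _ _ (_⁻¹)]
    simp
  refine mem_centralizer_iff.mpr fun a ha => ?_
  have h2 : _ * a * _ = a := congrArg Subtype.val (DFunLike.congr_fun h1 ⟨a, ha⟩)
  exact (mul_inv_eq_iff_eq_mul.mp h2).symm

lemma MaxAb.dim [Finite G] [Group.IsSolvable G] [IsAlgClosed F] [FiniteDimensional F V]
    (hA : MaxAb A) [A.Normal] (E : Sec A) (ρ : G →* End F V) {χ : A → F}
    (h0 : wt (fun a : A => ρ a) χ ≠ ⊥) (hχ : ∀ a, χ a = 1 → a = 1) {r k : ℕ} (hr : r.Prime)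
    (hk : r ^ k = A.relIndex E.1) :
    ∃ j, k ≤ 2 * j ∧ r ^ j ≤ finrank F (wt (fun a : A => ρ a) χ) := by
  set W := wt (fun a : A => ρ a) χ with hW
  have : Nontrivial W := Submodule.nontrivial_iff_ne_bot.mpr h0
  let σ : E.1 →* End F W := Representation.subrepresentation (ρ.comp E.1.subtype) W
    fun e v hv => wt_stable ρ χ (E.2.2 e.2) v hv
  have hZ : center E.1 = A.subgroupOf E.1 := by
    refine le_antisymm (fun z hz => hA.max (E.1 ⊓ centralizer E.1) inferInstance
      (inf_le_right.trans (centralizer_le fun _ h => h.1))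
      (le_inf E.2.1.2.1.le (le_centralizer_iff.mp E.2.2)) ⟨z.2, mem_centralizer_iff.mpr
        fun e he => congrArg Subtype.val (mem_center_iff.mp hz ⟨e, he⟩)⟩) fun z hz => ?_
    exact mem_center_iff.mpr fun e => Subtype.ext (mem_centralizer_iff.mp (E.2.2 e.2) z hz).symm
  have hσ : ∀ (z : E.1) (hz : (z : G) ∈ A), σ z = χ ⟨z, hz⟩ • 1 := fun z hz =>
    LinearMap.ext fun v => Subtype.ext (mem_wt.mp v.2 ⟨z, hz⟩)
  have h1 : ∀ z : E.1, (z : G) ∈ A → z ∈ σ.ker → z = 1 := fun z hz h =>
    Subtype.ext (congrArg (fun a : A => (a : G)) (hχ ⟨z, hz⟩ (smul_left_injective F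
      (one_ne_zero (α := End F W)) (by simpa [hσ z hz] using h))))
  have hc : ∀ a c : E.1, ((a * c * a⁻¹ * c⁻¹ : E.1) : G) ∈ A := fun a c =>
    E.2.1.comm _ a.2 _ c.2
  have hker : σ.ker = ⊥ := by
    refine eq_bot_iff.mpr fun z hz => h1 z (hZ.le (mem_center_iff.mpr fun e => ?_)) hz
    have h2 := h1 _ (hc e z) (mul_mem (Normal.conj_mem inferInstance z hz e) (inv_mem hz))
    rwa [mul_inv_eq_one, mul_inv_eq_iff_eq_mul] at h2
  obtain ⟨s, hs1, hs2, hs3⟩ := relIndex_le_sq σ hker (fun z hz => ⟨_, hσ z (hZ.le hz)⟩) ⊤ le_top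
    (fun a _ c _ => hZ.ge (hc a c)) fun a _ h =>
      mem_center_iff.mpr fun e => mem_centralizer_iff.mp h e (mem_top e)
  rw [relIndex_top_right, hZ, show (A.subgroupOf E.1).index = r ^ k from hk.symm] at hs1 hs2
  obtain ⟨j, -, rfl⟩ := (Nat.dvd_prime_pow hr).mp hs1
  rw [← pow_add, Nat.pow_le_pow_iff_right hr.one_lt] at hs2
  exact ⟨j, by omega, hs3⟩

end Wt

open scoped TensorProduct in
lemma exists_frob (c : ℕ) [Fact c.Prime] {V : Type} [AddCommGroup V] [Module (ZMod c) V]
    [FiniteDimensional (ZMod c) V] (ρ : G →* End (ZMod c) V) :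
    ∃ (K : Type) (_ : Field K) (_ : IsAlgClosed K) (_ : CharP K c) (V' : Type)
      (_ : AddCommGroup V') (_ : Module K V') (_ : FiniteDimensional K V') (ρ' : G →* End K V'),
      finrank K V' = finrank (ZMod c) V ∧
      (∀ g, (∀ v, ρ g v = v → v = 0) → ∀ v, ρ' g v = v → v = 0) ∧
      ∀ (A : Subgroup G) (χ : A → K), A ≤ centralizer A → (fun a => χ a ^ c) ≠ χ →
        2 * finrank K (wt (fun a : A => ρ' a) χ) ≤ finrank (ZMod c) V := by
  let K := AlgebraicClosure (ZMod c)
  let ρ' : G →* End K (K ⊗[ZMod c] V) :=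
    (End.baseChangeHom (ZMod c) K V).toRingHom.toMonoidHom.comp ρ
  have hρ' : ∀ g (t : K) (v : V), ρ' g (t ⊗ₜ v) = t ⊗ₜ ρ g v := fun _ _ _ => rfl
  have hd : finrank K (K ⊗[ZMod c] V) = finrank (ZMod c) V := finrank_baseChange
  refine ⟨K, inferInstance, inferInstance, inferInstance, K ⊗[ZMod c] V, inferInstance,
    inferInstance, inferInstance, ρ', hd, fun g hg v hv => ?_, fun A χ hA hχ => ?_⟩
  · have h1 : Function.Injective (ρ g - 1 : End (ZMod c) V) :=
      (injective_iff_map_eq_zero _).mpr fun u hu => hg u (sub_eq_zero.mp hu)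
    refine (injective_iff_map_eq_zero _).mp
      (Flat.lTensor_preserves_injective_linearMap (M := K) _ h1) v ?_
    rw [LinearMap.lTensor_sub, LinearMap.sub_apply, sub_eq_zero, Module.End.one_eq_id,
      LinearMap.lTensor_id]
    exact hv
  · let fr : K →ₗ[ZMod c] K := (frobenius K c).toAddMonoidHom.toZModLinearMap c
    have h1 := Flat.rTensor_preserves_injective_linearMap (M := V) fr (frobenius_inj K c)
    have h2 : ∀ (t : K) x, fr.rTensor V (t • x) = t ^ c • fr.rTensor V x := by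
      intro t x
      induction x with
      | zero => simp
      | tmul s v => simp [fr, TensorProduct.smul_tmul', frobenius_def, mul_pow]
      | add x y hx hy => rw [smul_add, map_add, map_add, hx, hy, smul_add]
    have h3 : ∀ g x, ρ' g (fr.rTensor V x) = fr.rTensor V (ρ' g x) := by
      intro g x
      induction x with
      | zero => simp
      | tmul s v => simp [hρ']
      | add x y hx hy => simp only [map_add, hx, hy]
    let j : wt (fun a : A => ρ' a) χ →+ wt (fun a : A => ρ' a) fun a => χ a ^ c :=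
      { toFun := fun v => ⟨fr.rTensor V v, mem_wt.mpr fun a => by
          rw [h3, mem_wt.mp v.2 a, h2]⟩
        map_zero' := Subtype.ext (map_zero _)
        map_add' := fun u v => Subtype.ext (map_add _ _ _) }
    have h4 := finrank_le_finrank_of_rank_le_rank (lift_rank_le_of_surjective_injective
      (fun t : K => t ^ c) j (surjective_frobenius K c)
      (fun u v h => Subtype.ext (h1 (congrArg Subtype.val h))) fun t v => Subtype.ext (h2 t v))
      (rank_lt_aleph0 _ _)
    have h5 := card_mul_le_finrank (fun a : A => ρ' a) (commute_rho ρ' hA)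
      (fun b : Bool => if b then χ else fun a => χ a ^ c)
      (by
        rintro (_ | _) (_ | _) h
        exacts [rfl, absurd h hχ, absurd h.symm hχ, rfl])
      (finrank K (wt (fun a : A => ρ' a) χ)) (by
        rintro (_ | _)
        exacts [h4, le_rfl])
    simpa [hd] using h5

end Pool.Agent.Work.MP_d3ab46_al
end

-- merged part: Pool.Agent.Work.MP_d3ab46_al.Hedge.Up
section
/-!
The upper bound in characteristic two and the exact formula.
-/

namespace Pool.Agent.Work.MP_d3ab46_al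

open Subgroup Module Pool.Agent.Work.MP_36bee3_al

variable (F : Type) [Field F] [Finite F] [CharP F 2]

lemma up_a (hT : T2) (hL : L2) {H : Type} [Group H] [Finite H] [Group.IsSolvable H] {V : Type}
    [AddCommGroup V] [Module F V] [FiniteDimensional F V] (σ : H →* End F V) {l : ℕ}
    (h : (Nat.card F = 2 ∧ finrank F V < 2 * 3 ^ l) ∨ 3 * finrank F V < 4 * 3 ^ l) :
    L {2} (rel (Submonoid.powers 2) σ.ker) l := by
  rcases h with ⟨h1, h2⟩ | h
  · have := Fintype.ofFinite F
    let e : F ≃+* ZMod 2 := FiniteField.ringEquivOfCardEq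
      (by rw [← Nat.card_eq_fintype_card, h1, ZMod.card])
    let _ : Algebra F (ZMod 2) := e.toRingHom.toAlgebra
    obtain ⟨V', _, _, _, ρ, h3, h4⟩ := exists_rep_aux (L := ZMod 2) σ
    have h5 := hT H V' ρ l (h4.trans_lt h2)
    rw [h3] at h5
    exact L.of_compl (rel_piN_powers 2 _) h5
  · obtain ⟨V', _, _, _, ρ, h3, h4⟩ := exists_rep_aux (L := AlgebraicClosure F) σ
    have h5 := hL H _ V' ρ l (by rwa [h4])
    rwa [h3] at h5

lemma up_b (hT : T2) (hL : L2) {H : Type} [Group H] [Finite H] [Group.IsSolvable H] {V : Type}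
    [AddCommGroup V] [Module F V] [FiniteDimensional F V] (σ : H →* End F V) (hσ : σ.ker = ⊥)
    {l : ℕ} (h : (Nat.card F = 2 ∧ finrank F V - 1 < 2 * 3 ^ l) ∨
      3 * (finrank F V - 1) < 4 * 3 ^ l) : L {2} (⊥ : Subgroup H) (l + 1) := by
  have h3 : 0 < 3 ^ l := by positivity
  by_cases hP : rel (Submonoid.powers 2) (⊥ : Subgroup H) = ⊥
  · have := up_a F hT hL σ (l := l + 1) (by
      rw [pow_succ]
      exact h.imp (fun h => ⟨h.1, by omega⟩) fun h => by omega)
    rwa [hσ, hP] at this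
  set P := rel (Submonoid.powers 2) (⊥ : Subgroup H) with hPd
  have hle : Submonoid.powers 2 ≤ piN {2} := powers_le_piN Nat.prime_two (Set.mem_singleton 2)
  let W := Representation.invariants (σ.comp P.subtype)
  have hW : ∀ g, W ≤ W.comap (σ g) := Representation.le_comap_invariants σ P
  have hW1 : W ≠ ⊤ := fun h1 => hP (eq_bot_iff.mpr fun g hg => hσ.le (LinearMap.ext fun v =>
    (Representation.mem_invariants _ v).mp (h1.ge Submodule.mem_top) ⟨g, hg⟩))
  have hW0 : W ≠ ⊥ := by
    have : Finite V := Module.finite_of_finite F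
    let _ : MulAction P V := MulAction.compHom V (σ.comp P.subtype)
    obtain ⟨v, -, hv⟩ := SetLike.exists_of_lt (lt_top_iff_ne_top.mpr hW1)
    have h2 : addOrderOf v = 2 := addOrderOf_eq_prime
      (by rw [← Nat.cast_smul_eq_nsmul F, CharP.cast_eq_zero, zero_smul])
      (fun h0 => hv (h0 ▸ W.zero_mem))
    obtain ⟨w, hw, hw0⟩ := (isPGroup_of_pw (p := 2) ((pw_rel _ (⊥ : Subgroup H)).mono hle)
      ).exists_fixed_point_of_prime_dvd_card_of_fixed_point V (h2 ▸ addOrderOf_dvd_natCard v)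
        (a := 0) fun g => map_zero (σ g)
    exact (Submodule.ne_bot_iff W).mpr ⟨w, (Representation.mem_invariants _ w).mpr hw, hw0.symm⟩
  have hsum := Submodule.finrank_quotient_add_finrank W
  have hlt : finrank F W < finrank F V := Submodule.finrank_lt hW1
  have hpos : 0 < finrank F W := by
    have : Nontrivial W := Submodule.nontrivial_iff_ne_bot.mpr hW0
    exact finrank_pos
  have h1 := up_a F hT hL (Representation.subrepresentation σ W hW) (l := l)
    (h.imp (fun h => ⟨h.1, by omega⟩) fun h => by omega)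
  have h2 := up_a F hT hL (Representation.quotient σ W hW) (l := l)
    (h.imp (fun h => ⟨h.1, by omega⟩) fun h => by omega)
  have h4 := (h1.inf h2).mono (red_le 2 σ W hW)
  rw [hσ] at h4
  exact L.of_rel (h4.mono (rel_mono_left hle _))

theorem maxLength_le_of (hT : T2) (hL : L2) (n l : ℕ)
    (h : (Nat.card F = 2 ∧ n - 1 < 2 * 3 ^ l) ∨ 3 * (n - 1) < 4 * 3 ^ l) :
    maxLength 2 F n ≤ l + 1 := by
  refine csSup_le' ?_
  rintro _ ⟨H, hH, rfl⟩
  refine pLength_le Nat.prime_two
    (SH_all 2 _ H rfl _ _ (L_pLength Nat.prime_two hH) fun K _ _ _ f hf => ?_)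
  let σ : K →* Module.End F (Fin n → F) :=
    (Matrix.toLinAlgEquiv' : Matrix (Fin n) (Fin n) F ≃ₐ[F] _).toRingEquiv.toRingHom.toMonoidHom.comp
      ((Units.coeHom _).comp (H.subtype.comp f))
  have hσ : σ.ker = ⊥ := (MonoidHom.ker_eq_bot_iff σ).mpr
    (Matrix.toLinAlgEquiv'.injective.comp (Units.val_injective.comp
      ((subtype_injective _).comp hf)))
  exact up_b F hT hL σ hσ (by rwa [Module.finrank_fin_fun])

theorem exact_of (hT : T2) (hL : L2) (h1 : ∀ n, 2 ≤ n → 0 < maxLength 2 F n)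
    (h2 : ∀ k n, 2 * 3 ^ k < n → k + 1 < maxLength 2 F n)
    (h4 : Nat.card F ≠ 2 → ∀ k n, 4 * 3 ^ k < n → k + 2 < maxLength 2 F n) (n : ℕ) (hn : 2 ≤ n) :
    maxLength 2 F n =
      1 + Nat.log 3 (if Nat.card F = 2 then 3 * (n - 1) / 2 else 9 * (n - 1) / 4) := by
  generalize hm : (if Nat.card F = 2 then 3 * (n - 1) / 2 else 9 * (n - 1) / 4) = m
  have hm0 : m ≠ 0 := by split_ifs at hm <;> omega
  have hu := Nat.lt_pow_succ_log_self (b := 3) (by norm_num) m
  have hd := Nat.pow_log_le_self 3 hm0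
  generalize Nat.log 3 m = l at hu hd
  rw [Nat.succ_eq_add_one, pow_succ] at hu
  rw [add_comm]
  refine le_antisymm (maxLength_le_of F hT hL n l ?_) ?_
  · split_ifs at hm with hF
    · exact Or.inl ⟨hF, by omega⟩
    · exact Or.inr (by omega)
  obtain _ | k := l
  · exact h1 n hn
  rw [pow_succ] at hd
  split_ifs at hm with hF
  · exact h2 k n (by omega)
  obtain _ | k := k
  · exact h2 0 n (by omega)
  · rw [pow_succ] at hd
    exact h4 hF k n (by omega)

end Pool.Agent.Work.MP_d3ab46_al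
end

-- merged part: Pool.Agent.Work.MP_d3ab46_al.Odd.Proj
section
/-!
A solvable linear group built from a family of units that commute up to scalars.
-/

namespace Pool.Agent.Work.MP_d3ab46_al

open Subgroup Module Pool.Agent.Work.MP_36bee3_al

/-- Units `ρ x` that commute up to scalars, with scalar centraliser, and two units that permute
them up to scalars as two involutions whose product has order `p`. -/
def ProjData (p : ℕ) (R : Type) [Ring R] [Algebra (ZMod p) R] : Prop :=
  ∃ (K : Type) (_ : Finite K) (ρ : K → Rˣ) (w n : Equiv.Perm K) (H N : Rˣ),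
    (∀ T : R, (∀ x, T * ρ x = ρ x * T) → ∃ t : ZMod p, T = t • (1 : R)) ∧
    (∀ (x y : K) (t : ZMod p), (ρ x : R) = t • (ρ y : R) → x = y) ∧
    (∀ x y, ∃ t : ZMod p, (ρ y * ρ x : R) = t • (ρ x * ρ y : R)) ∧
    w * w = 1 ∧ n * n = 1 ∧ (w * n) ^ p = 1 ∧ w * n ≠ 1 ∧
    (∀ x, ∃ t : ZMod p, (H * ρ x : R) = t • (ρ (w x) * H : R)) ∧
    ∀ x, ∃ t : ZMod p, (N * ρ x : R) = t • (ρ (n x) * N : R)

theorem proj_group (p : ℕ) [hp : Fact p.Prime] (hp2 : p ≠ 2) {R : Type} [Ring R] [Finite R]
    [Nontrivial R] [Algebra (ZMod p) R] (h : ProjData p R) :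
    ∃ (X : Type) (_ : Group X) (_ : Finite X) (_ : Group.IsSolvable X) (f : X →* Rˣ),
      Function.Injective f ∧
        rel (piN {p}) (rel (piN {p}ᶜ) (rel (piN {p}) (⊥ : Subgroup X))) ≠ ⊤ := by
  obtain ⟨K, _, ρ, w, n, H, N, ha, hb, hc, hw, hn, hu, hu1, hH, hN⟩ := h
  have hwu : ∀ i : ℤ, (w * n) ^ i * w = w * (w * n) ^ (-i) := fun i => by
    have h1 : w * (w * n)⁻¹ * w⁻¹ = w * n := by
      rw [mul_inv_rev, inv_eq_of_mul_eq_one_right hw, inv_eq_of_mul_eq_one_right hn, mul_assoc,
        mul_assoc, hw, mul_one]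
    rw [zpow_neg, ← inv_zpow, eq_comm, ← mul_inv_eq_iff_eq_mul, ← conj_zpow, h1]
  let θ : DihedralGroup 0 →* Equiv.Perm K :=
    { toFun := fun g => match g with
        | .r i => (w * n) ^ (show ℤ from i)
        | .sr i => w * (w * n) ^ (show ℤ from i)
      map_one' := zpow_zero _
      map_mul' := by
        rintro (i | i) (j | j)
        · exact zpow_add _ _ _
        · change w * (w * n) ^ ((show ℤ from j) - (show ℤ from i)) = _ * (w * _)
          rw [← mul_assoc _ w, hwu, mul_assoc w, ← zpow_add, neg_add_eq_sub]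
        · change w * (w * n) ^ ((show ℤ from i) + (show ℤ from j)) = w * _ * _
          rw [zpow_add, mul_assoc w]
        · change (w * n) ^ ((show ℤ from j) - (show ℤ from i)) = w * _ * (w * _)
          rw [mul_assoc w, ← mul_assoc _ w, hwu, mul_assoc w, ← mul_assoc w w, hw, one_mul,
            ← zpow_add, neg_add_eq_sub] }
  have h0 : ∀ (a : Rˣ) (t : ZMod p) (b : R), (a : R) = t • b → t ≠ 0 := fun a t b h ht =>
    a.ne_zero (by rw [h, ht, zero_smul])
  let X : Subgroup (Rˣ × Equiv.Perm K) :=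
    { carrier := {z | z.2 ∈ θ.range ∧
        ∀ x, ∃ t : ZMod p, (z.1 * ρ x : R) = t • (ρ (z.2 x) * z.1 : R)}
      one_mem' := ⟨one_mem _, fun x => ⟨1, by simp⟩⟩
      mul_mem' := by
        rintro a b ⟨h1, h2⟩ ⟨h3, h4⟩
        refine ⟨mul_mem h1 h3, fun x => ?_⟩
        obtain ⟨t, ht⟩ := h4 x
        obtain ⟨s, hs⟩ := h2 (b.2 x)
        refine ⟨t * s, ?_⟩
        rw [Prod.fst_mul, Units.val_mul, mul_assoc, ht, mul_smul_comm, ← mul_assoc, hs,
          smul_mul_assoc, smul_smul, mul_assoc]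
        rfl
      inv_mem' := by
        rintro a ⟨h1, h2⟩
        refine ⟨inv_mem h1, fun x => ?_⟩
        obtain ⟨t, ht⟩ := h2 (a.2⁻¹ x)
        refine ⟨t⁻¹, ?_⟩
        rw [eq_inv_smul_iff₀ (h0 (a.1 * ρ _) t _ ht), Prod.fst_inv, Prod.snd_inv,
          Units.eq_mul_inv_iff_mul_eq, smul_mul_assoc, mul_assoc, ← mul_smul_comm,
          Units.inv_mul_eq_iff_eq_mul, ht]
        simp }
  let f : X →* Rˣ := (MonoidHom.fst _ _).comp X.subtype
  let q : X →* θ.range := ((MonoidHom.snd _ _).comp X.subtype).codRestrict _ fun z => z.2.1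
  have hq : ∀ z : X, z ∈ q.ker ↔ z.1.2 = 1 := fun z => Subtype.ext_iff
  have hsc : ∀ (z : X) (t : ZMod p), (f z : R) = t • (1 : R) → z ∈ q.ker := by
    intro z t ht
    refine (hq z).mpr (Equiv.ext fun x => ?_)
    obtain ⟨s, h1⟩ := z.2.2 x
    rw [show (z.1.1 : R) = t • (1 : R) from ht, smul_mul_assoc, mul_smul_comm, one_mul, mul_one,
      smul_comm] at h1
    exact (hb x _ s (smul_right_injective R (h0 _ t _ ht) h1)).symm
  have hf : Function.Injective f := (injective_iff_map_eq_one f).mpr fun z hz =>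
    Subtype.ext (Prod.ext hz ((hq z).mp (hsc z 1 (by simp [hz]))))
  have hker : ∀ z ∈ q.ker, ∀ x, ∃ t : ZMod p, t ≠ 0 ∧ (f z * ρ x : R) = t • (ρ x * f z : R) := by
    intro z hz x
    obtain ⟨t, ht⟩ := z.2.2 x
    rw [(hq z).mp hz] at ht
    exact ⟨t, h0 (z.1.1 * ρ x) t _ ht, ht⟩
  have hY : Pw (piN {p}ᶜ) ⊥ q.ker := by
    intro z hz
    obtain ⟨s, hs⟩ := ha ((f z : R) ^ (p - 1)) fun x => by
      obtain ⟨t, ht0, ht⟩ := hker z hz x
      have h1 : ∀ k : ℕ, (f z : R) ^ k * ρ x = t ^ k • (ρ x * (f z : R) ^ k) := fun k => by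
        induction k with
        | zero => simp
        | succ k ih =>
          rw [pow_succ', mul_assoc, ih, mul_smul_comm, ← mul_assoc, ht, smul_mul_assoc, smul_smul,
            mul_assoc, pow_succ t]
      rw [h1, ZMod.pow_card_sub_one_eq_one ht0, one_smul]
    have h1 : (p - 1) ∈ piN {p}ᶜ := (mem_piN_compl hp.out).mpr
      ((Nat.coprime_self_sub_left hp.out.one_le).mpr (Nat.coprime_one_left p))
    refine ⟨_, mul_mem h1 h1, hf (Units.ext ?_)⟩
    rw [map_pow, Units.val_pow_eq_pow_val, pow_mul, hs, smul_pow, ZMod.pow_card_sub_one_eq_one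
      (h0 (f z ^ (p - 1)) s _ (by simpa using hs))]
    simp
  have : Group.IsSolvable (q.ker ⧸ center q.ker) := Group.isSolvable_of_comm fun a b => by
    obtain ⟨a, rfl⟩ := QuotientGroup.mk_surjective a
    obtain ⟨b, rfl⟩ := QuotientGroup.mk_surjective b
    rw [← QuotientGroup.mk_mul, ← QuotientGroup.mk_mul, QuotientGroup.eq]
    obtain ⟨s, hs⟩ := ha (f ((a * b)⁻¹ * (b * a) : q.ker)) fun x => by
      obtain ⟨t, -, ht⟩ := hker _ a.2 x
      obtain ⟨s, -, hs⟩ := hker _ b.2 x
      have h1 : (f a * f b * ρ x : R) = (s * t) • (ρ x * (f a * f b) : R) := by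
        rw [mul_assoc, hs, mul_smul_comm, ← mul_assoc, ht, smul_mul_assoc, smul_smul, mul_assoc]
      have h2 : (f b * f a * ρ x : R) = (s * t) • (ρ x * (f b * f a) : R) := by
        rw [mul_assoc, ht, mul_smul_comm, ← mul_assoc, hs, smul_mul_assoc, smul_smul, mul_assoc,
          mul_comm t]
      simp only [coe_mul, coe_inv, map_mul, map_inv, Units.val_mul]
      rw [mul_assoc, h2, Units.inv_mul_eq_iff_eq_mul, ← mul_assoc _ (ρ x : R), Units.val_mul, h1,
        smul_mul_assoc, mul_assoc (ρ x : R), ← Units.val_mul (f a), Units.mul_inv_cancel_left]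
    refine mem_center_iff.mpr fun g => Subtype.ext (hf (Units.ext ?_))
    generalize (a * b)⁻¹ * (b * a) = c at hs
    simp [hs]
  have : Group.IsSolvable (center q.ker) := Group.isSolvable_of_comm fun a b =>
    Subtype.ext (mem_center_iff.mp b.2 a)
  have : Group.IsSolvable q.ker := Group.isSolvable_of_ker_le_range (center q.ker).subtype
    (QuotientGroup.mk' (center q.ker)) (by rw [QuotientGroup.ker_mk', range_subtype])
  have : Group.IsSolvable θ.range := Group.isSolvable_of_surjective θ.rangeRestrict_surjective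
  refine ⟨X, inferInstance, inferInstance, Group.isSolvable_of_ker_le_range q.ker.subtype q
    (by rw [range_subtype]), f, hf, fun htop => hu1 ?_⟩
  have hd := disjoint_of_pw (pw_rel (piN {p}) (⊥ : Subgroup X)) hY
  have h1 : rel (piN {p}) (⊥ : Subgroup X) ≤ ⊥ := fun z hz => by
    obtain ⟨t, ht⟩ := ha (f z) fun x => congrArg (fun z : X => (f z : R))
      (commute_of_normal_of_disjoint _ _ inferInstance inferInstance hd z
        ⟨(ρ x, 1), one_mem _, fun y => hc y x⟩ hz ((hq _).mpr rfl)).eq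
    exact hd.le_bot ⟨hz, hsc z t ht⟩
  have h2 : ∀ z : X, z.1.2 * z.1.2 = 1 → z ∈ rel (piN {p}ᶜ) (⊥ : Subgroup X) := fun z hz => by
    obtain ⟨m, hm, h2⟩ := pw_rel _ _ z (htop.ge (mem_top z))
    refine mem_of_coprime (coprime_of_piN hm (prime_mem_piN Nat.prime_two hp2.symm))
      (rel_mono _ h1 h2) (le_rel inferInstance hY ((hq _).mpr ?_))
    rw [pow_two]
    exact hz
  obtain ⟨m, hm, h3⟩ := pw_rel _ _ _ (mul_mem (h2 ⟨(H, w), ⟨.sr 0, mul_one w⟩, hH⟩ hw)
    (h2 ⟨(N, n), ⟨.sr 1, by
      change w * (w * n) ^ (1 : ℤ) = n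
      rw [zpow_one, ← mul_assoc, hw, one_mul]⟩, hN⟩ hn))
  exact mem_bot.mp (mem_of_coprime (coprime_of_piN (prime_mem_piN hp.out (Set.mem_singleton p)) hm)
    (mem_bot.mpr hu)
    (mem_bot.mpr (congrArg (fun z : X => z.1.2) (mem_bot.mp h3))))

end Pool.Agent.Work.MP_d3ab46_al
end
end
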